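import Pool.Agent.Lib.MP_a768d2_coS.Defs

/-!
# MP_a768d2_co, thin strips: Cnt

Proof in words. Put r = ε / (1 + G) > 0 and C = (1 / r + 2) ^ 2. The map z ↦ (⌊z.1 / r⌋, ⌊(z.2 - m * z.1) / r⌋) is injective on P:
if two points of P have the same image then |Δx| < r and |Δ(y - m x)| < r, so |Δy| < r + G r = ε and |Δx| < r ≤ ε, so dist < ε, so the points are equal by `Sep`.
The image of the filtered set lies in Icc ⌊a / r⌋ ⌊(a + A) / r⌋ ×ˢ Icc ⌊t / r⌋ ⌊(t + B) / r⌋, which has at most (A / r + 2) * (B / r + 2) elements,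
and A / r + 2 ≤ (1 / r + 2) * (1 + A), the same for B. (Use Int.card_Icc, Int.floor_le, Int.lt_floor_add_one.)
-/

set_option autoImplicit false

namespace Pool.Agent.Lib.MP_a768d2_coS

noncomputable section

open Finset

/-- number of separated points in a sheared box -/
theorem cnt (ε G : ℝ) (hε : 0 < ε) (hG : 0 ≤ G) : ∃ C : ℝ, 1 ≤ C ∧
    ∀ P : Finset (ℝ × ℝ), Sep ε P → ∀ m a t A B : ℝ, |m| ≤ G → 0 ≤ A → 0 ≤ B →
      ((P.filter fun z => (a ≤ z.1 ∧ z.1 ≤ a + A) ∧ t ≤ z.2 - m * z.1 ∧ z.2 - m * z.1 ≤ t + B).card : ℝ) ≤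
        C * (1 + A) * (1 + B) := by
  have hG1 : 0 < 1 + G := by linarith
  set r : ℝ := ε / (1 + G) with hr
  have hr0 : 0 < r := div_pos hε hG1
  have hrε : r * (1 + G) = ε := by rw [hr]; field_simp
  have hrle : r ≤ ε := by nlinarith
  have hinv : 0 ≤ 1 / r := by positivity
  refine ⟨(1 / r + 2) ^ 2, by nlinarith, ?_⟩
  intro P hP m a t A B hm hA hB
  set F := P.filter fun z => (a ≤ z.1 ∧ z.1 ≤ a + A) ∧ t ≤ z.2 - m * z.1 ∧ z.2 - m * z.1 ≤ t + B
    with hF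
  set f : ℝ × ℝ → ℤ × ℤ := fun z => (⌊z.1 / r⌋, ⌊(z.2 - m * z.1) / r⌋) with hf
  have hcell : ∀ x y : ℝ, ⌊x / r⌋ = ⌊y / r⌋ → |x - y| < r := by
    intro x y h
    have h1 := Int.abs_sub_lt_one_of_floor_eq_floor h
    rw [← sub_div, abs_div, abs_of_pos hr0, div_lt_one hr0] at h1
    exact h1
  have hinj : Set.InjOn f F := by
    intro z hz w hw hzw
    have hzP : z ∈ P := (Finset.mem_filter.mp (Finset.mem_coe.mp hz)).1
    have hwP : w ∈ P := (Finset.mem_filter.mp (Finset.mem_coe.mp hw)).1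
    by_contra hne
    have h0 := hP z hzP w hwP hne
    have h1 : |z.1 - w.1| < r := hcell _ _ (congrArg Prod.fst hzw)
    have h2 : |(z.2 - m * z.1) - (w.2 - m * w.1)| < r := hcell _ _ (congrArg Prod.snd hzw)
    have h3 : |z.2 - w.2| < ε := by
      have e1 : z.2 - w.2 = ((z.2 - m * z.1) - (w.2 - m * w.1)) + m * (z.1 - w.1) := by ring
      have e2 := abs_add_le ((z.2 - m * z.1) - (w.2 - m * w.1)) (m * (z.1 - w.1))
      have e3 : |m * (z.1 - w.1)| ≤ G * r := by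
        rw [abs_mul]
        exact mul_le_mul hm h1.le (abs_nonneg _) hG
      rw [e1]
      nlinarith
    have h4 : dist z w < ε := by
      rw [Prod.dist_eq, max_lt_iff, Real.dist_eq, Real.dist_eq]
      exact ⟨lt_of_lt_of_le h1 hrle, h3⟩
    linarith
  have hmaps : Set.MapsTo f F
      (Finset.Icc ⌊a / r⌋ ⌊(a + A) / r⌋ ×ˢ Finset.Icc ⌊t / r⌋ ⌊(t + B) / r⌋ : Finset (ℤ × ℤ)) := by
    intro z hz
    obtain ⟨-, ⟨g1, g2⟩, g3, g4⟩ := Finset.mem_filter.mp (Finset.mem_coe.mp hz)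
    rw [Finset.mem_coe, Finset.mem_product, Finset.mem_Icc, Finset.mem_Icc]
    exact ⟨⟨Int.floor_le_floor (div_le_div_of_nonneg_right g1 hr0.le),
      Int.floor_le_floor (div_le_div_of_nonneg_right g2 hr0.le)⟩,
      Int.floor_le_floor (div_le_div_of_nonneg_right g3 hr0.le),
      Int.floor_le_floor (div_le_div_of_nonneg_right g4 hr0.le)⟩
  have hcard := Finset.card_le_card_of_injOn f hmaps hinj
  rw [Finset.card_product] at hcard
  have hside : ∀ b D : ℝ, 0 ≤ D →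
      ((Finset.Icc ⌊b / r⌋ ⌊(b + D) / r⌋).card : ℝ) ≤ (1 / r + 2) * (1 + D) := by
    intro b D hD
    have hle : ⌊b / r⌋ ≤ ⌊(b + D) / r⌋ + 1 := by
      have := Int.floor_le_floor (div_le_div_of_nonneg_right (by linarith : b ≤ b + D) hr0.le)
      linarith
    have h1 : (((Finset.Icc ⌊b / r⌋ ⌊(b + D) / r⌋).card : ℕ) : ℝ) =
        (⌊(b + D) / r⌋ : ℝ) + 1 - ⌊b / r⌋ := by
      have h2 := Int.card_Icc_of_le ⌊b / r⌋ ⌊(b + D) / r⌋ hle
      exact_mod_cast h2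
    rw [h1]
    have h2 := Int.floor_le ((b + D) / r)
    have h3 := Int.lt_floor_add_one (b / r)
    have h4 : (b + D) / r = b / r + D / r := add_div b D r
    have h5 : (1 / r + 2) * (1 + D) = 1 / r + D / r + 2 + 2 * D := by ring
    rw [h5]
    linarith
  have h1 := hside a A hA
  have h2 := hside t B hB
  calc (F.card : ℝ) ≤ ((Finset.Icc ⌊a / r⌋ ⌊(a + A) / r⌋).card : ℝ) *
        ((Finset.Icc ⌊t / r⌋ ⌊(t + B) / r⌋).card : ℝ) := by exact_mod_cast hcard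
    _ ≤ ((1 / r + 2) * (1 + A)) * ((1 / r + 2) * (1 + B)) :=
        mul_le_mul h1 h2 (Nat.cast_nonneg _) (by positivity)
    _ = (1 / r + 2) ^ 2 * (1 + A) * (1 + B) := by ring

end

end Pool.Agent.Lib.MP_a768d2_coS
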