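import Pool.Agent.Lib.MP_a768d2_coS.Flat

/-!
# MP_a768d2_co, thin strips: FlatExp

`flat` with explicit dependence on `c`.
-/

set_option autoImplicit false

namespace Pool.Agent.Lib.MP_a768d2_coS

noncomputable section

open Finset

theorem flat_exp (δ2 : ℝ) (hδ2 : 0 < δ2) : ∃ B : ℝ, 1 ≤ B ∧ ∀ c : ℝ, 0 < c → c ≤ 1 → ∀ σ : ℝ, 0 < σ →
    σ ≤ Real.exp (-(B / c ^ 16)) → ∀ S : Finset (ℝ × ℝ), (∀ p ∈ S, (0 ≤ p.1 ∧ p.1 ≤ 1) ∧ |p.2| ≤ c / 2) →
      (∀ p ∈ S, ∀ q ∈ S, p ≠ q → σ ≤ |p.1 - q.1|) →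
      (∀ p ∈ S, ∀ q ∈ S, c / 2 * |p.1 - q.1| ≤ |p.2 - q.2|) →
      Fat (c / 2 * σ) S → δ2 * c ^ 3 / σ ≤ (S.card : ℝ) → False := by
  obtain ⟨δ3, hδ3, h31, h32⟩ : ∃ δ3 : ℝ, 0 < δ3 ∧ δ3 ≤ δ2 / 16 ∧ δ3 ≤ δ2 ^ 2 / 1024 :=
    ⟨min (δ2 / 16) (δ2 ^ 2 / 1024), lt_min (by positivity) (by positivity), min_le_left _ _, min_le_right _ _⟩
  obtain ⟨g2, hg2⟩ : ∃ g2 : ℕ, 8 / δ3 ≤ 2 ^ g2 := by
    obtain ⟨g, hg⟩ := pow_unbounded_of_one_lt (8 / δ3) (one_lt_two)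
    exact ⟨g, hg.le⟩
  set B2 := 257 / (δ2 * δ3 ^ 2) + 1 with hB2
  have hB20 : 0 < B2 := by positivity
  refine ⟨B2 * (12 + g2) + 3 + 8 / δ2, ?_, ?_⟩
  · have h1 : 0 < B2 * (12 + g2) := by positivity
    have h2 : 0 < 8 / δ2 := by positivity
    linarith
  intro c hc hc1 σ hσ hσe S hbox hsep hsteep hFat hcard
  -- powers of c
  have hc16 : 0 < c ^ 16 := by positivity
  have hcp : ∀ m : ℕ, c ^ m ≤ 1 := fun m => pow_le_one₀ hc.le hc1
  have hinv : (1 : ℝ) ≤ 1 / c := by rw [le_div_iff₀ hc]; linarith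
  set n := ⌈257 / (δ2 * δ3 ^ 2 * c ^ 15)⌉₊ with hn
  set g := 6 * ⌈1 / c⌉₊ + g2 with hg
  have hn1 : 257 / (δ2 * δ3 ^ 2 * c ^ 15) ≤ n := Nat.le_ceil _
  have hn0 : 0 < n := by
    have h1 : (0 : ℝ) < n := lt_of_lt_of_le (by positivity) hn1
    exact_mod_cast h1
  have hn2 : (n : ℝ) ≤ B2 / c ^ 15 := by
    have h1 : (n : ℝ) < 257 / (δ2 * δ3 ^ 2 * c ^ 15) + 1 := Nat.ceil_lt_add_one (by positivity)
    have h2 : B2 / c ^ 15 = 257 / (δ2 * δ3 ^ 2 * c ^ 15) + 1 / c ^ 15 := by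
      rw [hB2]
      field_simp
    have h3 : 1 ≤ 1 / c ^ 15 := by
      rw [le_div_iff₀ (by positivity)]
      linarith [hcp 15]
    linarith
  have hg1 : (g : ℝ) ≤ (12 + g2) / c := by
    have h1 : ((⌈1 / c⌉₊ : ℕ) : ℝ) < 1 / c + 1 := Nat.ceil_lt_add_one (by positivity)
    have h2 : (12 + (g2 : ℝ)) / c = 12 * (1 / c) + g2 * (1 / c) := by ring
    have h3 : (g2 : ℝ) * 1 ≤ g2 * (1 / c) := mul_le_mul_of_nonneg_left hinv (Nat.cast_nonneg _)
    rw [hg, h2]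
    push_cast
    linarith
  have hng : ((n * g : ℕ) : ℝ) ≤ B2 * (12 + g2) / c ^ 16 := by
    push_cast
    calc (n : ℝ) * g ≤ (B2 / c ^ 15) * ((12 + g2) / c) := mul_le_mul hn2 hg1 (Nat.cast_nonneg _) (by positivity)
      _ = B2 * (12 + g2) / c ^ 16 := by
          field_simp
  have hpow : (2 : ℝ) ^ (n * g) ≤ Real.exp ((n * g : ℕ) : ℝ) := by
    have h1 : (2 : ℝ) ≤ Real.exp 1 := by
      have := Real.add_one_le_exp (1 : ℝ)
      linarith
    calc (2 : ℝ) ^ (n * g) ≤ (Real.exp 1) ^ (n * g) := pow_le_pow_left₀ (by norm_num) h1 _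
      _ = Real.exp ((n * g : ℕ) : ℝ) := by rw [← Real.exp_nat_mul, mul_one]
  have he1 : Real.exp (-(3 / c)) ≤ c ^ 3 := by
    have h1 : 1 / c ≤ Real.exp (1 / c) := by
      have := Real.add_one_le_exp (1 / c)
      linarith
    have h2 : Real.exp (-(1 / c)) ≤ c := by
      rw [Real.exp_neg]
      rw [inv_le_comm₀ (Real.exp_pos _) hc]
      simpa only [one_div] using h1
    have h3 : Real.exp (-(3 / c)) = Real.exp (-(1 / c)) ^ 3 := by
      rw [← Real.exp_nat_mul]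
      congr 1
      push_cast
      ring
    rw [h3]
    exact pow_le_pow_left₀ (Real.exp_pos _).le h2 3
  have he2 : Real.exp (-(8 / δ2)) ≤ δ2 / 8 := by
    have h1 : 8 / δ2 ≤ Real.exp (8 / δ2) := by
      have := Real.add_one_le_exp (8 / δ2)
      linarith
    rw [Real.exp_neg, inv_le_comm₀ (Real.exp_pos _) (by positivity)]
    rwa [inv_div]
  have hσ3 : σ * 2 ^ (n * g) ≤ c ^ 3 * (δ2 / 8) ∧ σ * 2 ^ (n * g) ≤ 1 := by
    have h1 : ((n * g : ℕ) : ℝ) + 3 / c + 8 / δ2 ≤ (B2 * (12 + g2) + 3 + 8 / δ2) / c ^ 16 := by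
      have e1 : 3 / c ≤ 3 / c ^ 16 := by
        refine div_le_div_of_nonneg_left (by norm_num) hc16 ?_
        calc c ^ 16 = c * c ^ 15 := by ring
          _ ≤ c * 1 := mul_le_mul_of_nonneg_left (hcp 15) hc.le
          _ = c := by ring
      have e2 : 8 / δ2 ≤ 8 / δ2 / c ^ 16 := by
        rw [le_div_iff₀ hc16]
        calc 8 / δ2 * c ^ 16 ≤ 8 / δ2 * 1 := mul_le_mul_of_nonneg_left (hcp 16) (by positivity)
          _ = 8 / δ2 := by ring
      have e3 : (B2 * (12 + g2) + 3 + 8 / δ2) / c ^ 16 = B2 * (12 + g2) / c ^ 16 + 3 / c ^ 16 + 8 / δ2 / c ^ 16 := by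
        ring
      rw [e3]
      linarith
    have h2 : σ ≤ Real.exp (-((n * g : ℕ) : ℝ)) * (Real.exp (-(3 / c)) * Real.exp (-(8 / δ2))) := by
      rw [← Real.exp_add, ← Real.exp_add]
      refine hσe.trans (Real.exp_le_exp.2 ?_)
      linarith
    have h3 : Real.exp (-((n * g : ℕ) : ℝ)) * 2 ^ (n * g) ≤ 1 := by
      calc Real.exp (-((n * g : ℕ) : ℝ)) * 2 ^ (n * g) ≤
            Real.exp (-((n * g : ℕ) : ℝ)) * Real.exp ((n * g : ℕ) : ℝ) :=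
            mul_le_mul_of_nonneg_left hpow (Real.exp_pos _).le
        _ = 1 := by rw [← Real.exp_add]; simp
    have h4 : σ * 2 ^ (n * g) ≤ Real.exp (-(3 / c)) * Real.exp (-(8 / δ2)) := by
      calc σ * 2 ^ (n * g) ≤ Real.exp (-((n * g : ℕ) : ℝ)) * (Real.exp (-(3 / c)) * Real.exp (-(8 / δ2))) * 2 ^ (n * g) :=
            mul_le_mul_of_nonneg_right h2 (by positivity)
        _ = (Real.exp (-((n * g : ℕ) : ℝ)) * 2 ^ (n * g)) * (Real.exp (-(3 / c)) * Real.exp (-(8 / δ2))) := by ring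
        _ ≤ 1 * (Real.exp (-(3 / c)) * Real.exp (-(8 / δ2))) := mul_le_mul_of_nonneg_right h3 (by positivity)
        _ = _ := by ring
    refine ⟨h4.trans (mul_le_mul he1 he2 (Real.exp_pos _).le (by positivity)), h4.trans ?_⟩
    have h5 : Real.exp (-(3 / c)) ≤ 1 := Real.exp_le_one_iff.2 (by
      have : 0 < 3 / c := by positivity
      linarith)
    have h6 : Real.exp (-(8 / δ2)) ≤ 1 := Real.exp_le_one_iff.2 (by
      have : 0 < 8 / δ2 := by positivity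
      linarith)
    calc Real.exp (-(3 / c)) * Real.exp (-(8 / δ2)) ≤ 1 * 1 := mul_le_mul h5 h6 (Real.exp_pos _).le (by norm_num)
      _ = 1 := by norm_num
  refine flat (c / 2) (c / 2) (δ2 * c ^ 3) (δ3 * c ^ 5) (by positivity) (by positivity) (by positivity) (by positivity)
    ?_ ?_ n g ?_ hn0 ?_ σ hσ ?_ ?_ S hbox hsep hsteep hFat hcard
  · have h1 : δ2 * c ^ 3 / (32 * (c / 2)) = δ2 / 16 * c ^ 2 := by
      field_simp
      norm_num
    rw [h1]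
    have h2 : c ^ 5 ≤ c ^ 2 := pow_le_pow_of_le_one hc.le hc1 (by norm_num)
    exact mul_le_mul h31 h2 (by positivity) (by positivity)
  · have h1 : c / 2 * (δ2 * c ^ 3) ^ 2 / (2048 * (c / 2) ^ 2) = δ2 ^ 2 / 1024 * c ^ 5 := by
      field_simp
      norm_num
    rw [h1]
    exact mul_le_mul_of_nonneg_right h32 (by positivity)
  · have h1 : (1 / c) ^ 6 ≤ 2 ^ (6 * ⌈1 / c⌉₊) := by
      rw [mul_comm, pow_mul]
      refine pow_le_pow_left₀ (by positivity) ?_ 6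
      have h2 : 1 / c ≤ (⌈1 / c⌉₊ : ℝ) := Nat.le_ceil _
      have h3 : ((⌈1 / c⌉₊ : ℕ) : ℝ) ≤ ((2 ^ ⌈1 / c⌉₊ : ℕ) : ℝ) := by
        exact_mod_cast (Nat.lt_two_pow_self).le
      push_cast at h3
      exact h2.trans h3
    have h4 : 4 * (1 / (c / 2)) = δ3 * c ^ 5 * ((1 / c) ^ 6 * (8 / δ3)) := by
      field_simp
      norm_num
    rw [h4, hg, pow_add]
    refine mul_le_mul_of_nonneg_left ?_ (by positivity)
    exact mul_le_mul h1 hg2 (by positivity) (by positivity)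
  · have h1 : 257 / (δ2 * δ3 ^ 2 * c ^ 15) * (δ2 * c ^ 3 * (c / 2) / (16 * (c / 2)) * (δ3 * c ^ 5 / 2) ^ 2) =
        257 / 64 * (1 / c) ^ 2 := by
      field_simp
      norm_num
    have h2 : (1 / (c / 2)) ^ 2 = 4 * (1 / c) ^ 2 := by
      field_simp
      norm_num
    have h3 : 0 < (1 / c) ^ 2 := by positivity
    rw [h2]
    refine lt_of_lt_of_le ?_ (mul_le_mul_of_nonneg_right hn1 (by positivity))
    rw [h1]
    linarith
  · have h1 : 2 * (c / 2) / (c / 2 * 2 ^ (n * g)) = 2 / 2 ^ (n * g) := by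
      field_simp
    rw [h1, le_div_iff₀ (by positivity)]
    linarith [hσ3.2]
  · rw [le_div_iff₀ (by positivity)]
    have := hσ3.1
    nlinarith

end

end Pool.Agent.Lib.MP_a768d2_coS
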