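import Pool.Agent.Lib.MP_a768d2_coS.Defs

/-!
# MP_a768d2_co, thin strips: Thin

Proof in words. Q = L.image Prod.fst ⊆ P. H e: |m_e - l0.1| ≤ c / (4 G K N), |t_e - l0.2| ≤ c / (4 G K) where (m_e, t_e) = ln e. Use sv (ln e) z = (z.2 - e.1.2) - m_e (z.1 - e.1.1) and sv_sub.
1. Each p ∈ Q is the first point of at most A pairs of L: if e1, e2 ∈ L have first point p then |m1 - m2| ≤ c / (2 G K N), so |sv (ln e1) e2.2| = |m1 - m2| |e2.2.1 - p.1| ≤ c / (2 G N) ≤ 4 / K, so e2.2 ∈ tube P K e1. So card L ≤ A card Q.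
2. Let S0 ⊆ Q be a subset of maximal cardinality with |x - x'| > K for any two distinct points (exists_max_image over the powerset filter). Every p ∈ Q has an s ∈ S0 with |p.1 - s.1| ≤ K. Let e_s ∈ L have first point s, and e_p ∈ L first point p:
 |sv (ln e_s) p| = |sv (ln e_s) p - sv (ln e_p) p| ≤ c / (2 G K N) * N + c / (2 G K) = c / (G K) ≤ 4 / K, so p ∈ tube P K e_s. So card Q ≤ A card S0, hence card S0 ≥ δ N / (K A ^ 2).
3. S = image of S0 under z ↦ (z.1 / N, K * sv l0 z), injective on S0 as the x coordinates are distinct. 0 ≤ z.1 / N ≤ 1; |sv l0 z| = |sv l0 z - sv (ln e_z) z| ≤ c / (4 G K) + c / (4 G K) = c / (2 G K), so |K sv l0 z| ≤ c / 2. Separation: > K / N.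
 Steepness: z ≠ z' in S0, e = e_z = (z, q). z' ≠ q as |z'.1 - z.1| > K ≥ q.1 - z.1. Fat: (c / N) |z'.1 - z.1| ≤ |dt z q z'| = (q.1 - z.1) |sv (ln e) z'| ≤ K |sv (ln e) z'| (sv_ln_eq), and sv (ln e) z' = (sv l0 z' - sv l0 z) + (l0.1 - m_e) (z'.1 - z.1),
 so |sv l0 z' - sv l0 z| ≥ (c / (N K) - c / (4 K N)) |z'.1 - z.1| ≥ c / (2 N K) |z'.1 - z.1|. Multiply by K.
 Fat (c / 2 * (K / N)) S: dt of the images is (K / N) * dt p q z (shear invariance: sv l0 z - sv l0 p = (z.2 - p.2) - l0.1 (z.1 - p.1)), and |dt p q z| ≥ (c / N) |z.1 - p.1| = c |X_z - X_p|.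
-/

set_option autoImplicit false

namespace Pool.Agent.Lib.MP_a768d2_coS

noncomputable section

open Finset

private theorem thin_tri (c G K N a1 a2 b1 b2 x l1 l2 : ℝ) (hG : 1 ≤ G) (hc : 0 < c)
    (hK : 1 ≤ K) (hKN : K ≤ N) (hx : 0 ≤ x ∧ x ≤ N)
    (h1 : |a1 - l1| ≤ c / (4 * G * K * N)) (h2 : |b1 - l2| ≤ c / (4 * G * K))
    (h3 : |a2 - l1| ≤ c / (4 * G * K * N)) (h4 : |b2 - l2| ≤ c / (4 * G * K)) :
    |(a2 - a1) * x + (b2 - b1)| ≤ c / (G * K) := by
  have hK0 : 0 < K := by linarith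
  have hN0 : 0 < N := by linarith
  have hG0 : 0 < G := by linarith
  have e1 : |a2 - a1| ≤ c / (2 * G * K * N) := by
    have h5 : a2 - a1 = (a2 - l1) - (a1 - l1) := by ring
    rw [h5]
    have h6 : c / (2 * G * K * N) = c / (4 * G * K * N) + c / (4 * G * K * N) := by
      field_simp
      ring
    rw [h6]
    exact (abs_sub _ _).trans (add_le_add h3 h1)
  have e2 : |b2 - b1| ≤ c / (2 * G * K) := by
    have h5 : b2 - b1 = (b2 - l2) - (b1 - l2) := by ring
    rw [h5]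
    have h6 : c / (2 * G * K) = c / (4 * G * K) + c / (4 * G * K) := by
      field_simp
      ring
    rw [h6]
    exact (abs_sub _ _).trans (add_le_add h4 h2)
  have e3 : |(a2 - a1) * x| ≤ c / (2 * G * K) := by
    rw [abs_mul, abs_of_nonneg hx.1]
    have h7 : c / (2 * G * K) = c / (2 * G * K * N) * N := by
      field_simp
    rw [h7]
    exact mul_le_mul e1 hx.2 hx.1 (by positivity)
  have h8 : c / (G * K) = c / (2 * G * K) + c / (2 * G * K) := by
    field_simp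
    ring
  rw [h8]
  exact (abs_add_le _ _).trans (add_le_add e3 e2)

private theorem thin_off (c G K N a1 b1 x l1 l2 : ℝ) (hG : 1 ≤ G) (hc : 0 < c)
    (hK : 1 ≤ K) (hKN : K ≤ N) (hx : 0 ≤ x ∧ x ≤ N)
    (h1 : |a1 - l1| ≤ c / (4 * G * K * N)) (h2 : |b1 - l2| ≤ c / (4 * G * K)) :
    |K * ((a1 - l1) * x + (b1 - l2))| ≤ c / 2 := by
  have hK0 : 0 < K := by linarith
  have hN0 : 0 < N := by linarith
  have hG0 : 0 < G := by linarith
  have e3 : |(a1 - l1) * x| ≤ c / (4 * G * K) := by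
    rw [abs_mul, abs_of_nonneg hx.1]
    have h7 : c / (4 * G * K) = c / (4 * G * K * N) * N := by
      field_simp
    rw [h7]
    exact mul_le_mul h1 hx.2 hx.1 (by positivity)
  have e4 : |(a1 - l1) * x + (b1 - l2)| ≤ c / (2 * G * K) := by
    have h8 : c / (2 * G * K) = c / (4 * G * K) + c / (4 * G * K) := by
      field_simp
      ring
    rw [h8]
    exact (abs_add_le _ _).trans (add_le_add e3 h2)
  rw [abs_mul, abs_of_pos hK0]
  have e5 : K * |(a1 - l1) * x + (b1 - l2)| ≤ K * (c / (2 * G * K)) :=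
    mul_le_mul_of_nonneg_left e4 hK0.le
  have e6 : K * (c / (2 * G * K)) = c / (2 * G) := by
    field_simp
  rw [e6] at e5
  refine e5.trans ?_
  apply div_le_div_of_nonneg_left hc.le (by norm_num)
  linarith

private theorem thin_max (K : ℝ) (hK : 0 ≤ K) (Q : Finset (ℝ × ℝ)) :
    ∃ S0 : Finset (ℝ × ℝ), S0 ⊆ Q ∧ (∀ x ∈ S0, ∀ y ∈ S0, x ≠ y → K < |x.1 - y.1|) ∧
      ∀ p ∈ Q, ∃ s ∈ S0, |p.1 - s.1| ≤ K := by
  classical
  have hne : (Q.powerset.filter fun T => ∀ x ∈ T, ∀ y ∈ T, x ≠ y → K < |x.1 - y.1|).Nonempty :=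
    ⟨∅, by simp⟩
  obtain ⟨S0, hS0, hmax⟩ := Finset.exists_max_image _ (fun T => T.card) hne
  rw [Finset.mem_filter, Finset.mem_powerset] at hS0
  refine ⟨S0, hS0.1, hS0.2, fun p hp => ?_⟩
  by_cases hpS : p ∈ S0
  · exact ⟨p, hpS, by rw [sub_self, abs_zero]; exact hK⟩
  by_contra hcon
  push Not at hcon
  have hin : insert p S0 ∈
      Q.powerset.filter fun T => ∀ x ∈ T, ∀ y ∈ T, x ≠ y → K < |x.1 - y.1| := by
    rw [Finset.mem_filter, Finset.mem_powerset]
    refine ⟨Finset.insert_subset hp hS0.1, ?_⟩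
    intro x hx y hy hxy
    rw [Finset.mem_insert] at hx hy
    rcases hx with rfl | hx
    · rcases hy with rfl | hy
      · exact absurd rfl hxy
      · exact hcon y hy
    · rcases hy with rfl | hy
      · rw [abs_sub_comm]
        exact hcon x hx
      · exact hS0.2 x hx y hy hxy
  have h1 := hmax _ hin
  rw [Finset.card_insert_of_notMem hpS] at h1
  omega

private theorem thin_fib {α β : Type*} [DecidableEq β] (s : Finset α) (t : Finset β) (f : α → β)
    (A : ℝ) (hA : 0 ≤ A) (hf : ∀ a ∈ s, f a ∈ t)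
    (h : ∀ b ∈ t, ((s.filter fun a => f a = b).card : ℝ) ≤ A) : (s.card : ℝ) ≤ A * t.card := by
  have h1 : s.card ≤ ⌊A⌋₊ * t.card :=
    Finset.card_le_mul_card_image_of_maps_to hf ⌊A⌋₊ fun b hb => Nat.le_floor (h b hb)
  have h2 : (s.card : ℝ) ≤ ((⌊A⌋₊ * t.card : ℕ) : ℝ) := by exact_mod_cast h1
  rw [Nat.cast_mul] at h2
  exact h2.trans (mul_le_mul_of_nonneg_right (Nat.floor_le hA) (Nat.cast_nonneg _))

private theorem thin_dt (K N : ℝ) (l p q z : ℝ × ℝ) :
    dt (p.1 / N, K * sv l p) (q.1 / N, K * sv l q) (z.1 / N, K * sv l z) = K / N * dt p q z := by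
  unfold dt sv
  ring

private theorem thin_steep (c G K N m l x w s : ℝ) (hG : 1 ≤ G) (hc : 0 < c) (hK : 1 ≤ K)
    (hKN : K ≤ N) (h1 : |m - l| ≤ c / (4 * G * K * N)) (h2 : c / N * |x| ≤ K * |s|)
    (h3 : s = w + (l - m) * x) : c / 2 * |x / N| ≤ |K * w| := by
  have hK0 : 0 < K := by linarith
  have hN0 : 0 < N := by linarith
  have hG0 : 0 < G := by linarith
  have e1 : |s| ≤ |w| + c / (4 * G * K * N) * |x| := by
    rw [h3]
    refine (abs_add_le _ _).trans ?_
    rw [abs_mul, abs_sub_comm l m]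
    have := mul_le_mul_of_nonneg_right h1 (abs_nonneg x)
    linarith
  have e2 : K * |s| ≤ K * |w| + c / (4 * G * N) * |x| := by
    have e3 := mul_le_mul_of_nonneg_left e1 hK0.le
    have e4 : K * (|w| + c / (4 * G * K * N) * |x|) = K * |w| + c / (4 * G * N) * |x| := by
      field_simp
    rw [e4] at e3
    exact e3
  have e5 : c / (4 * G * N) * |x| ≤ c / (4 * N) * |x| := by
    apply mul_le_mul_of_nonneg_right _ (abs_nonneg x)
    apply div_le_div_of_nonneg_left hc.le (by positivity)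
    have := mul_le_mul_of_nonneg_right hG hN0.le
    linarith
  have e6 : |x / N| = |x| / N := by
    rw [abs_div, abs_of_pos hN0]
  rw [e6, abs_mul, abs_of_pos hK0]
  have e7 : c / N * |x| = c / 2 * (|x| / N) + c / (4 * N) * |x| + c / (4 * N) * |x| := by
    field_simp
    ring
  have e8 : 0 ≤ c / (4 * N) * |x| := by positivity
  linarith

/-- from a rich tube to a planar set with a Lipschitz structure -/
theorem thin (c G A δ N K : ℝ) (hc : 0 < c) (hc1 : c ≤ 1) (hG : 1 ≤ G) (hA : 1 ≤ A) (hδ : 0 < δ) (hK : 1 ≤ K)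
    (hKN : K ≤ N) (P : Finset (ℝ × ℝ)) (hPN : InBox N P) (hF : Fat (c / N) P) (l0 : ℝ × ℝ)
    (L : Finset ((ℝ × ℝ) × (ℝ × ℝ))) (hLP : L ⊆ P ×ˢ P)
    (hL : ∀ e ∈ L, 0 < e.2.1 - e.1.1 ∧ e.2.1 - e.1.1 ≤ K ∧ ((tube P K e).card : ℝ) ≤ A ∧
          |(ln e).1 - l0.1| ≤ c / (4 * G * K * N) ∧ |(ln e).2 - l0.2| ≤ c / (4 * G * K))
    (hcard : δ * N / K ≤ (L.card : ℝ)) :
    ∃ S : Finset (ℝ × ℝ), (∀ p ∈ S, (0 ≤ p.1 ∧ p.1 ≤ 1) ∧ |p.2| ≤ c / 2) ∧
      (∀ p ∈ S, ∀ q ∈ S, p ≠ q → K / N ≤ |p.1 - q.1|) ∧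
      (∀ p ∈ S, ∀ q ∈ S, c / 2 * |p.1 - q.1| ≤ |p.2 - q.2|) ∧
      Fat (c / 2 * (K / N)) S ∧ δ / A ^ 2 / (K / N) ≤ (S.card : ℝ) := by
  classical
  have hK0 : 0 < K := by linarith
  have hN0 : 0 < N := by linarith
  have hG0 : 0 < G := by linarith
  have hA0 : 0 < A := by linarith
  have hsmall : c / (G * K) ≤ 4 / K := by
    rw [div_le_div_iff₀ (by positivity) hK0]
    have h1 : K ≤ G * K := by
      have := mul_le_mul_of_nonneg_right hG hK0.le
      linarith
    have h2 : c * K ≤ 1 * K := mul_le_mul_of_nonneg_right hc1 hK0.le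
    linarith
  have hP1 : ∀ e ∈ L, e.1 ∈ P := fun e he => (Finset.mem_product.mp (hLP he)).1
  have hP2 : ∀ e ∈ L, e.2 ∈ P := fun e he => (Finset.mem_product.mp (hLP he)).2
  have hT : ∀ e ∈ L, ∀ e' ∈ L, ∀ z ∈ P, sv (ln e') z = 0 → |sv (ln e) z| ≤ 4 / K := by
    intro e he e' he' z hz h0
    have h1 := sv_sub (ln e) (ln e') z
    rw [h0, sub_zero] at h1
    rw [h1]
    have hz' := hPN z hz
    exact (thin_tri c G K N (ln e).1 (ln e').1 (ln e).2 (ln e').2 z.1 l0.1 l0.2 hG hc hK hKN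
      ⟨hz'.1, hz'.2.1⟩ (hL e he).2.2.2.1 (hL e he).2.2.2.2 (hL e' he').2.2.2.1
      (hL e' he').2.2.2.2).trans hsmall
  have hQ : (L.card : ℝ) ≤ A * ((L.image Prod.fst).card : ℝ) := by
    refine thin_fib L (L.image Prod.fst) Prod.fst A hA0.le
      (fun e he => Finset.mem_image_of_mem _ he) ?_
    intro p hp
    obtain ⟨e1, he1, rfl⟩ := Finset.mem_image.mp hp
    refine le_trans ?_ (hL e1 he1).2.2.1
    have h1 : (L.filter fun a => a.1 = e1.1).card ≤ (tube P K e1).card := by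
      apply Finset.card_le_card_of_injOn (fun a => a.2)
      · intro a ha
        have ha' := Finset.mem_filter.mp (Finset.mem_coe.mp ha)
        have haL := hL a ha'.1
        apply Finset.mem_coe.mpr
        unfold tube
        rw [Finset.mem_filter]
        refine ⟨hP2 a ha'.1, ?_, ?_⟩
        · rw [← ha'.2, abs_of_pos haL.1]
          exact haL.2.1
        · exact hT e1 he1 a ha'.1 a.2 (hP2 a ha'.1) (sv_ln_snd a haL.1.ne')
      · intro a ha b hb hab
        have ha' := Finset.mem_filter.mp (Finset.mem_coe.mp ha)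
        have hb' := Finset.mem_filter.mp (Finset.mem_coe.mp hb)
        exact Prod.ext (ha'.2.trans hb'.2.symm) hab
    exact_mod_cast h1
  obtain ⟨S0, hS0Q, hS0s, hS0m⟩ := thin_max K hK0.le (L.image Prod.fst)
  have hfst : ∀ s ∈ L.image Prod.fst, ∃ e ∈ L, e.1 = s := fun s hs => by
    obtain ⟨e, he, h⟩ := Finset.mem_image.mp hs
    exact ⟨e, he, h⟩
  have hQP : ∀ s ∈ L.image Prod.fst, s ∈ P := fun s hs => by
    obtain ⟨e, he, h⟩ := hfst s hs
    rw [← h]
    exact hP1 e he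
  have hS : ((L.image Prod.fst).card : ℝ) ≤ A * (S0.card : ℝ) := by
    choose! f hf1 hf2 using hS0m
    refine thin_fib (L.image Prod.fst) S0 f A hA0.le hf1 ?_
    intro s hs
    obtain ⟨e, he, hes⟩ := hfst s (hS0Q hs)
    refine le_trans ?_ (hL e he).2.2.1
    have h1 : ((L.image Prod.fst).filter fun p => f p = s) ⊆ tube P K e := by
      intro p hp
      rw [Finset.mem_filter] at hp
      unfold tube
      rw [Finset.mem_filter]
      refine ⟨hQP p hp.1, ?_, ?_⟩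
      · have h2 := hf2 p hp.1
        rw [hp.2, ← hes] at h2
        exact h2
      · obtain ⟨e', he', hep⟩ := hfst p hp.1
        refine hT e he e' he' p (hQP p hp.1) ?_
        rw [← hep]
        exact sv_ln_fst e'
    exact_mod_cast Finset.card_le_card h1
  have hinj : Set.InjOn (fun z : ℝ × ℝ => (z.1 / N, K * sv l0 z)) (S0 : Set (ℝ × ℝ)) := by
    intro z hz z' hz' h
    by_contra hne
    have h1 := hS0s z (Finset.mem_coe.mp hz) z' (Finset.mem_coe.mp hz') hne
    have h2 : z.1 / N = z'.1 / N := congrArg Prod.fst h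
    have h3 : z.1 = z'.1 := by
      have h4 := congrArg (fun t => t * N) h2
      simp only [div_mul_cancel₀ _ hN0.ne'] at h4
      exact h4
    rw [h3, sub_self, abs_zero] at h1
    linarith
  refine ⟨S0.image fun z => (z.1 / N, K * sv l0 z), ?_, ?_, ?_, ?_, ?_⟩
  · intro p hp
    obtain ⟨z, hz, rfl⟩ := Finset.mem_image.mp hp
    have hzB := hPN z (hQP z (hS0Q hz))
    refine ⟨⟨div_nonneg hzB.1 hN0.le, (div_le_one hN0).mpr hzB.2.1⟩, ?_⟩
    obtain ⟨e, he, hez⟩ := hfst z (hS0Q hz)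
    have h0 : sv (ln e) z = 0 := by
      rw [← hez]
      exact sv_ln_fst e
    have h1 := sv_sub l0 (ln e) z
    rw [h0, sub_zero] at h1
    show |K * sv l0 z| ≤ c / 2
    rw [h1]
    exact thin_off c G K N (ln e).1 (ln e).2 z.1 l0.1 l0.2 hG hc hK hKN ⟨hzB.1, hzB.2.1⟩
      (hL e he).2.2.2.1 (hL e he).2.2.2.2
  · intro p hp q hq hpq
    obtain ⟨z, hz, rfl⟩ := Finset.mem_image.mp hp
    obtain ⟨z', hz', rfl⟩ := Finset.mem_image.mp hq
    have hne : z ≠ z' := fun h => hpq (by rw [h])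
    have h1 := hS0s z hz z' hz' hne
    show K / N ≤ |z.1 / N - z'.1 / N|
    rw [← sub_div, abs_div, abs_of_pos hN0]
    exact div_le_div_of_nonneg_right h1.le hN0.le
  · intro p hp q hq
    obtain ⟨z, hz, rfl⟩ := Finset.mem_image.mp hp
    obtain ⟨z', hz', rfl⟩ := Finset.mem_image.mp hq
    show c / 2 * |z.1 / N - z'.1 / N| ≤ |K * sv l0 z - K * sv l0 z'|
    by_cases hne : z = z'
    · rw [hne, sub_self, sub_self, abs_zero, mul_zero]
    obtain ⟨e, he, hez⟩ := hfst z (hS0Q hz)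
    have hLe := hL e he
    have hsep := hS0s z hz z' hz' hne
    have hzq : z ≠ e.2 := by
      intro h
      have h1 := hLe.1
      rw [hez, ← h, sub_self] at h1
      exact lt_irrefl _ h1
    have hqz : e.2 ≠ z' := by
      intro h
      have h1 := hLe.2.1
      rw [hez, h] at h1
      have h2 := hLe.1
      rw [hez, h] at h2
      rw [abs_sub_comm, abs_of_pos h2] at hsep
      linarith
    have hfat := hF z (hQP z (hS0Q hz)) e.2 (hP2 e he) z' (hQP z' (hS0Q hz')) hzq hqz hne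
    have hdt : dt z e.2 z' = (e.2.1 - e.1.1) * sv (ln e) z' := by
      rw [sv_ln_eq e z' hLe.1.ne', hez, mul_div_cancel₀]
      have h1 := hLe.1.ne'
      rwa [hez] at h1
    rw [hdt, abs_mul, abs_of_pos hLe.1] at hfat
    have hfat2 : c / N * |z'.1 - z.1| ≤ K * |sv (ln e) z'| :=
      hfat.trans (mul_le_mul_of_nonneg_right hLe.2.1 (abs_nonneg _))
    have h0 : sv (ln e) z = 0 := by
      rw [← hez]
      exact sv_ln_fst e
    have hs : sv (ln e) z' = (sv l0 z' - sv l0 z) + (l0.1 - (ln e).1) * (z'.1 - z.1) := by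
      have h1 : sv (ln e) z' = sv (ln e) z' - sv (ln e) z := by rw [h0, sub_zero]
      rw [h1]
      unfold sv
      ring
    have hfin := thin_steep c G K N (ln e).1 l0.1 (z'.1 - z.1) (sv l0 z' - sv l0 z)
      (sv (ln e) z') hG hc hK hKN hLe.2.2.2.1 hfat2 hs
    have e1 : z.1 / N - z'.1 / N = -((z'.1 - z.1) / N) := by ring
    have e2 : K * sv l0 z - K * sv l0 z' = -(K * (sv l0 z' - sv l0 z)) := by ring
    rw [e1, e2, abs_neg, abs_neg]
    exact hfin
  · intro p hp q hq r hr h1 h2 h3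
    obtain ⟨x, hx, rfl⟩ := Finset.mem_image.mp hp
    obtain ⟨y, hy, rfl⟩ := Finset.mem_image.mp hq
    obtain ⟨z, hz, rfl⟩ := Finset.mem_image.mp hr
    have h1' : x ≠ y := fun h => h1 (by rw [h])
    have h2' : y ≠ z := fun h => h2 (by rw [h])
    have h3' : x ≠ z := fun h => h3 (by rw [h])
    have hfat := hF x (hQP x (hS0Q hx)) y (hQP y (hS0Q hy)) z (hQP z (hS0Q hz)) h1' h2' h3'
    show c / 2 * (K / N) * |z.1 / N - x.1 / N| ≤
      |dt (x.1 / N, K * sv l0 x) (y.1 / N, K * sv l0 y) (z.1 / N, K * sv l0 z)|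
    rw [thin_dt, abs_mul, abs_of_pos (div_pos hK0 hN0), ← sub_div, abs_div, abs_of_pos hN0]
    have h4 := mul_le_mul_of_nonneg_left hfat (div_pos hK0 hN0).le
    refine le_trans ?_ h4
    have h5 : K / N * (c / N * |z.1 - x.1|) = c * (K / N) * (|z.1 - x.1| / N) := by ring
    rw [h5]
    have h6 : 0 ≤ (K / N) * (|z.1 - x.1| / N) := by positivity
    have h7 : c / 2 * (K / N) * (|z.1 - x.1| / N) = c / 2 * ((K / N) * (|z.1 - x.1| / N)) := by ring
    have h8 : c * (K / N) * (|z.1 - x.1| / N) = c * ((K / N) * (|z.1 - x.1| / N)) := by ring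
    rw [h7, h8]
    exact mul_le_mul_of_nonneg_right (by linarith) h6
  · rw [Finset.card_image_of_injOn hinj]
    have h1 : δ * N / K ≤ A * (A * (S0.card : ℝ)) :=
      hcard.trans (hQ.trans (mul_le_mul_of_nonneg_left hS hA0.le))
    have h2 : δ / A ^ 2 / (K / N) = δ * N / K / A ^ 2 := by
      field_simp
    rw [h2, div_le_iff₀ (by positivity)]
    calc δ * N / K ≤ A * (A * (S0.card : ℝ)) := h1
      _ = (S0.card : ℝ) * A ^ 2 := by ring

end

end Pool.Agent.Lib.MP_a768d2_coS
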