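import Pool.Agent.Lib.MP_a768d2_coS.Rich
import Pool.Agent.Lib.MP_a768d2_coS.Thin
import Pool.Agent.Lib.MP_a768d2_coS.FlatExp

/-!
# MP_a768d2_co, thin strips: Core

A large separated subset of a square contains a thin triple: `rich`, `thin` and `flat_exp` together (`N = v ^ 5`, `K = v ^ 2`).
-/

set_option autoImplicit false

namespace Pool.Agent.Lib.MP_a768d2_coS

noncomputable section

open Finset

theorem core (ε : ℝ) (hε : 0 < ε) : ∃ B : ℝ, 1 ≤ B ∧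
    ∀ c v : ℝ, 0 < c → c ≤ 1 → Real.exp (B / c ^ 16) ≤ v → ∀ P : Finset (ℝ × ℝ), Sep ε P → InBox (v ^ 5) P →
      (v ^ 5) ^ 2 ≤ (P.card : ℝ) → Fat (c / v ^ 5) P → False := by
  obtain ⟨G, A, δ, B1, hG, hA, hδ, hB1, hrich⟩ := rich ε hε
  have hA0 : 0 < A := by linarith
  obtain ⟨B2, hB2, hflat⟩ := flat_exp (δ / A ^ 2) (by positivity)
  refine ⟨B1 + B2, by linarith, ?_⟩
  intro c v hc hc1 hv P hP hPN hcard hF
  have hc16 : 0 < c ^ 16 := by positivity
  have hc16' : c ^ 16 ≤ c ^ 2 := pow_le_pow_of_le_one hc.le hc1 (by norm_num)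
  have hc2 : c ^ 2 ≤ 1 := pow_le_one₀ hc.le hc1
  have hv1 : B1 / c ^ 2 ≤ v := by
    have h1 : B1 / c ^ 2 ≤ B1 / c ^ 16 := div_le_div_of_nonneg_left (by linarith) hc16 hc16'
    have h2 : B1 / c ^ 16 ≤ (B1 + B2) / c ^ 16 := div_le_div_of_nonneg_right (by linarith) hc16.le
    have h3 := Real.add_one_le_exp ((B1 + B2) / c ^ 16)
    linarith
  have hv2 : 1 ≤ v := by
    have h1 : 1 ≤ B1 / c ^ 2 := by
      rw [le_div_iff₀ (by positivity)]
      linarith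
    linarith
  have hv0 : 0 < v := by linarith
  obtain ⟨l0, L, hLP, hL, hLc⟩ := hrich c v hc hc1 hv1 P hP hPN hcard hF
  have hKN : v ^ 2 ≤ v ^ 5 := pow_le_pow_right₀ hv2 (by norm_num)
  obtain ⟨S, hS1, hS2, hS3, hS4, hS5⟩ := thin c G A (δ * c ^ 3) (v ^ 5) (v ^ 2) hc hc1 hG hA (by positivity)
    (one_le_pow₀ hv2) hKN P hPN hF l0 L hLP hL hLc
  refine hflat c hc hc1 (v ^ 2 / v ^ 5) (by positivity) ?_ S hS1 hS2 hS3 hS4 ?_
  · have h1 : v ^ 2 / v ^ 5 ≤ 1 / v := by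
      rw [div_le_div_iff₀ (by positivity) hv0]
      have : v ^ 3 ≤ v ^ 5 := pow_le_pow_right₀ hv2 (by norm_num)
      calc v ^ 2 * v = v ^ 3 := by ring
        _ ≤ v ^ 5 := this
        _ = 1 * v ^ 5 := by ring
    have h2 : 1 / v ≤ Real.exp (-((B1 + B2) / c ^ 16)) := by
      rw [Real.exp_neg, one_div]
      exact inv_anti₀ (Real.exp_pos _) hv
    have h3 : Real.exp (-((B1 + B2) / c ^ 16)) ≤ Real.exp (-(B2 / c ^ 16)) := by
      refine Real.exp_le_exp.2 (neg_le_neg ?_)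
      exact div_le_div_of_nonneg_right (by linarith) hc16.le
    linarith
  · refine le_trans (le_of_eq ?_) hS5
    ring

end

end Pool.Agent.Lib.MP_a768d2_coS
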