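import Pool.Agent.Lib.MP_a768d2_coS.Defs

/-!
# MP_a768d2_co, thin strips: Meas

Proof in words. `hk w (sv l z)` is, as a function of l, a constant times the indicator function of the closed set {l | |sv l z| ≤ w} (Measurable.ite with measurableSet_le; sv is continuous in l). gs is a finite sum.
intOn_mul: if w < 0 or w' < 0 or .. the product is 0 or bounded: |hk w s| ≤ |1 / (2 w)| and hk w (sv l z) ≠ 0 implies |z.2 - l.1 z.1 - l.2| ≤ w, so for l ∈ lines G (|l.1| ≤ G) we get |l.2| ≤ |z.2| + G |z.1| + |w| =: T.
So on lines G the function is bounded by a constant and vanishes outside the box Icc (-G) G ×ˢ Icc (-T) T of finite measure (e.g. Measure.integrableOn_of_bounded on the box, then IntegrableOn.of_forall_sdiff_eq_zero,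
or Integrable.mono' against the indicator function of the box times a constant). intOn_sq: expand (∑ z, (hk v - hk u)) ^ 2 = ∑ z, ∑ z', products (Finset.sum_mul_sum), finite sums of integrable functions.
-/

set_option autoImplicit false

namespace Pool.Agent.Lib.MP_a768d2_coS

noncomputable section

open Finset

open MeasureTheory

private theorem meas_sv (z : ℝ × ℝ) : Measurable fun l : ℝ × ℝ => |sv l z| := by
  have h : Continuous fun l : ℝ × ℝ => |sv l z| := by
    unfold sv
    fun_prop
  exact h.measurable

theorem measurable_hk_sv (w : ℝ) (z : ℝ × ℝ) : Measurable fun l : ℝ × ℝ => hk w (sv l z) := by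
  unfold hk
  exact Measurable.ite (measurableSet_le (meas_sv z) measurable_const) measurable_const
    measurable_const

theorem measurable_gs (B : Finset (ℝ × ℝ)) (w : ℝ) : Measurable (gs B w) := by
  unfold gs
  exact Finset.measurable_fun_sum B fun z _ => measurable_hk_sv w z

private theorem meas_abs_hk (w s : ℝ) : |hk w s| ≤ |1 / (2 * w)| := by
  unfold hk
  split_ifs
  · exact le_rfl
  · rw [abs_zero]; exact abs_nonneg _

private theorem meas_hk_ne (w s : ℝ) (h : hk w s ≠ 0) : |s| ≤ w := by
  unfold hk at h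
  by_contra hc
  rw [if_neg hc] at h
  exact h rfl

theorem intOn_mul (w w' G : ℝ) (z z' : ℝ × ℝ) :
    IntegrableOn (fun l : ℝ × ℝ => hk w (sv l z) * hk w' (sv l z')) (lines G) := by
  set T : ℝ := |z.2| + G * |z.1| + w with hT
  have hbox : IntegrableOn (fun l : ℝ × ℝ => hk w (sv l z) * hk w' (sv l z'))
      (Set.Icc (-G) G ×ˢ Set.Icc (-T) T) := by
    refine Measure.integrableOn_of_bounded (M := |1 / (2 * w)| * |1 / (2 * w')|) ?_ ?_ ?_
    · have hc : IsCompact (Set.Icc (-G) G ×ˢ Set.Icc (-T) T) := isCompact_Icc.prod isCompact_Icc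
      exact hc.measure_lt_top.ne
    · exact ((measurable_hk_sv w z).mul (measurable_hk_sv w' z')).aestronglyMeasurable
    · refine Filter.Eventually.of_forall fun l => ?_
      rw [Real.norm_eq_abs, abs_mul]
      exact mul_le_mul (meas_abs_hk w _) (meas_abs_hk w' _) (abs_nonneg _) (abs_nonneg _)
  refine hbox.of_forall_sdiff_eq_zero ?_ ?_
  · exact measurableSet_Icc.prod MeasurableSet.univ
  · rintro l ⟨hl, hl'⟩
    by_contra hne
    have h1 : hk w (sv l z) ≠ 0 := left_ne_zero_of_mul hne
    have h2 := meas_hk_ne w _ h1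
    apply hl'
    have hl1 : l.1 ∈ Set.Icc (-G) G := hl.1
    refine ⟨hl1, ?_⟩
    have h3 : |l.1| ≤ G := abs_le.mpr hl1
    have h4 : |l.1 * z.1| ≤ G * |z.1| := by
      rw [abs_mul]; exact mul_le_mul_of_nonneg_right h3 (abs_nonneg _)
    unfold sv at h2
    have h5 := abs_le.mp h2
    have h6 := abs_le.mp h4
    have h7 := neg_abs_le z.2
    have h8 := le_abs_self z.2
    constructor
    · rw [hT]; linarith
    · rw [hT]; linarith

theorem intOn_sq (B : Finset (ℝ × ℝ)) (v u G : ℝ) :
    IntegrableOn (fun l : ℝ × ℝ => (gs B v l - gs B u l) ^ 2) (lines G) := by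
  have h : ∀ a b : ℝ, IntegrableOn (fun l : ℝ × ℝ => gs B a l * gs B b l) (lines G) := by
    intro a b
    have e : (fun l : ℝ × ℝ => gs B a l * gs B b l) =
        fun l => ∑ z ∈ B, ∑ z' ∈ B, hk a (sv l z) * hk b (sv l z') := by
      funext l
      unfold gs
      rw [Finset.sum_mul_sum]
    rw [e]
    unfold IntegrableOn
    refine integrable_finsetSum _ fun z _ => ?_
    refine integrable_finsetSum _ fun z' _ => ?_
    exact intOn_mul a b G z z'
  have e : (fun l : ℝ × ℝ => (gs B v l - gs B u l) ^ 2) =
      fun l => (gs B v l * gs B v l - 2 * (gs B v l * gs B u l)) + gs B u l * gs B u l := by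
    funext l
    ring
  rw [e]
  exact ((h v v).sub ((h v u).const_mul 2)).add (h u u)

end

end Pool.Agent.Lib.MP_a768d2_coS
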