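import Pool.Agent.Lib.MP_a768d2_coS.Defs
import Pool.Agent.Lib.MP_a768d2_coS.Meas

/-!
# MP_a768d2_co, thin strips: Ker

Proof in words. Write om s = hk v s - hk u s, an integrable function with ∫ om = 0 and |om| ≤ hk v + hk u, om s = 0 for |s| > u. ∫ hk w = 1 for w > 0. dx = z.1 - z'.1, dy = z.2 - z'.2.
Key facts, for bounded integrable f1, f2 : ℝ → ℝ vanishing outside [-u, u]:
 (a) full plane: ∫ over all l = (m, t) of f1 (sv l z) * f2 (sv l z') = (∫ f1) (∫ f2) / |dx| if dx ≠ 0. (Fubini: for fixed m substitute t = z.2 - m z.1 - s, so sv l z = s and sv l z' = s - (dy - m dx);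
     exchange the integrals; for fixed s the integral over m of f2 (s - dy + m dx) is (∫ f2) / |dx|.)
 (b) ∫ l in lines G, hk w (sv l z) = 2 G for w > 0.
ip_zero: if om (sv l z) om (sv l z') ≠ 0 then |sv l z| ≤ u, |sv l z'| ≤ u, so |dy - m dx| ≤ 2 u, |m| |dx| ≤ |dy| + 2 u ≤ G |dx|, so |m| ≤ G: the integral over lines G is the integral over the plane, which is 0 by (a).
ip_zero': the integrand vanishes on lines G (|dy| ≤ |m| |dx| + 2 u otherwise).
ip_far: |ip| ≤ ∫ plane (hk v + hk u)(sv l z) (hk v + hk u)(sv l z') = 4 / |dx|.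
ip_le, ip_le': |ip| ≤ ∫ lines G of hk v * hk v + (three products with a factor hk u); a product with a factor hk u ≤ 1 / (2 u) has integral ≤ 2 G / (2 u) = G / u by (b). The integral of hk v (sv l z) * hk v (sv l z')
is ≤ 2 G / (2 v) = G / v, and ≤ 1 / |dx| by (a), and it is 0 unless |dy| ≤ G |dx| + 2 v.
-/

set_option autoImplicit false

namespace Pool.Agent.Lib.MP_a768d2_coS

noncomputable section

open Finset

open MeasureTheory

/-- the interaction of two points -/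
def ip (v u G : ℝ) (z z' : ℝ × ℝ) : ℝ :=
  ∫ l in lines G, (hk v (sv l z) - hk u (sv l z)) * (hk v (sv l z') - hk u (sv l z'))

/-- area of the preimage of a box under a linear map -/
private theorem ker_area (a b c d p p' r r' : ℝ) (hp : p ≤ p') (hr : r ≤ r')
    (hdet : a * d - b * c ≠ 0) :
    volume {l : ℝ × ℝ | (p ≤ a * l.1 + b * l.2 ∧ a * l.1 + b * l.2 ≤ p') ∧
      (r ≤ c * l.1 + d * l.2 ∧ c * l.1 + d * l.2 ≤ r')} =
      ENNReal.ofReal ((p' - p) * (r' - r) / |a * d - b * c|) := by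
  set f : ℝ × ℝ →ₗ[ℝ] ℝ × ℝ := Matrix.toLin (Module.Basis.finTwoProd ℝ) (Module.Basis.finTwoProd ℝ)
    !![a, b; c, d] with hf
  have hfd : LinearMap.det f = a * d - b * c := by
    rw [hf, LinearMap.det_toLin, Matrix.det_fin_two_of]
  have hset : {l : ℝ × ℝ | (p ≤ a * l.1 + b * l.2 ∧ a * l.1 + b * l.2 ≤ p') ∧
      (r ≤ c * l.1 + d * l.2 ∧ c * l.1 + d * l.2 ≤ r')} =
      f ⁻¹' (Set.Icc p p' ×ˢ Set.Icc r r') := by
    ext l
    simp only [Set.mem_ofPred_eq, Set.mem_preimage, hf, Matrix.toLin_finTwoProd_apply,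
      Set.mem_prod, Set.mem_Icc]
  rw [hset, Measure.addHaar_preimage_linearMap volume (by rw [hfd]; exact hdet), hfd,
    Measure.volume_eq_prod, Measure.prod_prod, Real.volume_Icc, Real.volume_Icc,
    ← ENNReal.ofReal_mul (by linarith), ← ENNReal.ofReal_mul (abs_nonneg _)]
  congr 1
  rw [abs_inv]
  field_simp

private theorem ker_sv (l z : ℝ × ℝ) (w : ℝ) : |sv l z| ≤ w ↔
    (-w - z.2 ≤ -z.1 * l.1 + -1 * l.2 ∧ -z.1 * l.1 + -1 * l.2 ≤ w - z.2) := by
  rw [abs_le, sv]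
  constructor
  · rintro ⟨h1, h2⟩
    exact ⟨by linarith, by linarith⟩
  · rintro ⟨h1, h2⟩
    exact ⟨by linarith, by linarith⟩

/-- the set of lines near both points -/
private def ker_P (w w' : ℝ) (z z' : ℝ × ℝ) : Set (ℝ × ℝ) :=
  {l | |sv l z| ≤ w ∧ |sv l z'| ≤ w'}

private theorem ker_P_vol {w w' : ℝ} {z z' : ℝ × ℝ} (hw : 0 < w) (hw' : 0 < w')
    (h : z.1 ≠ z'.1) : volume (ker_P w w' z z') = ENNReal.ofReal (4 * w * w' / |z.1 - z'.1|) := by
  have h1 : ker_P w w' z z' = {l : ℝ × ℝ |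
      (-w - z.2 ≤ -z.1 * l.1 + -1 * l.2 ∧ -z.1 * l.1 + -1 * l.2 ≤ w - z.2) ∧
      (-w' - z'.2 ≤ -z'.1 * l.1 + -1 * l.2 ∧ -z'.1 * l.1 + -1 * l.2 ≤ w' - z'.2)} := by
    ext l
    exact and_congr (ker_sv l z w) (ker_sv l z' w')
  rw [h1, ker_area (-z.1) (-1) (-z'.1) (-1) _ _ _ _ (by linarith) (by linarith)
    (by
      intro h0
      apply h
      linarith)]
  congr 1
  have h2 : -z.1 * -1 - -1 * -z'.1 = z.1 - z'.1 := by ring
  rw [h2]
  ring

private theorem ker_strip_vol {w G : ℝ} {z : ℝ × ℝ} (hw : 0 < w) (hG : 0 < G) :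
    volume ({l : ℝ × ℝ | |sv l z| ≤ w} ∩ lines G) = ENNReal.ofReal (4 * w * G) := by
  have h1 : {l : ℝ × ℝ | |sv l z| ≤ w} ∩ lines G = {l : ℝ × ℝ |
      (-G ≤ 1 * l.1 + 0 * l.2 ∧ 1 * l.1 + 0 * l.2 ≤ G) ∧
      (-w - z.2 ≤ -z.1 * l.1 + -1 * l.2 ∧ -z.1 * l.1 + -1 * l.2 ≤ w - z.2)} := by
    ext l
    rw [Set.mem_inter_iff, Set.mem_ofPred_eq, Set.mem_ofPred_eq, ker_sv l z w, lines,
      Set.mem_prod, Set.mem_Icc]
    simp only [Set.mem_univ, and_true, one_mul, zero_mul, add_zero]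
    exact and_comm
  rw [h1, ker_area 1 0 (-z.1) (-1) _ _ _ _ (by linarith) (by linarith) (by norm_num)]
  congr 1
  have h2 : (1 : ℝ) * -1 - 0 * -z.1 = -1 := by ring
  rw [h2, abs_neg, abs_one]
  ring

private theorem ker_sv_meas (z : ℝ × ℝ) : Measurable fun l : ℝ × ℝ => |sv l z| := by
  unfold sv
  fun_prop

private theorem ker_P_meas (w w' : ℝ) (z z' : ℝ × ℝ) : MeasurableSet (ker_P w w' z z') :=
  (measurableSet_le (ker_sv_meas z) measurable_const).inter
    (measurableSet_le (ker_sv_meas z') measurable_const)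

/-- the integral of a product -/
private theorem ker_I (w w' G : ℝ) (z z' : ℝ × ℝ) :
    ∫ l in lines G, hk w (sv l z) * hk w' (sv l z') =
      volume.real (ker_P w w' z z' ∩ lines G) * (1 / (2 * w) * (1 / (2 * w'))) := by
  have h1 : (fun l : ℝ × ℝ => hk w (sv l z) * hk w' (sv l z')) =
      (ker_P w w' z z').indicator fun _ => 1 / (2 * w) * (1 / (2 * w')) := by
    funext l
    unfold hk
    by_cases ha : |sv l z| ≤ w
    · by_cases hb : |sv l z'| ≤ w'
      · rw [Set.indicator_of_mem (show l ∈ ker_P w w' z z' from ⟨ha, hb⟩), if_pos ha, if_pos hb]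
      · rw [Set.indicator_of_notMem (fun h : l ∈ ker_P w w' z z' => hb h.2), if_neg hb, mul_zero]
    · rw [Set.indicator_of_notMem (fun h : l ∈ ker_P w w' z z' => ha h.1), if_neg ha, zero_mul]
  rw [h1, integral_indicator_const _ (ker_P_meas w w' z z'),
    measureReal_restrict_apply (ker_P_meas w w' z z'), smul_eq_mul]

private theorem ker_ip (v u G : ℝ) (z z' : ℝ × ℝ) : ip v u G z z' =
    ((∫ l in lines G, hk v (sv l z) * hk v (sv l z')) -
      ∫ l in lines G, hk v (sv l z) * hk u (sv l z')) -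
    ((∫ l in lines G, hk u (sv l z) * hk v (sv l z')) -
      ∫ l in lines G, hk u (sv l z) * hk u (sv l z')) := by
  have hA : IntegrableOn (fun l : ℝ × ℝ => hk v (sv l z) * hk v (sv l z') -
      hk v (sv l z) * hk u (sv l z')) (lines G) :=
    (intOn_mul v v G z z').sub (intOn_mul v u G z z')
  have hB : IntegrableOn (fun l : ℝ × ℝ => hk u (sv l z) * hk v (sv l z') -
      hk u (sv l z) * hk u (sv l z')) (lines G) :=
    (intOn_mul u v G z z').sub (intOn_mul u u G z z')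
  rw [← integral_sub (intOn_mul v v G z z') (intOn_mul v u G z z'),
    ← integral_sub (intOn_mul u v G z z') (intOn_mul u u G z z'), ← integral_sub hA hB, ip]
  refine integral_congr_ae (Filter.Eventually.of_forall fun l => ?_)
  show _ = _
  ring

private theorem ker_nonneg {w w' : ℝ} (hw : 0 < w) (hw' : 0 < w') (G : ℝ) (z z' : ℝ × ℝ) :
    0 ≤ ∫ l in lines G, hk w (sv l z) * hk w' (sv l z') :=
  integral_nonneg fun _ => mul_nonneg (hk_nonneg _ _ hw) (hk_nonneg _ _ hw')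

private theorem ker_le_dx {w w' : ℝ} (hw : 0 < w) (hw' : 0 < w') (G : ℝ) {z z' : ℝ × ℝ}
    (h : z.1 ≠ z'.1) : ∫ l in lines G, hk w (sv l z) * hk w' (sv l z') ≤ 1 / |z.1 - z'.1| := by
  have hdx : 0 < |z.1 - z'.1| := abs_pos.2 (sub_ne_zero.2 h)
  have hv := ker_P_vol hw hw' h
  have h1 : volume.real (ker_P w w' z z' ∩ lines G) ≤ 4 * w * w' / |z.1 - z'.1| := by
    have h2 : volume (ker_P w w' z z' ∩ lines G) ≤ ENNReal.ofReal (4 * w * w' / |z.1 - z'.1|) := by
      rw [← hv]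
      exact measure_mono Set.inter_subset_left
    exact ENNReal.toReal_le_of_le_ofReal (by positivity) h2
  rw [ker_I]
  calc volume.real (ker_P w w' z z' ∩ lines G) * (1 / (2 * w) * (1 / (2 * w'))) ≤
        4 * w * w' / |z.1 - z'.1| * (1 / (2 * w) * (1 / (2 * w'))) :=
        mul_le_mul_of_nonneg_right h1 (by positivity)
    _ = 1 / |z.1 - z'.1| := by
        field_simp
        ring

private theorem ker_eq_dx {w w' u G : ℝ} (hw : 0 < w) (hw' : 0 < w') (hwu : w ≤ u)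
    (hwu' : w' ≤ u) {z z' : ℝ × ℝ} (h : z.1 ≠ z'.1)
    (h2 : |z.2 - z'.2| + 2 * u ≤ G * |z.1 - z'.1|) :
    ∫ l in lines G, hk w (sv l z) * hk w' (sv l z') = 1 / |z.1 - z'.1| := by
  have hdx : 0 < |z.1 - z'.1| := abs_pos.2 (sub_ne_zero.2 h)
  have hv := ker_P_vol hw hw' h
  have hsub : ker_P w w' z z' ⊆ lines G := by
    rintro l ⟨ha, hb⟩
    refine ⟨?_, Set.mem_univ _⟩
    have h3 : |l.1| * |z.1 - z'.1| ≤ |z.2 - z'.2| + 2 * u := by
      rw [← abs_mul]
      have h4 : l.1 * (z.1 - z'.1) = (z.2 - z'.2) - (sv l z - sv l z') := by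
        unfold sv
        ring
      rw [h4]
      refine (abs_sub _ _).trans ?_
      have h5 : |sv l z - sv l z'| ≤ |sv l z| + |sv l z'| := abs_sub _ _
      linarith
    have h6 : |l.1| ≤ G := le_of_mul_le_mul_right (h3.trans h2) hdx
    exact abs_le.1 h6
  rw [ker_I, Set.inter_eq_self_of_subset_left hsub, Measure.real, hv,
    ENNReal.toReal_ofReal (by positivity)]
  field_simp
  ring

/-- one factor is bounded, first point -/
private theorem ker_le_fst {w w' G : ℝ} (hw : 0 < w) (hw' : 0 < w') (hG : 0 < G)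
    (z z' : ℝ × ℝ) : ∫ l in lines G, hk w (sv l z) * hk w' (sv l z') ≤ G / w' := by
  have h1 : volume.real (ker_P w w' z z' ∩ lines G) ≤ 4 * w * G := by
    have h2 : volume (ker_P w w' z z' ∩ lines G) ≤ ENNReal.ofReal (4 * w * G) := by
      rw [← ker_strip_vol (z := z) hw hG]
      exact measure_mono (Set.inter_subset_inter_left _ fun l hl => hl.1)
    exact ENNReal.toReal_le_of_le_ofReal (by positivity) h2
  rw [ker_I]
  calc volume.real (ker_P w w' z z' ∩ lines G) * (1 / (2 * w) * (1 / (2 * w'))) ≤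
        4 * w * G * (1 / (2 * w) * (1 / (2 * w'))) :=
        mul_le_mul_of_nonneg_right h1 (by positivity)
    _ = G / w' := by
        field_simp
        ring

/-- one factor is bounded, second point -/
private theorem ker_le_snd {w w' G : ℝ} (hw : 0 < w) (hw' : 0 < w') (hG : 0 < G)
    (z z' : ℝ × ℝ) : ∫ l in lines G, hk w (sv l z) * hk w' (sv l z') ≤ G / w := by
  have h1 : ∫ l in lines G, hk w (sv l z) * hk w' (sv l z') =
      ∫ l in lines G, hk w' (sv l z') * hk w (sv l z) := by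
    refine integral_congr_ae (Filter.Eventually.of_forall fun l => ?_)
    exact mul_comm _ _
  rw [h1]
  exact ker_le_fst hw' hw hG z' z

/-- the supports are disjoint -/
private theorem ker_far {w w' u G : ℝ} (hwu : w ≤ u) (hwu' : w' ≤ u) {z z' : ℝ × ℝ}
    (h2 : G * |z.1 - z'.1| + 2 * u < |z.2 - z'.2|) :
    ∫ l in lines G, hk w (sv l z) * hk w' (sv l z') = 0 := by
  have hemp : ker_P w w' z z' ∩ lines G = ∅ := by
    rw [Set.eq_empty_iff_forall_notMem]
    rintro l ⟨⟨ha, hb⟩, hl⟩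
    have hl1 : |l.1| ≤ G := abs_le.2 hl.1
    have h4 : z.2 - z'.2 = l.1 * (z.1 - z'.1) + (sv l z - sv l z') := by
      unfold sv
      ring
    have h5 : |z.2 - z'.2| ≤ |l.1| * |z.1 - z'.1| + (|sv l z| + |sv l z'|) := by
      rw [h4, ← abs_mul]
      refine (abs_add_le _ _).trans ?_
      have : |sv l z - sv l z'| ≤ |sv l z| + |sv l z'| := abs_sub _ _
      linarith
    have h6 : |l.1| * |z.1 - z'.1| ≤ G * |z.1 - z'.1| :=
      mul_le_mul_of_nonneg_right hl1 (abs_nonneg _)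
    linarith
  rw [ker_I, hemp]
  simp

/-- exact cancellation -/
theorem ip_zero (v u G : ℝ) (z z' : ℝ × ℝ) (hv : 0 < v) (hvu : v ≤ u) (hG : 0 < G) (h : z.1 ≠ z'.1)
    (h2 : |z.2 - z'.2| + 2 * u ≤ G * |z.1 - z'.1|) : ip v u G z z' = 0 := by
  have hu : 0 < u := hv.trans_le hvu
  rw [ker_ip, ker_eq_dx hv hv hvu hvu h h2, ker_eq_dx hv hu hvu le_rfl h h2,
    ker_eq_dx hu hv le_rfl hvu h h2, ker_eq_dx hu hu le_rfl le_rfl h h2]
  ring

theorem ip_zero' (v u G : ℝ) (z z' : ℝ × ℝ) (hv : 0 < v) (hvu : v ≤ u) (hG : 0 < G)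
    (h2 : G * |z.1 - z'.1| + 2 * u < |z.2 - z'.2|) : ip v u G z z' = 0 := by
  rw [ker_ip, ker_far hvu hvu h2, ker_far hvu le_rfl h2, ker_far le_rfl hvu h2,
    ker_far le_rfl le_rfl h2]
  ring

theorem ip_le (v u G : ℝ) (z z' : ℝ × ℝ) (hv : 0 < v) (hvu : v ≤ u) (hG : 0 < G) :
    |ip v u G z z'| ≤ (if |z.2 - z'.2| ≤ G * |z.1 - z'.1| + 2 * v then G / v else 0) + 3 * G / u := by
  have hu : 0 < u := hv.trans_le hvu
  have h1 : (∫ l in lines G, hk v (sv l z) * hk v (sv l z')) ≤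
      if |z.2 - z'.2| ≤ G * |z.1 - z'.1| + 2 * v then G / v else 0 := by
    split_ifs with hc
    · exact ker_le_fst hv hv hG z z'
    · rw [ker_far le_rfl le_rfl (not_le.1 hc)]
  have h2 := ker_le_fst hv hu hG z z'
  have h3 := ker_le_snd hu hv hG z z'
  have h4 := ker_le_fst hu hu hG z z'
  have n1 := ker_nonneg hv hv G z z'
  have n2 := ker_nonneg hv hu G z z'
  have n3 := ker_nonneg hu hv G z z'
  have n4 := ker_nonneg hu hu G z z'
  have h5 : 3 * G / u = G / u + G / u + G / u := by ring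
  rw [ker_ip, h5, abs_le]
  constructor <;> linarith

theorem ip_le' (v u G : ℝ) (z z' : ℝ × ℝ) (hv : 0 < v) (hvu : v ≤ u) (hG : 0 < G) (h : z.1 ≠ z'.1) :
    |ip v u G z z'| ≤
      (if |z.2 - z'.2| ≤ G * |z.1 - z'.1| + 2 * v then 1 / |z.1 - z'.1| else 0) + 3 * G / u := by
  have hu : 0 < u := hv.trans_le hvu
  have h1 : (∫ l in lines G, hk v (sv l z) * hk v (sv l z')) ≤
      if |z.2 - z'.2| ≤ G * |z.1 - z'.1| + 2 * v then 1 / |z.1 - z'.1| else 0 := by
    split_ifs with hc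
    · exact ker_le_dx hv hv G h
    · rw [ker_far le_rfl le_rfl (not_le.1 hc)]
  have h2 := ker_le_fst hv hu hG z z'
  have h3 := ker_le_snd hu hv hG z z'
  have h4 := ker_le_fst hu hu hG z z'
  have n1 := ker_nonneg hv hv G z z'
  have n2 := ker_nonneg hv hu G z z'
  have n3 := ker_nonneg hu hv G z z'
  have n4 := ker_nonneg hu hu G z z'
  have h5 : 3 * G / u = G / u + G / u + G / u := by ring
  rw [ker_ip, h5, abs_le]
  constructor <;> linarith

theorem ip_far (v u G : ℝ) (z z' : ℝ × ℝ) (hv : 0 < v) (hvu : v ≤ u) (hG : 0 < G) (h : z.1 ≠ z'.1) :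
    |ip v u G z z'| ≤ 4 / |z.1 - z'.1| := by
  have hu : 0 < u := hv.trans_le hvu
  have h1 := ker_le_dx hv hv G h
  have h2 := ker_le_dx hv hu G h
  have h3 := ker_le_dx hu hv G h
  have h4 := ker_le_dx hu hu G h
  have n1 := ker_nonneg hv hv G z z'
  have n2 := ker_nonneg hv hu G z z'
  have n3 := ker_nonneg hu hv G z z'
  have n4 := ker_nonneg hu hu G z z'
  have h5 : 4 / |z.1 - z'.1| = 1 / |z.1 - z'.1| + 1 / |z.1 - z'.1| + 1 / |z.1 - z'.1| +
      1 / |z.1 - z'.1| := by ring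
  rw [ker_ip, h5, abs_le]
  constructor <;> linarith

end

end Pool.Agent.Lib.MP_a768d2_coS
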