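import Pool.Agent.Lib.MP_a768d2_coS.Defs
import Pool.Agent.Lib.MP_a768d2_coS.Cnt
import Pool.Agent.Lib.MP_a768d2_coS.Ker

/-!
# MP_a768d2_co, thin strips: Schur

Proof in words. C0 from `cnt ε G`. Fix z; write dx = z.1 - z'.1, dy = z.2 - z'.2. The interaction is at most the sum of four terms:
D1 (|dx| ≤ u, |dy| ≤ (G + 2) u): 3 G / u; D2 (|dx| < 1, |dy| ≤ G |dx| + 2 v): G / v; D3 (1 ≤ |dx| ≤ u, |dy| ≤ G |dx| + 2 v): 1 / |dx|;
D4 (u < |dx|, | |dy| - G |dx| | ≤ 2 u): 4 / |dx|. D1 and D2 are counted by one box, D3 and D4 by shells of width 1, resp. u (two, resp. four boxes for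
every shell), with the harmonic sum.
-/

set_option autoImplicit false

namespace Pool.Agent.Lib.MP_a768d2_coS

noncomputable section

open Finset

private theorem schur_harm (y : ℝ) (hy : 1 ≤ y) :
    ∑ k ∈ Finset.Icc 1 ⌊y⌋₊, (1 : ℝ) / (k : ℝ) ≤ 1 + Real.log y := by
  have h := harmonic_floor_le_one_add_log y hy
  rw [harmonic_eq_sum_Icc] at h
  push_cast at h
  refine le_trans (le_of_eq ?_) h
  refine Finset.sum_congr rfl fun k _ => ?_
  rw [one_div]

private theorem schur_shell {ι : Type} (S : Finset ι) (key : ι → ℕ) (f : ι → ℝ) (y a b c : ℝ) (hy : 1 ≤ y)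
    (ha : 0 ≤ a) (hb : 0 ≤ b) (hc : 0 ≤ c) (hk : ∀ z ∈ S, 1 ≤ key z ∧ key z ≤ ⌊y⌋₊)
    (hf : ∀ z ∈ S, f z ≤ c / (key z : ℝ))
    (hn : ∀ k : ℕ, 1 ≤ k → ((S.filter fun z => key z = k).card : ℝ) ≤ a * k + b) :
    ∑ z ∈ S, f z ≤ c * (a * y + b * (1 + Real.log y)) := by
  classical
  have h1 : ∑ z ∈ S, f z = ∑ k ∈ Finset.Icc 1 ⌊y⌋₊, ∑ z ∈ S.filter (fun z => key z = k), f z := by
    rw [Finset.sum_fiberwise_of_maps_to]
    intro z hz
    rw [Finset.mem_Icc]
    exact hk z hz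
  have h2 : ∀ k ∈ Finset.Icc 1 ⌊y⌋₊, ∑ z ∈ S.filter (fun z => key z = k), f z ≤ c * a + c * b * (1 / (k : ℝ)) := by
    intro k hk'
    rw [Finset.mem_Icc] at hk'
    have hk0 : (0 : ℝ) < (k : ℝ) := by exact_mod_cast hk'.1
    have h3 : ∑ z ∈ S.filter (fun z => key z = k), f z ≤ ∑ z ∈ S.filter (fun z => key z = k), c / (k : ℝ) := by
      refine Finset.sum_le_sum fun z hz => ?_
      rw [Finset.mem_filter] at hz
      have := hf z hz.1
      rw [hz.2] at this
      exact this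
    rw [Finset.sum_const, nsmul_eq_mul] at h3
    refine h3.trans ?_
    have h4 := hn k hk'.1
    have h5 : ((S.filter fun z => key z = k).card : ℝ) * (c / (k : ℝ)) ≤ (a * k + b) * (c / (k : ℝ)) :=
      mul_le_mul_of_nonneg_right h4 (div_nonneg hc hk0.le)
    refine h5.trans (le_of_eq ?_)
    field_simp
  have h3 : (∑ k ∈ Finset.Icc 1 ⌊y⌋₊, (c * a + c * b * (1 / (k : ℝ)))) ≤ c * a * y + c * b * (1 + Real.log y) := by
    rw [Finset.sum_add_distrib, Finset.sum_const, nsmul_eq_mul, ← Finset.mul_sum, Nat.card_Icc]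
    have h4 : ((⌊y⌋₊ + 1 - 1 : ℕ) : ℝ) ≤ y := by
      rw [Nat.add_sub_cancel]
      exact Nat.floor_le (by linarith)
    have h5 := mul_le_mul_of_nonneg_right h4 (mul_nonneg hc ha)
    have h6 := mul_le_mul_of_nonneg_left (schur_harm y hy) (mul_nonneg hc hb)
    linarith
  rw [h1]
  refine (Finset.sum_le_sum h2).trans (h3.trans (le_of_eq ?_))
  ring

private theorem schur_box (ε G C0 : ℝ)
    (hC : ∀ P : Finset (ℝ × ℝ), Sep ε P → ∀ m a t A B : ℝ, |m| ≤ G → 0 ≤ A → 0 ≤ B →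
      ((P.filter fun z => (a ≤ z.1 ∧ z.1 ≤ a + A) ∧ t ≤ z.2 - m * z.1 ∧ z.2 - m * z.1 ≤ t + B).card : ℝ) ≤
        C0 * (1 + A) * (1 + B))
    (B : Finset (ℝ × ℝ)) (hB : Sep ε B) (z : ℝ × ℝ) (m α A H : ℝ) (hm : |m| ≤ G) (hA : 0 ≤ A) (hH : 0 ≤ H) :
    ((B.filter fun z' => (α ≤ z.1 - z'.1 ∧ z.1 - z'.1 ≤ α + A) ∧
      |z.2 - z'.2 - m * (z.1 - z'.1)| ≤ H).card : ℝ) ≤ C0 * (1 + A) * (1 + 2 * H) := by
  have h := hC B hB m (z.1 - α - A) (z.2 - m * z.1 - H) A (2 * H) hm hA (by linarith)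
  refine le_trans ?_ h
  have hs : (B.filter fun z' => (α ≤ z.1 - z'.1 ∧ z.1 - z'.1 ≤ α + A) ∧ |z.2 - z'.2 - m * (z.1 - z'.1)| ≤ H) ⊆
      (B.filter fun z' => (z.1 - α - A ≤ z'.1 ∧ z'.1 ≤ z.1 - α - A + A) ∧
        z.2 - m * z.1 - H ≤ z'.2 - m * z'.1 ∧ z'.2 - m * z'.1 ≤ z.2 - m * z.1 - H + 2 * H) := by
    intro z' hz'
    rw [Finset.mem_filter] at hz' ⊢
    obtain ⟨h1, ⟨h2, h3⟩, h4⟩ := hz'
    rw [abs_le] at h4
    obtain ⟨h5, h6⟩ := h4
    refine ⟨h1, ⟨by linarith, by linarith⟩, by linarith, by linarith⟩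
  exact_mod_cast Finset.card_le_card hs

theorem schur (ε G : ℝ) (hε : 0 < ε) (hG : 1 ≤ G) : ∃ C : ℝ, 0 < C ∧
    ∀ B : Finset (ℝ × ℝ), Sep ε B → ∀ R v u : ℝ, 0 < v → v ≤ u → 1 ≤ u → 0 ≤ R →
      ∀ z ∈ B, (∀ z' ∈ B, |z.1 - z'.1| ≤ R) →
        ∑ z' ∈ B, |ip v u G z z'| ≤
          C * (1 / v + (1 + v) * (1 + Real.log u) + u * (1 + Real.log (1 + R / u))) := by
  obtain ⟨C0, hC0, hC⟩ := cnt ε G hε (by linarith)
  have hG0 : 0 < G := by linarith
  have hC0' : 0 < C0 := by linarith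
  refine ⟨C0 * (9 * G * (2 * G + 5) + 20 * G + 160 + 3 * G * (1 + 2 * G) + 4 * (5 + 2 * G)), by positivity, ?_⟩
  intro B hB R v u hv hvu hu hR z hz hzR
  have hu0 : 0 < u := by linarith
  classical
  -- the four terms
  have hpt : ∀ z' ∈ B, |ip v u G z z'| ≤
      (if |z.1 - z'.1| ≤ u ∧ |z.2 - z'.2| ≤ (G + 2) * u then 3 * G / u else 0) +
      (if |z.1 - z'.1| < 1 ∧ |z.2 - z'.2| ≤ G * |z.1 - z'.1| + 2 * v then G / v else 0) +
      (if (1 ≤ |z.1 - z'.1| ∧ |z.1 - z'.1| ≤ u) ∧ |z.2 - z'.2| ≤ G * |z.1 - z'.1| + 2 * v then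
        1 / |z.1 - z'.1| else 0) +
      (if u < |z.1 - z'.1| ∧ |z.2 - z'.2| ≤ G * |z.1 - z'.1| + 2 * u ∧
        G * |z.1 - z'.1| ≤ |z.2 - z'.2| + 2 * u then 4 / |z.1 - z'.1| else 0) := by
    intro z' _
    have n1 : 0 ≤ (if |z.1 - z'.1| ≤ u ∧ |z.2 - z'.2| ≤ (G + 2) * u then 3 * G / u else 0) := by
      split_ifs
      · positivity
      · exact le_rfl
    have n2 : 0 ≤ (if |z.1 - z'.1| < 1 ∧ |z.2 - z'.2| ≤ G * |z.1 - z'.1| + 2 * v then G / v else 0) := by
      split_ifs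
      · positivity
      · exact le_rfl
    have n3 : 0 ≤ (if (1 ≤ |z.1 - z'.1| ∧ |z.1 - z'.1| ≤ u) ∧ |z.2 - z'.2| ≤ G * |z.1 - z'.1| + 2 * v then
        1 / |z.1 - z'.1| else 0) := by
      split_ifs
      · positivity
      · exact le_rfl
    have n4 : 0 ≤ (if u < |z.1 - z'.1| ∧ |z.2 - z'.2| ≤ G * |z.1 - z'.1| + 2 * u ∧
        G * |z.1 - z'.1| ≤ |z.2 - z'.2| + 2 * u then 4 / |z.1 - z'.1| else 0) := by
      split_ifs
      · positivity
      · exact le_rfl
    by_cases hx : |z.1 - z'.1| ≤ u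
    · by_cases hy : |z.2 - z'.2| ≤ (G + 2) * u
      · have e1 : (if |z.1 - z'.1| ≤ u ∧ |z.2 - z'.2| ≤ (G + 2) * u then 3 * G / u else 0) = 3 * G / u :=
          if_pos ⟨hx, hy⟩
        by_cases hx1 : |z.1 - z'.1| < 1
        · have h := ip_le v u G z z' hv hvu hG0
          have e2 : (if |z.1 - z'.1| < 1 ∧ |z.2 - z'.2| ≤ G * |z.1 - z'.1| + 2 * v then G / v else 0) =
              (if |z.2 - z'.2| ≤ G * |z.1 - z'.1| + 2 * v then G / v else 0) := by
            by_cases h3 : |z.2 - z'.2| ≤ G * |z.1 - z'.1| + 2 * v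
            · rw [if_pos ⟨hx1, h3⟩, if_pos h3]
            · rw [if_neg fun h4 => h3 h4.2, if_neg h3]
          rw [e1]
          rw [e2] at n2 ⊢
          linarith
        · rw [not_lt] at hx1
          have hne : z.1 ≠ z'.1 := by
            intro h0
            rw [h0, sub_self, abs_zero] at hx1
            linarith
          have h := ip_le' v u G z z' hv hvu hG0 hne
          have e3 : (if (1 ≤ |z.1 - z'.1| ∧ |z.1 - z'.1| ≤ u) ∧ |z.2 - z'.2| ≤ G * |z.1 - z'.1| + 2 * v then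
              1 / |z.1 - z'.1| else 0) =
              (if |z.2 - z'.2| ≤ G * |z.1 - z'.1| + 2 * v then 1 / |z.1 - z'.1| else 0) := by
            by_cases h3 : |z.2 - z'.2| ≤ G * |z.1 - z'.1| + 2 * v
            · rw [if_pos ⟨⟨hx1, hx⟩, h3⟩, if_pos h3]
            · rw [if_neg fun h4 => h3 h4.2, if_neg h3]
          rw [e1]
          rw [e3] at n3 ⊢
          linarith
      · have h0 : ip v u G z z' = 0 := by
          refine ip_zero' v u G z z' hv hvu hG0 ?_
          rw [not_le] at hy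
          have := mul_le_mul_of_nonneg_left hx hG0.le
          nlinarith
        rw [h0, abs_zero]
        linarith
    · rw [not_le] at hx
      have hne : z.1 ≠ z'.1 := by
        intro h0
        rw [h0, sub_self, abs_zero] at hx
        linarith
      by_cases h1 : |z.2 - z'.2| ≤ G * |z.1 - z'.1| + 2 * u
      · by_cases h2 : G * |z.1 - z'.1| ≤ |z.2 - z'.2| + 2 * u
        · have e4 : (if u < |z.1 - z'.1| ∧ |z.2 - z'.2| ≤ G * |z.1 - z'.1| + 2 * u ∧
              G * |z.1 - z'.1| ≤ |z.2 - z'.2| + 2 * u then 4 / |z.1 - z'.1| else 0) = 4 / |z.1 - z'.1| :=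
            if_pos ⟨hx, h1, h2⟩
          have h := ip_far v u G z z' hv hvu hG0 hne
          rw [e4]
          linarith
        · rw [not_le] at h2
          rw [ip_zero v u G z z' hv hvu hG0 hne h2.le, abs_zero]
          linarith
      · rw [not_le] at h1
        rw [ip_zero' v u G z z' hv hvu hG0 h1, abs_zero]
        linarith
  have hsum := Finset.sum_le_sum hpt
  rw [Finset.sum_add_distrib, Finset.sum_add_distrib, Finset.sum_add_distrib, ← Finset.sum_filter,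
    ← Finset.sum_filter, ← Finset.sum_filter, ← Finset.sum_filter, Finset.sum_const, Finset.sum_const,
    nsmul_eq_mul, nsmul_eq_mul] at hsum
  -- D1
  have c1 : ((B.filter fun z' => |z.1 - z'.1| ≤ u ∧ |z.2 - z'.2| ≤ (G + 2) * u).card : ℝ) ≤
      C0 * (1 + 2 * u) * (1 + 2 * ((G + 2) * u)) := by
    refine le_trans ?_ (schur_box ε G C0 hC B hB z 0 (-u) (2 * u) ((G + 2) * u) (by rw [abs_zero]; linarith)
      (by linarith) (by positivity))
    have hs : (B.filter fun z' => |z.1 - z'.1| ≤ u ∧ |z.2 - z'.2| ≤ (G + 2) * u) ⊆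
        (B.filter fun z' => (-u ≤ z.1 - z'.1 ∧ z.1 - z'.1 ≤ -u + 2 * u) ∧
          |z.2 - z'.2 - 0 * (z.1 - z'.1)| ≤ (G + 2) * u) := by
      intro z' hz'
      rw [Finset.mem_filter] at hz' ⊢
      obtain ⟨h1, h2, h3⟩ := hz'
      rw [abs_le] at h2
      refine ⟨h1, ⟨h2.1, by linarith [h2.2]⟩, ?_⟩
      rw [zero_mul, sub_zero]
      exact h3
    exact_mod_cast Finset.card_le_card hs
  have b1 : ((B.filter fun z' => |z.1 - z'.1| ≤ u ∧ |z.2 - z'.2| ≤ (G + 2) * u).card : ℝ) * (3 * G / u) ≤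
      C0 * (9 * G * (2 * G + 5)) * u := by
    have h1 : C0 * (1 + 2 * u) * (1 + 2 * ((G + 2) * u)) ≤ C0 * (3 * u) * ((2 * G + 5) * u) := by
      refine mul_le_mul (mul_le_mul_of_nonneg_left (by linarith) hC0'.le) (by nlinarith) (by positivity)
        (by positivity)
    have h2 := mul_le_mul_of_nonneg_right (c1.trans h1) (show 0 ≤ 3 * G / u by positivity)
    refine h2.trans (le_of_eq ?_)
    field_simp
    ring
  -- D2
  have c2 : ((B.filter fun z' => |z.1 - z'.1| < 1 ∧ |z.2 - z'.2| ≤ G * |z.1 - z'.1| + 2 * v).card : ℝ) ≤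
      C0 * (1 + 2) * (1 + 2 * (G + 2 * v)) := by
    refine le_trans ?_ (schur_box ε G C0 hC B hB z 0 (-1) 2 (G + 2 * v) (by rw [abs_zero]; linarith)
      (by norm_num) (by positivity))
    have hs : (B.filter fun z' => |z.1 - z'.1| < 1 ∧ |z.2 - z'.2| ≤ G * |z.1 - z'.1| + 2 * v) ⊆
        (B.filter fun z' => (-1 ≤ z.1 - z'.1 ∧ z.1 - z'.1 ≤ -1 + 2) ∧
          |z.2 - z'.2 - 0 * (z.1 - z'.1)| ≤ G + 2 * v) := by
      intro z' hz'
      rw [Finset.mem_filter] at hz' ⊢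
      obtain ⟨h1, h2, h3⟩ := hz'
      have h4 := abs_le.mp h2.le
      refine ⟨h1, ⟨h4.1, by linarith [h4.2]⟩, ?_⟩
      rw [zero_mul, sub_zero]
      have := mul_le_mul_of_nonneg_left h2.le hG0.le
      linarith
    exact_mod_cast Finset.card_le_card hs
  have b2 : ((B.filter fun z' => |z.1 - z'.1| < 1 ∧ |z.2 - z'.2| ≤ G * |z.1 - z'.1| + 2 * v).card : ℝ) *
      (G / v) ≤ C0 * (3 * G * (1 + 2 * G)) * (1 / v) + C0 * (12 * G) := by
    have h2 := mul_le_mul_of_nonneg_right c2 (show 0 ≤ G / v by positivity)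
    refine h2.trans (le_of_eq ?_)
    field_simp
    ring
  -- D3
  have b3 : (∑ z' ∈ B.filter (fun z' => (1 ≤ |z.1 - z'.1| ∧ |z.1 - z'.1| ≤ u) ∧
      |z.2 - z'.2| ≤ G * |z.1 - z'.1| + 2 * v), 1 / |z.1 - z'.1|) ≤
      1 * (C0 * (8 * G) * u + C0 * 4 * (1 + 2 * G + 4 * v) * (1 + Real.log u)) := by
    refine schur_shell _ (fun z' => ⌊|z.1 - z'.1|⌋₊) _ u (C0 * (8 * G)) (C0 * 4 * (1 + 2 * G + 4 * v)) 1 hu
      (by positivity) (by positivity) zero_le_one ?_ ?_ ?_
    · intro z' hz'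
      rw [Finset.mem_filter] at hz'
      exact ⟨(Nat.one_le_floor_iff _).mpr hz'.2.1.1, Nat.floor_le_floor hz'.2.1.2⟩
    · intro z' hz'
      rw [Finset.mem_filter] at hz'
      have h1 : 1 ≤ ⌊|z.1 - z'.1|⌋₊ := (Nat.one_le_floor_iff _).mpr hz'.2.1.1
      have h2 : (0 : ℝ) < (⌊|z.1 - z'.1|⌋₊ : ℝ) := by exact_mod_cast h1
      exact one_div_le_one_div_of_le h2 (Nat.floor_le (abs_nonneg _))
    · intro k hk
      have hk0 : (0 : ℝ) ≤ (k : ℝ) := Nat.cast_nonneg k
      have hH : 0 ≤ G * ((k : ℝ) + 1) + 2 * v := by positivity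
      have q1 := schur_box ε G C0 hC B hB z 0 (k : ℝ) 1 (G * ((k : ℝ) + 1) + 2 * v)
        (by rw [abs_zero]; linarith) zero_le_one hH
      have q2 := schur_box ε G C0 hC B hB z 0 (-((k : ℝ) + 1)) 1 (G * ((k : ℝ) + 1) + 2 * v)
        (by rw [abs_zero]; linarith) zero_le_one hH
      have hs : ((B.filter (fun z' => (1 ≤ |z.1 - z'.1| ∧ |z.1 - z'.1| ≤ u) ∧
          |z.2 - z'.2| ≤ G * |z.1 - z'.1| + 2 * v)).filter fun z' => ⌊|z.1 - z'.1|⌋₊ = k) ⊆
          (B.filter fun z' => ((k : ℝ) ≤ z.1 - z'.1 ∧ z.1 - z'.1 ≤ (k : ℝ) + 1) ∧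
            |z.2 - z'.2 - 0 * (z.1 - z'.1)| ≤ G * ((k : ℝ) + 1) + 2 * v) ∪
          (B.filter fun z' => (-((k : ℝ) + 1) ≤ z.1 - z'.1 ∧ z.1 - z'.1 ≤ -((k : ℝ) + 1) + 1) ∧
            |z.2 - z'.2 - 0 * (z.1 - z'.1)| ≤ G * ((k : ℝ) + 1) + 2 * v) := by
        intro z' hz'
        rw [Finset.mem_filter, Finset.mem_filter] at hz'
        obtain ⟨⟨h1, h2, h3⟩, h4⟩ := hz'
        have h5 : (k : ℝ) ≤ |z.1 - z'.1| := by
          rw [← h4]
          exact Nat.floor_le (abs_nonneg _)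
        have h6 : |z.1 - z'.1| < (k : ℝ) + 1 := by
          rw [← h4]
          exact Nat.lt_floor_add_one _
        have h7 : |z.2 - z'.2 - 0 * (z.1 - z'.1)| ≤ G * ((k : ℝ) + 1) + 2 * v := by
          rw [zero_mul, sub_zero]
          have := mul_le_mul_of_nonneg_left h6.le hG0.le
          linarith
        rw [Finset.mem_union, Finset.mem_filter, Finset.mem_filter]
        rcases le_total 0 (z.1 - z'.1) with h8 | h8
        · left
          rw [abs_of_nonneg h8] at h5 h6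
          exact ⟨h1, ⟨h5, h6.le⟩, h7⟩
        · right
          rw [abs_of_nonpos h8] at h5 h6
          exact ⟨h1, ⟨by linarith, by linarith⟩, h7⟩
      have q3 : (((B.filter (fun z' => (1 ≤ |z.1 - z'.1| ∧ |z.1 - z'.1| ≤ u) ∧
          |z.2 - z'.2| ≤ G * |z.1 - z'.1| + 2 * v)).filter fun z' => ⌊|z.1 - z'.1|⌋₊ = k).card : ℝ) ≤
          ((B.filter fun z' => ((k : ℝ) ≤ z.1 - z'.1 ∧ z.1 - z'.1 ≤ (k : ℝ) + 1) ∧
            |z.2 - z'.2 - 0 * (z.1 - z'.1)| ≤ G * ((k : ℝ) + 1) + 2 * v).card : ℝ) +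
          ((B.filter fun z' => (-((k : ℝ) + 1) ≤ z.1 - z'.1 ∧ z.1 - z'.1 ≤ -((k : ℝ) + 1) + 1) ∧
            |z.2 - z'.2 - 0 * (z.1 - z'.1)| ≤ G * ((k : ℝ) + 1) + 2 * v).card : ℝ) := by
        exact_mod_cast (Finset.card_le_card hs).trans (Finset.card_union_le _ _)
      refine q3.trans ((add_le_add q1 q2).trans (le_of_eq ?_))
      ring
  -- D4
  have b4 : (∑ z' ∈ B.filter (fun z' => u < |z.1 - z'.1| ∧ |z.2 - z'.2| ≤ G * |z.1 - z'.1| + 2 * u ∧
      G * |z.1 - z'.1| ≤ |z.2 - z'.2| + 2 * u), 4 / |z.1 - z'.1|) ≤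
      C0 * 160 * (u * (1 + Real.log (1 + R / u))) := by
    by_cases hRu : 1 ≤ R / u
    · have hR' : u ≤ R := by
        rw [le_div_iff₀ hu0, one_mul] at hRu
        exact hRu
      have h0 : (∑ z' ∈ B.filter (fun z' => u < |z.1 - z'.1| ∧ |z.2 - z'.2| ≤ G * |z.1 - z'.1| + 2 * u ∧
          G * |z.1 - z'.1| ≤ |z.2 - z'.2| + 2 * u), 4 / |z.1 - z'.1|) ≤
          (4 / u) * (0 * (R / u) + C0 * 40 * u ^ 2 * (1 + Real.log (R / u))) := by
        refine schur_shell _ (fun z' => ⌊|z.1 - z'.1| / u⌋₊) _ (R / u) 0 (C0 * 40 * u ^ 2) (4 / u) hRu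
          le_rfl (by positivity) (by positivity) ?_ ?_ ?_
        · intro z' hz'
          rw [Finset.mem_filter] at hz'
          refine ⟨(Nat.one_le_floor_iff _).mpr ?_, Nat.floor_le_floor ?_⟩
          · rw [le_div_iff₀ hu0, one_mul]
            exact hz'.2.1.le
          · exact div_le_div_of_nonneg_right (hzR z' hz'.1) hu0.le
        · intro z' hz'
          rw [Finset.mem_filter] at hz'
          have h1 : 1 ≤ ⌊|z.1 - z'.1| / u⌋₊ := by
            refine (Nat.one_le_floor_iff _).mpr ?_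
            rw [le_div_iff₀ hu0, one_mul]
            exact hz'.2.1.le
          have h2 : (0 : ℝ) < (⌊|z.1 - z'.1| / u⌋₊ : ℝ) := by exact_mod_cast h1
          have h3 : (⌊|z.1 - z'.1| / u⌋₊ : ℝ) ≤ |z.1 - z'.1| / u := Nat.floor_le (by positivity)
          rw [le_div_iff₀ hu0] at h3
          show 4 / |z.1 - z'.1| ≤ 4 / u / (⌊|z.1 - z'.1| / u⌋₊ : ℝ)
          rw [div_div]
          refine div_le_div_of_nonneg_left (by norm_num) (by positivity) ?_
          linarith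
        · intro k hk
          have hk0 : (0 : ℝ) ≤ (k : ℝ) := Nat.cast_nonneg k
          have hGG : |G| ≤ G := by rw [abs_of_pos hG0]
          have hGG' : |-G| ≤ G := by rw [abs_neg, abs_of_pos hG0]
          have q1 := schur_box ε G C0 hC B hB z G ((k : ℝ) * u) u (2 * u) hGG hu0.le (by linarith)
          have q2 := schur_box ε G C0 hC B hB z (-G) ((k : ℝ) * u) u (2 * u) hGG' hu0.le (by linarith)
          have q3 := schur_box ε G C0 hC B hB z G (-(((k : ℝ) + 1) * u)) u (2 * u) hGG hu0.le (by linarith)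
          have q4 := schur_box ε G C0 hC B hB z (-G) (-(((k : ℝ) + 1) * u)) u (2 * u) hGG' hu0.le (by linarith)
          have hs : ((B.filter (fun z' => u < |z.1 - z'.1| ∧ |z.2 - z'.2| ≤ G * |z.1 - z'.1| + 2 * u ∧
              G * |z.1 - z'.1| ≤ |z.2 - z'.2| + 2 * u)).filter fun z' => ⌊|z.1 - z'.1| / u⌋₊ = k) ⊆
              ((B.filter fun z' => ((k : ℝ) * u ≤ z.1 - z'.1 ∧ z.1 - z'.1 ≤ (k : ℝ) * u + u) ∧
                |z.2 - z'.2 - G * (z.1 - z'.1)| ≤ 2 * u) ∪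
              (B.filter fun z' => ((k : ℝ) * u ≤ z.1 - z'.1 ∧ z.1 - z'.1 ≤ (k : ℝ) * u + u) ∧
                |z.2 - z'.2 - (-G) * (z.1 - z'.1)| ≤ 2 * u)) ∪
              ((B.filter fun z' => (-(((k : ℝ) + 1) * u) ≤ z.1 - z'.1 ∧ z.1 - z'.1 ≤ -(((k : ℝ) + 1) * u) + u) ∧
                |z.2 - z'.2 - G * (z.1 - z'.1)| ≤ 2 * u) ∪
              (B.filter fun z' => (-(((k : ℝ) + 1) * u) ≤ z.1 - z'.1 ∧ z.1 - z'.1 ≤ -(((k : ℝ) + 1) * u) + u) ∧
                |z.2 - z'.2 - (-G) * (z.1 - z'.1)| ≤ 2 * u)) := by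
            intro z' hz'
            rw [Finset.mem_filter, Finset.mem_filter] at hz'
            obtain ⟨⟨h1, h2, h3, h3'⟩, h4⟩ := hz'
            have h5 : (k : ℝ) * u ≤ |z.1 - z'.1| := by
              rw [← le_div_iff₀ hu0, ← h4]
              exact Nat.floor_le (by positivity)
            have h6 : |z.1 - z'.1| < ((k : ℝ) + 1) * u := by
              rw [← div_lt_iff₀ hu0, ← h4]
              exact Nat.lt_floor_add_one _
            rw [Finset.mem_union, Finset.mem_union, Finset.mem_union, Finset.mem_filter, Finset.mem_filter,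
              Finset.mem_filter, Finset.mem_filter]
            rcases le_total 0 (z.1 - z'.1) with h8 | h8
            · left
              rw [abs_of_nonneg h8] at h5 h6 h3 h3'
              have h9 : (k : ℝ) * u ≤ z.1 - z'.1 ∧ z.1 - z'.1 ≤ (k : ℝ) * u + u := ⟨h5, by linarith⟩
              rcases le_total 0 (z.2 - z'.2) with h10 | h10
              · left
                rw [abs_of_nonneg h10] at h3 h3'
                exact ⟨h1, h9, abs_le.mpr ⟨by linarith, by linarith⟩⟩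
              · right
                rw [abs_of_nonpos h10] at h3 h3'
                exact ⟨h1, h9, abs_le.mpr ⟨by linarith, by linarith⟩⟩
            · right
              rw [abs_of_nonpos h8] at h5 h6 h3 h3'
              have h9 : -(((k : ℝ) + 1) * u) ≤ z.1 - z'.1 ∧ z.1 - z'.1 ≤ -(((k : ℝ) + 1) * u) + u :=
                ⟨by linarith, by linarith⟩
              rcases le_total 0 (z.2 - z'.2) with h10 | h10
              · right
                rw [abs_of_nonneg h10] at h3 h3'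
                exact ⟨h1, h9, abs_le.mpr ⟨by linarith, by linarith⟩⟩
              · left
                rw [abs_of_nonpos h10] at h3 h3'
                exact ⟨h1, h9, abs_le.mpr ⟨by linarith, by linarith⟩⟩
          have q5 := (Finset.card_le_card hs).trans ((Finset.card_union_le _ _).trans
            (add_le_add (Finset.card_union_le _ _) (Finset.card_union_le _ _)))
          have q6 : (((B.filter (fun z' => u < |z.1 - z'.1| ∧ |z.2 - z'.2| ≤ G * |z.1 - z'.1| + 2 * u ∧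
              G * |z.1 - z'.1| ≤ |z.2 - z'.2| + 2 * u)).filter fun z' => ⌊|z.1 - z'.1| / u⌋₊ = k).card : ℝ) ≤
              (C0 * (1 + u) * (1 + 2 * (2 * u)) + C0 * (1 + u) * (1 + 2 * (2 * u))) +
              (C0 * (1 + u) * (1 + 2 * (2 * u)) + C0 * (1 + u) * (1 + 2 * (2 * u))) := by
            refine le_trans ?_ (add_le_add (add_le_add q1 q2) (add_le_add q3 q4))
            exact_mod_cast q5
          refine q6.trans ?_
          have h7 : C0 * (1 + u) * (1 + 2 * (2 * u)) ≤ C0 * (2 * u) * (5 * u) :=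
            mul_le_mul (mul_le_mul_of_nonneg_left (by linarith) hC0'.le) (by linarith) (by positivity)
              (by positivity)
          have h8 : C0 * (2 * u) * (5 * u) = C0 * 10 * u ^ 2 := by ring
          rw [h8] at h7
          linarith
      refine h0.trans ?_
      have h1 : (4 / u) * (0 * (R / u) + C0 * 40 * u ^ 2 * (1 + Real.log (R / u))) =
          C0 * 160 * (u * (1 + Real.log (R / u))) := by
        field_simp
        ring
      rw [h1]
      have h2 : Real.log (R / u) ≤ Real.log (1 + R / u) :=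
        Real.log_le_log (by linarith) (by linarith)
      refine mul_le_mul_of_nonneg_left (mul_le_mul_of_nonneg_left (by linarith) hu0.le) (by positivity)
    · rw [not_le, div_lt_one hu0] at hRu
      have h0 : B.filter (fun z' => u < |z.1 - z'.1| ∧ |z.2 - z'.2| ≤ G * |z.1 - z'.1| + 2 * u ∧
          G * |z.1 - z'.1| ≤ |z.2 - z'.2| + 2 * u) = ∅ := by
        refine Finset.filter_eq_empty_iff.mpr ?_
        intro z' hz' h1
        have := hzR z' hz'
        linarith [h1.1]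
      rw [h0, Finset.sum_empty]
      have h1 : 0 ≤ Real.log (1 + R / u) := Real.log_nonneg (by
        have : 0 ≤ R / u := by positivity
        linarith)
      positivity
  -- assembly
  have hlu : 0 ≤ Real.log u := Real.log_nonneg hu
  have hRu0 : 0 ≤ R / u := by positivity
  have hlR : 0 ≤ Real.log (1 + R / u) := Real.log_nonneg (by linarith)
  have X1 : 0 ≤ 1 / v := by positivity
  have X2 : 0 ≤ (1 + v) * (1 + Real.log u) := by positivity
  have X3 : u ≤ u * (1 + Real.log (1 + R / u)) := by nlinarith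
  have X3' : 1 ≤ u * (1 + Real.log (1 + R / u)) := by linarith
  have hb2 : C0 * 4 * (1 + 2 * G + 4 * v) * (1 + Real.log u) ≤ C0 * (4 * (5 + 2 * G)) * ((1 + v) * (1 + Real.log u)) := by
    have h1 : 1 + 2 * G + 4 * v ≤ (5 + 2 * G) * (1 + v) := by nlinarith [mul_pos hG0 hv]
    have h2 := mul_le_mul_of_nonneg_left h1 (show 0 ≤ C0 * 4 * (1 + Real.log u) by positivity)
    calc C0 * 4 * (1 + 2 * G + 4 * v) * (1 + Real.log u) = C0 * 4 * (1 + Real.log u) * (1 + 2 * G + 4 * v) := by ring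
      _ ≤ C0 * 4 * (1 + Real.log u) * ((5 + 2 * G) * (1 + v)) := h2
      _ = C0 * (4 * (5 + 2 * G)) * ((1 + v) * (1 + Real.log u)) := by ring
  have g1 : C0 * (9 * G * (2 * G + 5)) * u ≤ C0 * (9 * G * (2 * G + 5)) * (u * (1 + Real.log (1 + R / u))) :=
    mul_le_mul_of_nonneg_left X3 (by positivity)
  have g2 : C0 * (12 * G) ≤ C0 * (12 * G) * (u * (1 + Real.log (1 + R / u))) :=
    le_mul_of_one_le_right (by positivity) X3'
  have g3 : C0 * (8 * G) * u ≤ C0 * (8 * G) * (u * (1 + Real.log (1 + R / u))) :=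
    mul_le_mul_of_nonneg_left X3 (by positivity)
  set L1 := 1 / v with hL1
  set L2 := (1 + v) * (1 + Real.log u) with hL2
  set L3 := u * (1 + Real.log (1 + R / u)) with hL3
  have e : C0 * (9 * G * (2 * G + 5) + 20 * G + 160 + 3 * G * (1 + 2 * G) + 4 * (5 + 2 * G)) * (L1 + L2 + L3) =
      (C0 * (9 * G * (2 * G + 5)) * L3 + C0 * (12 * G) * L3 + C0 * (8 * G) * L3 + C0 * 160 * L3 +
        C0 * (3 * G * (1 + 2 * G)) * L1 + C0 * (4 * (5 + 2 * G)) * L2) +
      (C0 * (3 * G * (1 + 2 * G) + 4 * (5 + 2 * G)) * L3 +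
        C0 * (9 * G * (2 * G + 5) + 20 * G + 160 + 4 * (5 + 2 * G)) * L1 +
        C0 * (9 * G * (2 * G + 5) + 20 * G + 160 + 3 * G * (1 + 2 * G)) * L2) := by ring
  have e2 : 0 ≤ (C0 * (3 * G * (1 + 2 * G) + 4 * (5 + 2 * G)) * L3 +
        C0 * (9 * G * (2 * G + 5) + 20 * G + 160 + 4 * (5 + 2 * G)) * L1 +
        C0 * (9 * G * (2 * G + 5) + 20 * G + 160 + 3 * G * (1 + 2 * G)) * L2) := by
    have : 0 ≤ L3 := by linarith
    positivity
  rw [e]
  linarith

end

end Pool.Agent.Lib.MP_a768d2_coS
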