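import Pool.Agent.Lib.MP_a768d2_coS.Defs
import Pool.Agent.Lib.MP_a768d2_coS.Schur

/-!
# MP_a768d2_co, thin strips: L2

Proof in words. gs B v l - gs B u l = ∑ z ∈ B, om (sv l z) with om s = hk v s - hk u s. Square it (Finset.sum_mul_sum), integrate term by term (integral_finset_sum, integrability from `intOn_mul`): the integral is ∑ z, ∑ z', ip v u G z z'
≤ ∑ z, ∑ z', |ip v u G z z'| ≤ (card B) * max by `schur`.
-/

set_option autoImplicit false

namespace Pool.Agent.Lib.MP_a768d2_coS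

noncomputable section

open Finset

open MeasureTheory

/-- the product in `ip` is integrable -/
private theorem l2_int (v u G : ℝ) (z z' : ℝ × ℝ) : IntegrableOn (fun l : ℝ × ℝ =>
    (hk v (sv l z) - hk u (sv l z)) * (hk v (sv l z') - hk u (sv l z'))) (lines G) := by
  have h : (fun l : ℝ × ℝ => (hk v (sv l z) - hk u (sv l z)) * (hk v (sv l z') - hk u (sv l z'))) =
      fun l => (hk v (sv l z) * hk v (sv l z') - hk v (sv l z) * hk u (sv l z')) -
        (hk u (sv l z) * hk v (sv l z') - hk u (sv l z) * hk u (sv l z')) := by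
    funext l
    ring
  rw [h]
  exact ((intOn_mul v v G z z').sub (intOn_mul v u G z z')).sub
    ((intOn_mul u v G z z').sub (intOn_mul u u G z z'))

theorem L2 (ε G : ℝ) (hε : 0 < ε) (hG : 1 ≤ G) : ∃ C : ℝ, 0 < C ∧
    ∀ B : Finset (ℝ × ℝ), Sep ε B → ∀ R v u : ℝ, 0 < v → v ≤ u → 1 ≤ u → 0 ≤ R →
      (∀ z ∈ B, ∀ z' ∈ B, |z.1 - z'.1| ≤ R) →
        ∫ l in lines G, (gs B v l - gs B u l) ^ 2 ≤
          C * (B.card : ℝ) * (1 / v + (1 + v) * (1 + Real.log u) + u * (1 + Real.log (1 + R / u))) := by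
  obtain ⟨C, hC, h⟩ := schur ε G hε hG
  refine ⟨C, hC, fun B hB R v u hv hvu hu hR hBR => ?_⟩
  have h1 : ∀ l, (gs B v l - gs B u l) ^ 2 = ∑ z ∈ B, ∑ z' ∈ B,
      (hk v (sv l z) - hk u (sv l z)) * (hk v (sv l z') - hk u (sv l z')) := by
    intro l
    have h2 : gs B v l - gs B u l = ∑ z ∈ B, (hk v (sv l z) - hk u (sv l z)) := by
      unfold gs
      rw [Finset.sum_sub_distrib]
    rw [h2, pow_two, Finset.sum_mul_sum]
  have h3 : ∫ l in lines G, (gs B v l - gs B u l) ^ 2 = ∑ z ∈ B, ∑ z' ∈ B, ip v u G z z' := by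
    simp only [h1]
    rw [integral_finsetSum]
    · refine Finset.sum_congr rfl fun z _ => ?_
      rw [integral_finsetSum]
      · rfl
      · intro z' _
        exact l2_int v u G z z'
    · intro z _
      exact integrable_finsetSum _ fun z' _ => l2_int v u G z z'
  rw [h3]
  calc ∑ z ∈ B, ∑ z' ∈ B, ip v u G z z' ≤ ∑ z ∈ B, ∑ z' ∈ B, |ip v u G z z'| :=
        Finset.sum_le_sum fun z _ => Finset.sum_le_sum fun z' _ => le_abs_self _
    _ ≤ ∑ _z ∈ B, C * (1 / v + (1 + v) * (1 + Real.log u) + u * (1 + Real.log (1 + R / u))) :=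
        Finset.sum_le_sum fun z hz => h B hB R v u hv hvu hu hR z hz fun z' hz' => hBR z hz z' hz'
    _ = C * (B.card : ℝ) * (1 / v + (1 + v) * (1 + Real.log u) + u * (1 + Real.log (1 + R / u))) := by
        rw [Finset.sum_const, nsmul_eq_mul]
        ring

end

end Pool.Agent.Lib.MP_a768d2_coS
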