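import Pool.Agent.Lib.MP_a768d2_coS.Defs
import Pool.Agent.Lib.MP_a768d2_coS.Cnt
import Pool.Agent.Lib.MP_a768d2_coS.Meas
import Pool.Agent.Lib.MP_a768d2_coS.L2

/-!
# MP_a768d2_co, thin strips: Ctl1

Proof in words. C0 from `cnt ε (G + 1)`, C2 from `L2 ε (G + 1)`, C = 72 C0 + 1000 C2. Let Bd be the set of bad pairs e. For e ∈ Bd let
box e = {l | |l.1 - (ln e).1| ≤ v / (3 K), |l.2 - (ln e).2| ≤ v}, of measure 4 v ^ 2 / (3 K), contained in lines (G + 1). Let D l = gs B (3 v) l - gs B 1 l.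
For l ∈ box e and z ∈ B: |sv l z - sv (ln e) z| ≤ v / (3 K) * 3 K + v = 2 v (sv_sub). So every z with |sv (ln e) z| ≤ v satisfies |sv l z| ≤ 3 v: gs B (3 v) l ≥ C v K / (6 v) = C K / 6 ≥ 12 C0 K, whereas
gs B 1 l = (number of z with |sv l z| ≤ 1) / 2 ≤ C0 (1 + 3 K) (1 + 2) / 2 ≤ 6 C0 K. So D l ≥ gs B (3 v) l / 2 ≥ 0.
For fixed l the number of e ∈ Bd with l ∈ box e is at most T ^ 2, T = number of z ∈ B with |sv l z| ≤ 3 v = 6 v gs B (3 v) l, because e.1 and e.2 both satisfy |sv l ..| ≤ 2 v (sv_ln_fst, sv_ln_snd); if there is one such e then T ≤ 12 v D l.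
So ∑ e ∈ Bd, 1_{box e} l ≤ 144 v ^ 2 (D l) ^ 2 for every l ∈ lines (G + 1). Integrate over lines (G + 1): (card Bd) * 4 v ^ 2 / (3 K) ≤ 144 v ^ 2 ∫ D ^ 2, i.e. card Bd ≤ 108 K ∫ D ^ 2.
`L2 ε (G + 1)` with 3 v ≤ 1 = u and R = 3 K: ∫ D ^ 2 ≤ C2 card B (1 / (3 v) + (1 + 3 v) (1 + log 1) + 1 (1 + log (1 + 3 K))) ≤ 3 C2 card B (1 / v + 1 + log (1 + 3 K)).
-/

set_option autoImplicit false

namespace Pool.Agent.Lib.MP_a768d2_coS

noncomputable section

open Finset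

open MeasureTheory

private def ctl1_box (v K : ℝ) (p : ℝ × ℝ) : Set (ℝ × ℝ) :=
  Set.Icc (p.1 - v / (3 * K)) (p.1 + v / (3 * K)) ×ˢ Set.Icc (p.2 - v) (p.2 + v)

private theorem ctl1_box_meas (v K : ℝ) (p : ℝ × ℝ) : MeasurableSet (ctl1_box v K p) :=
  measurableSet_Icc.prod measurableSet_Icc

private theorem ctl1_lines_meas (G : ℝ) : MeasurableSet (lines G) :=
  measurableSet_Icc.prod MeasurableSet.univ

private theorem ctl1_box_int (v K : ℝ) (p : ℝ × ℝ) :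
    Integrable (fun l => (ctl1_box v K p).indicator (fun _ => (1 : ℝ)) l) := by
  refine (integrable_indicator_iff (ctl1_box_meas v K p)).mpr ?_
  exact continuousOn_const.integrableOn_compact (isCompact_Icc.prod isCompact_Icc)

private theorem ctl1_box_val (v K G : ℝ) (p : ℝ × ℝ) (hv : 0 < v) (hK : 0 < K)
    (hp : ctl1_box v K p ⊆ lines G) :
    ∫ l in lines G, (ctl1_box v K p).indicator (fun _ => (1 : ℝ)) l = 4 * v ^ 2 / (3 * K) := by
  rw [setIntegral_indicator (ctl1_box_meas v K p), Set.inter_eq_self_of_subset_right hp, setIntegral_const,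
    smul_eq_mul, mul_one]
  unfold Measure.real ctl1_box
  rw [Measure.volume_eq_prod, Measure.prod_prod, Real.volume_Icc, Real.volume_Icc, ENNReal.toReal_mul,
    ENNReal.toReal_ofReal, ENNReal.toReal_ofReal]
  · field_simp
    ring
  · linarith
  · have : 0 < v / (3 * K) := by positivity
    linarith

private theorem ctl1_pt (ε G C0 C : ℝ) (hC0 : 1 ≤ C0)
    (hC : ∀ P : Finset (ℝ × ℝ), Sep ε P → ∀ m a t A B : ℝ, |m| ≤ G → 0 ≤ A → 0 ≤ B →
      ((P.filter fun z => (a ≤ z.1 ∧ z.1 ≤ a + A) ∧ t ≤ z.2 - m * z.1 ∧ z.2 - m * z.1 ≤ t + B).card : ℝ) ≤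
        C0 * (1 + A) * (1 + B)) (h72 : 72 * C0 ≤ C)
    (B : Finset (ℝ × ℝ)) (hB : Sep ε B) (K v : ℝ) (hK : 1 ≤ K) (hv : 0 < v)
    (hBK : ∀ z ∈ B, 0 ≤ z.1 ∧ z.1 ≤ 3 * K) (Bd : Finset ((ℝ × ℝ) × (ℝ × ℝ)))
    (hBd : ∀ e ∈ Bd, e.1 ∈ B ∧ e.2 ∈ B ∧ 0 < e.2.1 - e.1.1 ∧
      C * v * K < ((B.filter fun z => |sv (ln e) z| ≤ v).card : ℝ)) (l : ℝ × ℝ) (hl : |l.1| ≤ G) :
    ∑ e ∈ Bd, (ctl1_box v K (ln e)).indicator (fun _ => (1 : ℝ)) l ≤
      144 * v ^ 2 * (gs B (3 * v) l - gs B 1 l) ^ 2 := by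
  classical
  have hK0 : 0 < K := by linarith
  have h1 : ∑ e ∈ Bd, (ctl1_box v K (ln e)).indicator (fun _ => (1 : ℝ)) l =
      ((Bd.filter fun e => l ∈ ctl1_box v K (ln e)).card : ℝ) := by
    rw [Finset.card_filter]
    push_cast
    refine Finset.sum_congr rfl fun e _ => ?_
    rw [Set.indicator_apply]
  rw [h1]
  -- the change of the offset
  have hch : ∀ e, l ∈ ctl1_box v K (ln e) → ∀ z ∈ B, |sv l z - sv (ln e) z| ≤ 2 * v := by
    intro e he z hz
    obtain ⟨⟨a1, a2⟩, a3, a4⟩ := he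
    obtain ⟨b1, b2⟩ := hBK z hz
    rw [sv_sub]
    have h2 : |((ln e).1 - l.1) * z.1| ≤ v / (3 * K) * (3 * K) := by
      rw [abs_mul]
      refine mul_le_mul ?_ ?_ (abs_nonneg _) (by positivity)
      · rw [abs_le]
        exact ⟨by linarith, by linarith⟩
      · rw [abs_of_nonneg b1]
        exact b2
    have h3 : |(ln e).2 - l.2| ≤ v := by
      rw [abs_le]
      exact ⟨by linarith, by linarith⟩
    have h4 : v / (3 * K) * (3 * K) = v := by field_simp
    rw [h4] at h2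
    exact (abs_add_le _ _).trans (by linarith)
  rcases (Bd.filter fun e => l ∈ ctl1_box v K (ln e)).eq_empty_or_nonempty with h0 | ⟨e0, he0⟩
  · rw [h0, Finset.card_empty, Nat.cast_zero]
    positivity
  · rw [Finset.mem_filter] at he0
    obtain ⟨he1, he2⟩ := he0
    obtain ⟨-, -, -, hrich⟩ := hBd e0 he1
    set T := (B.filter fun z => |sv l z| ≤ 3 * v) with hT
    have hsub : (B.filter fun z => |sv (ln e0) z| ≤ v) ⊆ T := by
      intro z hz
      rw [Finset.mem_filter] at hz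
      rw [hT, Finset.mem_filter]
      refine ⟨hz.1, ?_⟩
      have h5 := hch e0 he2 z hz.1
      have h6 : sv l z = (sv l z - sv (ln e0) z) + sv (ln e0) z := by ring
      rw [h6]
      exact (abs_add_le _ _).trans (by linarith [hz.2])
    have hTc : C * v * K < (T.card : ℝ) := by
      refine lt_of_lt_of_le hrich ?_
      exact_mod_cast Finset.card_le_card hsub
    have hT1 : ((B.filter fun z => |sv l z| ≤ 1).card : ℝ) ≤ 12 * C0 * K := by
      have h7 := hC B hB l.1 0 (l.2 - 1) (3 * K) 2 hl (by linarith) (by norm_num)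
      have hs : (B.filter fun z => |sv l z| ≤ 1) ⊆ (B.filter fun z => (0 ≤ z.1 ∧ z.1 ≤ 0 + 3 * K) ∧
          l.2 - 1 ≤ z.2 - l.1 * z.1 ∧ z.2 - l.1 * z.1 ≤ l.2 - 1 + 2) := by
        intro z hz
        rw [Finset.mem_filter] at hz ⊢
        obtain ⟨h8, h9⟩ := hz
        unfold sv at h9
        rw [abs_le] at h9
        obtain ⟨b1, b2⟩ := hBK z h8
        refine ⟨h8, ⟨b1, by linarith⟩, by linarith [h9.1], by linarith [h9.2]⟩
      have h8 : ((B.filter fun z => |sv l z| ≤ 1).card : ℝ) ≤ C0 * (1 + 3 * K) * (1 + 2) :=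
        le_trans (by exact_mod_cast Finset.card_le_card hs) h7
      refine h8.trans ?_
      nlinarith [mul_pos (show 0 < C0 by linarith) hK0, mul_le_mul_of_nonneg_left hK (show 0 ≤ C0 by linarith)]
    have hD : (T.card : ℝ) ≤ 12 * v * (gs B (3 * v) l - gs B 1 l) := by
      rw [gs_eq, gs_eq, ← hT]
      have h9 : 12 * v * ((T.card : ℝ) / (2 * (3 * v)) - ((B.filter fun z => |sv l z| ≤ 1).card : ℝ) / (2 * 1)) =
          2 * (T.card : ℝ) - 6 * v * ((B.filter fun z => |sv l z| ≤ 1).card : ℝ) := by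
        field_simp
        ring
      rw [h9]
      have h10 := mul_le_mul_of_nonneg_left hT1 (show 0 ≤ 6 * v by positivity)
      have h11 := mul_le_mul_of_nonneg_right h72 (show 0 ≤ v * K by positivity)
      have h12 : 6 * v * (12 * C0 * K) = 72 * C0 * (v * K) := by ring
      have h13 : C * v * K = C * (v * K) := by ring
      linarith
    have hM : ((Bd.filter fun e => l ∈ ctl1_box v K (ln e)).card : ℝ) ≤ (T.card : ℝ) ^ 2 := by
      have hs : (Bd.filter fun e => l ∈ ctl1_box v K (ln e)) ⊆ T ×ˢ T := by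
        intro e he
        rw [Finset.mem_filter] at he
        obtain ⟨h1, h2⟩ := he
        obtain ⟨m1, m2, m3, -⟩ := hBd e h1
        have q1 := hch e h2 e.1 m1
        have q2 := hch e h2 e.2 m2
        rw [sv_ln_fst, sub_zero] at q1
        rw [sv_ln_snd e m3.ne', sub_zero] at q2
        rw [Finset.mem_product, hT, Finset.mem_filter, Finset.mem_filter]
        exact ⟨⟨m1, by linarith⟩, m2, by linarith⟩
      have h14 := Finset.card_le_card hs
      rw [Finset.card_product, ← sq] at h14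
      exact_mod_cast h14
    refine hM.trans ?_
    have h15 : (T.card : ℝ) ^ 2 ≤ (12 * v * (gs B (3 * v) l - gs B 1 l)) ^ 2 :=
      pow_le_pow_left₀ (Nat.cast_nonneg _) hD 2
    refine h15.trans (le_of_eq ?_)
    ring

/-- in a vertical strip of width `3 K` few `K`-pairs have a rich tube of half-width `v` -/
theorem ctl1 (ε G : ℝ) (hε : 0 < ε) (hG : 1 ≤ G) : ∃ C : ℝ, 1 ≤ C ∧
    ∀ B : Finset (ℝ × ℝ), Sep ε B → ∀ K v : ℝ, 1 ≤ K → 0 < v → v ≤ 1 / 3 →
      (∀ z ∈ B, 0 ≤ z.1 ∧ z.1 ≤ 3 * K) →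
        (((B ×ˢ B).filter fun e => 0 < e.2.1 - e.1.1 ∧ e.2.1 - e.1.1 ≤ K ∧ |(ln e).1| ≤ G ∧
          C * v * K < ((B.filter fun z => |sv (ln e) z| ≤ v).card : ℝ)).card : ℝ) ≤
            C * K * (B.card : ℝ) * (1 / v + 1 + Real.log (1 + 3 * K)) := by
  obtain ⟨C0, hC0, hC⟩ := cnt ε (G + 1) hε (by linarith)
  obtain ⟨C2, hC2, hL⟩ := L2 ε (G + 1) hε (by linarith)
  refine ⟨72 * C0 + 1000 * C2, by linarith, ?_⟩
  intro B hB K v hK hv hv3 hBK
  have hK0 : 0 < K := by linarith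
  set Bd := ((B ×ˢ B).filter fun e => 0 < e.2.1 - e.1.1 ∧ e.2.1 - e.1.1 ≤ K ∧ |(ln e).1| ≤ G ∧
          (72 * C0 + 1000 * C2) * v * K < ((B.filter fun z => |sv (ln e) z| ≤ v).card : ℝ)) with hBd
  have hmem : ∀ e ∈ Bd, e.1 ∈ B ∧ e.2 ∈ B ∧ 0 < e.2.1 - e.1.1 ∧
      (72 * C0 + 1000 * C2) * v * K < ((B.filter fun z => |sv (ln e) z| ≤ v).card : ℝ) := by
    intro e he
    rw [hBd, Finset.mem_filter, Finset.mem_product] at he
    exact ⟨he.1.1, he.1.2, he.2.1, he.2.2.2.2⟩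
  have hsl : ∀ e ∈ Bd, ctl1_box v K (ln e) ⊆ lines (G + 1) := by
    intro e he l hl
    rw [hBd, Finset.mem_filter] at he
    have h1 := abs_le.mp he.2.2.2.1
    obtain ⟨⟨a1, a2⟩, -⟩ := hl
    have h2 : v / (3 * K) ≤ 1 := by
      rw [div_le_one (by positivity)]
      linarith
    exact ⟨⟨by linarith, by linarith⟩, Set.mem_univ _⟩
  have hint := setIntegral_mono_on (μ := volume) (s := lines (G + 1))
    (f := fun l => ∑ e ∈ Bd, (ctl1_box v K (ln e)).indicator (fun _ => (1 : ℝ)) l)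
    (g := fun l => 144 * v ^ 2 * (gs B (3 * v) l - gs B 1 l) ^ 2)
    (integrable_finsetSum _ fun e _ => (ctl1_box_int v K (ln e)).integrableOn)
    ((intOn_sq B (3 * v) 1 (G + 1)).const_mul _) (ctl1_lines_meas (G + 1))
    (fun l hl => ctl1_pt ε (G + 1) C0 (72 * C0 + 1000 * C2) hC0 hC (by linarith) B hB K v hK hv hBK Bd hmem l
      (abs_le.mpr hl.1))
  rw [integral_finsetSum _ fun e _ => (ctl1_box_int v K (ln e)).integrableOn,
    Finset.sum_congr rfl fun e he => ctl1_box_val v K (G + 1) (ln e) hv hK0 (hsl e he), Finset.sum_const,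
    nsmul_eq_mul, integral_const_mul] at hint
  have h3 := hL B hB (3 * K) (3 * v) 1 (by linarith) (by linarith) le_rfl (by linarith) (by
    intro z hz z' hz'
    obtain ⟨a1, a2⟩ := hBK z hz
    obtain ⟨b1, b2⟩ := hBK z' hz'
    rw [abs_le]
    exact ⟨by linarith, by linarith⟩)
  rw [Real.log_one, add_zero, mul_one, div_one, one_mul] at h3
  have hlog : 0 ≤ Real.log (1 + 3 * K) := Real.log_nonneg (by linarith)
  have h4 : 1 / (3 * v) + (1 + 3 * v) + (1 + Real.log (1 + 3 * K)) ≤ 3 * (1 / v + 1 + Real.log (1 + 3 * K)) := by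
    have h5 : 1 / (3 * v) = (1 / 3) * (1 / v) := by field_simp
    have h6 : 0 < 1 / v := by positivity
    rw [h5]
    linarith
  have hB0 : (0 : ℝ) ≤ (B.card : ℝ) := Nat.cast_nonneg _
  have h7 : ∫ l in lines (G + 1), (gs B (3 * v) l - gs B 1 l) ^ 2 ≤
      C2 * (B.card : ℝ) * (3 * (1 / v + 1 + Real.log (1 + 3 * K))) :=
    h3.trans (mul_le_mul_of_nonneg_left h4 (by positivity))
  have h8 : (Bd.card : ℝ) * (4 * v ^ 2 / (3 * K)) ≤
      144 * v ^ 2 * (C2 * (B.card : ℝ) * (3 * (1 / v + 1 + Real.log (1 + 3 * K)))) :=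
    hint.trans (mul_le_mul_of_nonneg_left h7 (by positivity))
  have h9 : (Bd.card : ℝ) ≤ 324 * C2 * (K * (B.card : ℝ) * (1 / v + 1 + Real.log (1 + 3 * K))) := by
    have h10 := mul_le_mul_of_nonneg_right h8 (show 0 ≤ 3 * K / (4 * v ^ 2) by positivity)
    have e1 : (Bd.card : ℝ) * (4 * v ^ 2 / (3 * K)) * (3 * K / (4 * v ^ 2)) = (Bd.card : ℝ) := by
      field_simp
    have e2 : 144 * v ^ 2 * (C2 * (B.card : ℝ) * (3 * (1 / v + 1 + Real.log (1 + 3 * K)))) *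
        (3 * K / (4 * v ^ 2)) = 324 * C2 * (K * (B.card : ℝ) * (1 / v + 1 + Real.log (1 + 3 * K))) := by
      field_simp
      ring
    rw [e1, e2] at h10
    exact h10
  have h11 : 0 ≤ K * (B.card : ℝ) * (1 / v + 1 + Real.log (1 + 3 * K)) := by positivity
  refine h9.trans ?_
  have h12 : 324 * C2 ≤ 72 * C0 + 1000 * C2 := by linarith
  have h13 := mul_le_mul_of_nonneg_right h12 h11
  refine h13.trans (le_of_eq ?_)
  ring

end

end Pool.Agent.Lib.MP_a768d2_coS
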