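import Pool.Agent.Lib.MP_a768d2_coS.Defs
import Pool.Agent.Lib.MP_a768d2_coS.Cnt
import Pool.Agent.Lib.MP_a768d2_coS.Ctl1

/-!
# MP_a768d2_co, thin strips: Ctl

Proof in words. C1 from `ctl1 ε G`, C0 from `cnt ε 0`. M = 100 C1 C0. A' = max 4 (2 M / η), A = C1 A'. K0 large such that K0 ≥ 3 A', K0 ≥ 1 and (1 + log (1 + 3 K)) / K ≤ η / (2 M) for K ≥ K0 (log (1 + 3 K) / K → 0).
v = A' / K ∈ (0, 1 / 3], 4 / K ≤ v. For i = 0 .. ⌊N / K⌋ let P_i = {z ∈ P : (i - 1) K ≤ z.1 ≤ (i + 2) K} and B_i its image under (x, y) ↦ (x - (i - 1) K, y). Sep and slopes are preserved and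
sv (ln e') z' = sv (ln e) z for translated pair and point. A bad pair e with ⌊e.1.1 / K⌋ = i has both points in P_i, and tube P K e ⊆ P_i, and tube P K e ⊆ {z : |sv (ln e) z| ≤ v}. So the translated pair is counted by ctl1 for B_i:
C1 v K = A < card. Hence the number of bad pairs is at most ∑ i, C1 K card(B_i) (1 / v + 1 + log (1 + 3 K)); card B_i ≤ C0 (1 + 3 K) (1 + N) ≤ 8 C0 K N (cnt, m = 0, t = 0, B = N), number of i ≤ N / K + 1 ≤ 2 N / K. Total
≤ 16 C0 C1 N ^ 2 K (K / A' + 1 + log (1 + 3 K)) ≤ M N ^ 2 K ^ 2 (1 / A' + (1 + log (1 + 3 K)) / K) ≤ η N ^ 2 K ^ 2.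
-/

set_option autoImplicit false

namespace Pool.Agent.Lib.MP_a768d2_coS

noncomputable section

open Finset

/-- translation to the left -/
private def ctl_tr (s : ℝ) (z : ℝ × ℝ) : ℝ × ℝ := (z.1 - s, z.2)

private theorem ctl_tr_inj (s : ℝ) : Function.Injective (ctl_tr s) := by
  intro x y h
  unfold ctl_tr at h
  rw [Prod.mk.injEq] at h
  exact Prod.ext (by linarith [h.1]) h.2

private theorem ctl_ln (s : ℝ) (e : (ℝ × ℝ) × (ℝ × ℝ)) :
    (ln (ctl_tr s e.1, ctl_tr s e.2)).1 = (ln e).1 ∧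
      ∀ z, sv (ln (ctl_tr s e.1, ctl_tr s e.2)) (ctl_tr s z) = sv (ln e) z := by
  have h1 : (ln (ctl_tr s e.1, ctl_tr s e.2)).1 = (ln e).1 := by
    change (e.2.2 - e.1.2) / (e.2.1 - s - (e.1.1 - s)) = (e.2.2 - e.1.2) / (e.2.1 - e.1.1)
    rw [sub_sub_sub_cancel_right]
  refine ⟨h1, fun z => ?_⟩
  have h2 : (ln (ctl_tr s e.1, ctl_tr s e.2)).2 = e.1.2 - (ln (ctl_tr s e.1, ctl_tr s e.2)).1 * (e.1.1 - s) := rfl
  have h3 : (ln e).2 = e.1.2 - (ln e).1 * e.1.1 := rfl
  unfold sv
  rw [h2, h1, h3]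
  change z.2 - (ln e).1 * (z.1 - s) - _ = _
  ring

private theorem ctl_log {M η K : ℝ} (hM : 0 < M) (hη : 0 < η) (hK1 : 1 ≤ K) (hK : (8 * M / η) ^ 2 ≤ K) :
    1 + Real.log (1 + 3 * K) ≤ η / (2 * M) * K := by
  have h0 : 0 < K := by linarith
  have h1 : 0 < 1 + 3 * K := by linarith
  have h2 : Real.log (1 + 3 * K) = 2 * Real.log (Real.sqrt (1 + 3 * K)) := by
    have : Real.log (Real.sqrt (1 + 3 * K)) = Real.log (1 + 3 * K) / 2 := Real.log_sqrt h1.le
    rw [this]
    ring
  have h3 : Real.log (Real.sqrt (1 + 3 * K)) ≤ Real.sqrt (1 + 3 * K) - 1 :=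
    Real.log_le_sub_one_of_pos (Real.sqrt_pos.mpr h1)
  have h4 : Real.sqrt (1 + 3 * K) ≤ 2 * Real.sqrt K := by
    have : Real.sqrt (1 + 3 * K) ≤ Real.sqrt (2 ^ 2 * K) := Real.sqrt_le_sqrt (by linarith)
    rwa [Real.sqrt_mul (by norm_num), Real.sqrt_sq (by norm_num)] at this
  have h5 : 8 * M / η ≤ Real.sqrt K := Real.le_sqrt_of_sq_le hK
  have h6 : Real.sqrt K * Real.sqrt K = K := Real.mul_self_sqrt h0.le
  have h7 : 0 < Real.sqrt K := Real.sqrt_pos.mpr h0
  have h8 : 4 * Real.sqrt K ≤ η / (2 * M) * K := by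
    have h9 : 4 ≤ η / (2 * M) * Real.sqrt K := by
      have h10 : η / (2 * M) * (8 * M / η) = 4 := by
        field_simp
        norm_num
      rw [← h10]
      exact mul_le_mul_of_nonneg_left h5 (by positivity)
    calc 4 * Real.sqrt K ≤ η / (2 * M) * Real.sqrt K * Real.sqrt K :=
          mul_le_mul_of_nonneg_right h9 h7.le
      _ = η / (2 * M) * K := by rw [mul_assoc, h6]
  linarith

/-- few `K`-pairs have a rich tube of half-width `4 / K` -/
theorem ctl (ε G η : ℝ) (hε : 0 < ε) (hG : 1 ≤ G) (hη : 0 < η) : ∃ A K0 : ℝ, 1 ≤ A ∧ 1 ≤ K0 ∧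
    ∀ P : Finset (ℝ × ℝ), Sep ε P → ∀ N K : ℝ, K0 ≤ K → K ≤ N → InBox N P →
      (((P ×ˢ P).filter fun e => 0 < e.2.1 - e.1.1 ∧ e.2.1 - e.1.1 ≤ K ∧ |(ln e).1| ≤ G ∧
        A < ((tube P K e).card : ℝ)).card : ℝ) ≤ η * N ^ 2 * K ^ 2 := by
  classical
  obtain ⟨C1, hC1, hctl⟩ := ctl1 ε G hε hG
  obtain ⟨C0, hC0, hcnt⟩ := cnt ε 0 hε le_rfl
  set M : ℝ := 100 * C1 * C0 with hMdef
  have hM : 0 < M := by rw [hMdef]; positivity
  set A' : ℝ := max 4 (2 * M / η) with hA'def
  have hA4 : 4 ≤ A' := le_max_left _ _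
  have hAM : 2 * M / η ≤ A' := le_max_right _ _
  have hA'0 : 0 < A' := by linarith
  set K0 : ℝ := max 1 (max (3 * A') ((8 * M / η) ^ 2)) with hK0def
  refine ⟨C1 * A', K0, by nlinarith, le_max_left _ _, ?_⟩
  intro P hP N K hK0K hKN hbox
  have hK1 : 1 ≤ K := (le_max_left _ _).trans hK0K
  have hK3 : 3 * A' ≤ K := ((le_max_left _ _).trans (le_max_right _ _)).trans hK0K
  have hK8 : (8 * M / η) ^ 2 ≤ K := ((le_max_right _ _).trans (le_max_right _ _)).trans hK0K
  have hKp : 0 < K := by linarith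
  have hN1 : 1 ≤ N := hK1.trans hKN
  have hNp : 0 < N := by linarith
  have hlog := ctl_log hM hη hK1 hK8
  set v : ℝ := A' / K with hvdef
  have hv0 : 0 < v := div_pos hA'0 hKp
  have hv3 : v ≤ 1 / 3 := by
    rw [hvdef, div_le_div_iff₀ hKp (by norm_num)]
    linarith
  have hv4 : 4 / K ≤ v := div_le_div_of_nonneg_right hA4 hKp.le
  have hvK : C1 * v * K = C1 * A' := by
    rw [hvdef]
    field_simp
  have hinv : 1 / v = K / A' := by
    rw [hvdef, one_div_div]
  set Bd := (P ×ˢ P).filter fun e => 0 < e.2.1 - e.1.1 ∧ e.2.1 - e.1.1 ≤ K ∧ |(ln e).1| ≤ G ∧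
        C1 * A' < ((tube P K e).card : ℝ) with hBd
  set m : ℕ := ⌊N / K⌋₊ with hm
  have hmap : ∀ e ∈ Bd, ⌊e.1.1 / K⌋₊ ∈ Finset.range (m + 1) := by
    intro e he
    rw [hBd, Finset.mem_filter, Finset.mem_product] at he
    have := hbox _ he.1.1
    rw [Finset.mem_range, Nat.lt_succ_iff]
    exact Nat.floor_le_floor (div_le_div_of_nonneg_right this.2.1 hKp.le)
  rw [Finset.card_eq_sum_card_fiberwise (s := Bd) (f := fun e : (ℝ × ℝ) × (ℝ × ℝ) => ⌊e.1.1 / K⌋₊)
    (t := Finset.range (m + 1)) hmap,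
    Nat.cast_sum]
  have hkey : ∀ i ∈ Finset.range (m + 1), ((Bd.filter fun e => ⌊e.1.1 / K⌋₊ = i).card : ℝ) ≤
      C1 * K * (8 * C0 * K * N) * (1 / v + 1 + Real.log (1 + 3 * K)) := by
    intro i _
    set s : ℝ := ((i : ℝ) - 1) * K with hs
    set Pi := P.filter fun z => s ≤ z.1 ∧ z.1 ≤ s + 3 * K with hPi
    set B := Pi.image (ctl_tr s) with hB
    have hBsep : Sep ε B := by
      intro x hx y hy hxy
      rw [hB, Finset.mem_image] at hx hy
      obtain ⟨x', hx', rfl⟩ := hx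
      obtain ⟨y', hy', rfl⟩ := hy
      rw [hPi, Finset.mem_filter] at hx' hy'
      have h1 : x' ≠ y' := fun h => hxy (by rw [h])
      have h2 := hP x' hx'.1 y' hy'.1 h1
      have h3 : dist (ctl_tr s x') (ctl_tr s y') = dist x' y' := by
        rw [Prod.dist_eq, Prod.dist_eq, Real.dist_eq, Real.dist_eq, Real.dist_eq, Real.dist_eq]
        change max |x'.1 - s - (y'.1 - s)| |x'.2 - y'.2| = _
        rw [sub_sub_sub_cancel_right]
      rw [h3]
      exact h2
    have hBrange : ∀ z ∈ B, 0 ≤ z.1 ∧ z.1 ≤ 3 * K := by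
      intro z hz
      rw [hB, Finset.mem_image] at hz
      obtain ⟨z', hz', rfl⟩ := hz
      rw [hPi, Finset.mem_filter] at hz'
      change 0 ≤ z'.1 - s ∧ z'.1 - s ≤ 3 * K
      constructor
      · linarith [hz'.2.1]
      · linarith [hz'.2.2]
    have h1 := hctl B hBsep K v hK1 hv0 hv3 hBrange
    have hle : (Bd.filter fun e => ⌊e.1.1 / K⌋₊ = i).card ≤ ((B ×ˢ B).filter fun e =>
        0 < e.2.1 - e.1.1 ∧ e.2.1 - e.1.1 ≤ K ∧ |(ln e).1| ≤ G ∧
          C1 * v * K < ((B.filter fun z => |sv (ln e) z| ≤ v).card : ℝ)).card := by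
      refine Finset.card_le_card_of_injOn (fun e => (ctl_tr s e.1, ctl_tr s e.2)) ?_ ?_
      · intro e he
        rw [Finset.mem_coe, Finset.mem_filter, hBd, Finset.mem_filter, Finset.mem_product] at he
        obtain ⟨⟨⟨p1, p2⟩, p3, p4, p5, p6⟩, p7⟩ := he
        have q0 := hbox _ p1
        have q1 : (i : ℝ) ≤ e.1.1 / K := by
          rw [← p7]
          exact Nat.floor_le (div_nonneg q0.1 hKp.le)
        have q2 : e.1.1 / K < (i : ℝ) + 1 := by
          rw [← p7]
          exact Nat.lt_floor_add_one _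
        rw [le_div_iff₀ hKp] at q1
        rw [div_lt_iff₀ hKp] at q2
        have q3 : s = i * K - K := by rw [hs]; ring
        have r1 : ctl_tr s e.1 ∈ B := by
          rw [hB]
          refine Finset.mem_image_of_mem _ ?_
          rw [hPi, Finset.mem_filter]
          exact ⟨p1, by linarith, by linarith⟩
        have r2 : ctl_tr s e.2 ∈ B := by
          rw [hB]
          refine Finset.mem_image_of_mem _ ?_
          rw [hPi, Finset.mem_filter]
          exact ⟨p2, by linarith, by linarith⟩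
        obtain ⟨l1, l2⟩ := ctl_ln s e
        rw [Finset.mem_coe, Finset.mem_filter, Finset.mem_product]
        refine ⟨⟨r1, r2⟩, ?_, ?_, ?_, ?_⟩
        · change 0 < e.2.1 - s - (e.1.1 - s)
          linarith
        · change e.2.1 - s - (e.1.1 - s) ≤ K
          linarith
        · rw [l1]
          exact p5
        · rw [hvK]
          refine lt_of_lt_of_le p6 ?_
          have hc : (tube P K e).card ≤
              (B.filter fun z => |sv (ln (ctl_tr s e.1, ctl_tr s e.2)) z| ≤ v).card := by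
            refine Finset.card_le_card_of_injOn (ctl_tr s) ?_ ((ctl_tr_inj s).injOn)
            intro z hz
            rw [Finset.mem_coe] at hz
            unfold tube at hz
            rw [Finset.mem_filter] at hz
            obtain ⟨z1, z2, z3⟩ := hz
            have z4 := abs_le.mp z2
            rw [Finset.mem_coe, Finset.mem_filter]
            refine ⟨?_, ?_⟩
            · rw [hB]
              refine Finset.mem_image_of_mem _ ?_
              rw [hPi, Finset.mem_filter]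
              exact ⟨z1, by linarith [z4.1], by linarith [z4.2]⟩
            · rw [l2]
              exact z3.trans hv4
          exact_mod_cast hc
      · intro e _ g _ h
        rw [Prod.mk.injEq] at h
        exact Prod.ext (ctl_tr_inj s h.1) (ctl_tr_inj s h.2)
    have h2 : ((Bd.filter fun e => ⌊e.1.1 / K⌋₊ = i).card : ℝ) ≤
        C1 * K * (B.card : ℝ) * (1 / v + 1 + Real.log (1 + 3 * K)) := by
      refine le_trans ?_ h1
      exact_mod_cast hle
    refine h2.trans ?_
    have h3 : (B.card : ℝ) ≤ 8 * C0 * K * N := by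
      have h4 : B.card ≤ Pi.card := Finset.card_image_le
      have h5 : Pi ⊆ P.filter fun z => (s ≤ z.1 ∧ z.1 ≤ s + 3 * K) ∧ 0 ≤ z.2 - 0 * z.1 ∧
          z.2 - 0 * z.1 ≤ 0 + N := by
        intro z hz
        rw [hPi, Finset.mem_filter] at hz
        have := hbox _ hz.1
        rw [Finset.mem_filter]
        refine ⟨hz.1, hz.2, ?_, ?_⟩
        · rw [zero_mul, sub_zero]
          exact this.2.2.1
        · rw [zero_mul, sub_zero, zero_add]
          exact this.2.2.2
      have h6 := hcnt P hP 0 s 0 (3 * K) N (by rw [abs_zero]) (by positivity) hNp.le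
      have h7 : (B.card : ℝ) ≤ C0 * (1 + 3 * K) * (1 + N) := by
        refine le_trans ?_ h6
        exact_mod_cast h4.trans (Finset.card_le_card h5)
      have h8 : C0 * (1 + 3 * K) * (1 + N) ≤ C0 * (4 * K) * (2 * N) := by
        refine mul_le_mul ?_ (by linarith) (by linarith) (by positivity)
        exact mul_le_mul_of_nonneg_left (by linarith) (by linarith)
      calc (B.card : ℝ) ≤ C0 * (4 * K) * (2 * N) := h7.trans h8
        _ = 8 * C0 * K * N := by ring
    have h9 : 0 ≤ 1 / v + 1 + Real.log (1 + 3 * K) := by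
      have : 0 ≤ Real.log (1 + 3 * K) := Real.log_nonneg (by linarith)
      positivity
    refine mul_le_mul_of_nonneg_right ?_ h9
    exact mul_le_mul_of_nonneg_left h3 (by positivity)
  refine (Finset.sum_le_sum hkey).trans ?_
  rw [Finset.sum_const, Finset.card_range, nsmul_eq_mul]
  have hlog0 : 0 ≤ Real.log (1 + 3 * K) := Real.log_nonneg (by linarith)
  have hcount : ((m + 1 : ℕ) : ℝ) ≤ 2 * N / K := by
    push_cast
    have h1 : (m : ℝ) ≤ N / K := Nat.floor_le (by positivity)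
    have h2 : 1 ≤ N / K := by
      rw [le_div_iff₀ hKp]
      linarith
    have h3 : 2 * N / K = N / K + N / K := by ring
    rw [h3]
    linarith
  have hsum : 1 / v + 1 + Real.log (1 + 3 * K) ≤ η / M * K := by
    have h1 : 1 / v ≤ η / (2 * M) * K := by
      rw [hinv, div_mul_eq_mul_div, div_le_div_iff₀ hA'0 (by positivity)]
      have h2 : 2 * M ≤ η * A' := by
        have := mul_le_mul_of_nonneg_left hAM hη.le
        rwa [mul_div_cancel₀ _ hη.ne'] at this
      nlinarith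
    have h3 : η / M * K = η / (2 * M) * K + η / (2 * M) * K := by
      field_simp
      ring
    rw [h3]
    linarith
  have hnn : 0 ≤ 1 / v + 1 + Real.log (1 + 3 * K) := by positivity
  calc ((m + 1 : ℕ) : ℝ) * (C1 * K * (8 * C0 * K * N) * (1 / v + 1 + Real.log (1 + 3 * K)))
      ≤ (2 * N / K) * (C1 * K * (8 * C0 * K * N) * (η / M * K)) := by
        refine mul_le_mul hcount ?_ (by positivity) (by positivity)
        exact mul_le_mul_of_nonneg_left hsum (by positivity)
    _ = 16 / 100 * (η * N ^ 2 * K ^ 2) := by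
        rw [hMdef]
        field_simp
        ring
    _ ≤ η * N ^ 2 * K ^ 2 := by
        have : 0 ≤ η * N ^ 2 * K ^ 2 := by positivity
        linarith

end

end Pool.Agent.Lib.MP_a768d2_coS
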