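import Mathlib

/-!
# MP_a768d2_co: three points of a separated set in a thin strip, definitions
-/

set_option autoImplicit false

namespace Pool.Agent.Lib.MP_a768d2_coS

noncomputable section

open Finset

/-- the points of `P` have mutual sup-distance at least `ε` -/
def Sep (ε : ℝ) (P : Finset (ℝ × ℝ)) : Prop :=
  ∀ p ∈ P, ∀ q ∈ P, p ≠ q → ε ≤ dist p q

/-- the points of `P` lie in the square `[0, N]²` -/
def InBox (N : ℝ) (P : Finset (ℝ × ℝ)) : Prop :=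
  ∀ p ∈ P, 0 ≤ p.1 ∧ p.1 ≤ N ∧ 0 ≤ p.2 ∧ p.2 ≤ N

/-- twice the signed area of the triangle `p q z` -/
def dt (p q z : ℝ × ℝ) : ℝ := (q.1 - p.1) * (z.2 - p.2) - (q.2 - p.2) * (z.1 - p.1)

/-- no triple of distinct points of `P` is thin -/
def Fat (a : ℝ) (P : Finset (ℝ × ℝ)) : Prop :=
  ∀ p ∈ P, ∀ q ∈ P, ∀ z ∈ P, p ≠ q → q ≠ z → p ≠ z → a * |z.1 - p.1| ≤ |dt p q z|

/-- vertical offset of the point `z` from the line `y = l.1 * x + l.2` -/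
def sv (l z : ℝ × ℝ) : ℝ := z.2 - l.1 * z.1 - l.2

/-- the line (slope, intercept) through the two points of `e` -/
def ln (e : (ℝ × ℝ) × (ℝ × ℝ)) : ℝ × ℝ :=
  ((e.2.2 - e.1.2) / (e.2.1 - e.1.1), e.1.2 - (e.2.2 - e.1.2) / (e.2.1 - e.1.1) * e.1.1)

/-- normalised indicator function of `[-w, w]` -/
def hk (w s : ℝ) : ℝ := if |s| ≤ w then 1 / (2 * w) else 0

/-- number of points of `B` at vertical distance at most `w` from the line `l`, divided by `2 w` -/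
def gs (B : Finset (ℝ × ℝ)) (w : ℝ) (l : ℝ × ℝ) : ℝ := ∑ z ∈ B, hk w (sv l z)

/-- the set of lines with slope in `[-G, G]` -/
def lines (G : ℝ) : Set (ℝ × ℝ) := Set.Icc (-G) G ×ˢ (Set.univ : Set ℝ)

/-- pairs of points of `E` at horizontal distance between `κ K` and `K`, with slope at most `G` -/
def pairs (E : Finset (ℝ × ℝ)) (κ K G : ℝ) : Finset ((ℝ × ℝ) × (ℝ × ℝ)) :=
  (E ×ˢ E).filter fun e => κ * K ≤ e.2.1 - e.1.1 ∧ e.2.1 - e.1.1 ≤ K ∧ |(ln e).1| ≤ G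

/-- the points of `P` in the tube of length `2 K` and half-width `4 / K` of the pair `e` -/
def tube (P : Finset (ℝ × ℝ)) (K : ℝ) (e : (ℝ × ℝ) × (ℝ × ℝ)) : Finset (ℝ × ℝ) :=
  P.filter fun z => |z.1 - e.1.1| ≤ K ∧ |sv (ln e) z| ≤ 4 / K

/-- pairs of nearby lines -/
def close (L : Finset ((ℝ × ℝ) × (ℝ × ℝ))) (N v : ℝ) :
    Finset (((ℝ × ℝ) × (ℝ × ℝ)) × ((ℝ × ℝ) × (ℝ × ℝ))) :=
  (L ×ˢ L).filter fun f =>
    |(ln f.1).1 - (ln f.2).1| ≤ 2 * v / N ∧ |(ln f.1).2 - (ln f.2).2| ≤ 2 * v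

theorem Sep.mono {ε : ℝ} {P Q : Finset (ℝ × ℝ)} (h : Sep ε P) (hQ : Q ⊆ P) : Sep ε Q :=
  fun p hp q hq hpq => h p (hQ hp) q (hQ hq) hpq

theorem InBox.mono {N : ℝ} {P Q : Finset (ℝ × ℝ)} (h : InBox N P) (hQ : Q ⊆ P) : InBox N Q :=
  fun p hp => h p (hQ hp)

theorem Fat.mono {a b : ℝ} {P Q : Finset (ℝ × ℝ)} (h : Fat a P) (hQ : Q ⊆ P) (hb : b ≤ a) : Fat b Q :=
  fun p hp q hq z hz h1 h2 h3 =>
    (mul_le_mul_of_nonneg_right hb (abs_nonneg _)).trans (h p (hQ hp) q (hQ hq) z (hQ hz) h1 h2 h3)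

theorem hk_nonneg (w s : ℝ) (hw : 0 < w) : 0 ≤ hk w s := by
  unfold hk
  split_ifs
  · positivity
  · exact le_rfl

theorem gs_nonneg (B : Finset (ℝ × ℝ)) (w : ℝ) (l : ℝ × ℝ) (hw : 0 < w) : 0 ≤ gs B w l :=
  Finset.sum_nonneg fun _ _ => hk_nonneg w _ hw

theorem gs_eq (B : Finset (ℝ × ℝ)) (w : ℝ) (l : ℝ × ℝ) :
    gs B w l = ((B.filter fun z => |sv l z| ≤ w).card : ℝ) / (2 * w) := by
  unfold gs hk
  rw [← Finset.sum_filter, Finset.sum_const, nsmul_eq_mul]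
  ring

/-- the first point of a pair lies on its line -/
theorem sv_ln_fst (e : (ℝ × ℝ) × (ℝ × ℝ)) : sv (ln e) e.1 = 0 := by
  unfold sv ln
  ring

/-- the offset of `z` from the line of `e`, by the area -/
theorem sv_ln_eq (e : (ℝ × ℝ) × (ℝ × ℝ)) (z : ℝ × ℝ) (h : e.2.1 - e.1.1 ≠ 0) :
    sv (ln e) z = dt e.1 e.2 z / (e.2.1 - e.1.1) := by
  unfold sv ln dt
  field_simp
  ring

theorem sv_ln_snd (e : (ℝ × ℝ) × (ℝ × ℝ)) (h : e.2.1 - e.1.1 ≠ 0) : sv (ln e) e.2 = 0 := by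
  rw [sv_ln_eq e e.2 h]
  unfold dt
  ring

/-- difference of the offsets of one point from two lines -/
theorem sv_sub (l l' z : ℝ × ℝ) : sv l z - sv l' z = (l'.1 - l.1) * z.1 + (l'.2 - l.2) := by
  unfold sv
  ring

end

end Pool.Agent.Lib.MP_a768d2_coS
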