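import Pool.Agent.Lib.MP_a768d2_coS.Defs
import Pool.Agent.Lib.MP_a768d2_coS.Cnt

/-!
# MP_a768d2_co, thin strips: Dir

Proof in words. C from `cnt ε G`. Put κ = min 1 (ρ ^ 2 / (M C ^ 2 (1 + G))) with M a large number (like 10000) and c = κ ρ ^ 2 / (100 (1 + G)) (choose what is convenient).
Note 1 ≤ κ θ K gives 1 ≤ κ K ≤ K ≤ s and 1 ≤ s. Cells: f z = (⌊(z.1 - x0) / K⌋, ⌊(z.2 - a * z.1) / (κ θ K)⌋). On S the first index lies in [0, s / K], the second in an interval of real length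
at most (1 + G) s / (κ θ K) (as |Δy - a Δx| ≤ (1 + G) s), so the number Q of cells that are met is at most (s / K + 1) * ((1 + G) s / (κ θ K) + 2) ≤ 2 s / K * 3 (1 + G) s / (κ θ K) = 6 (1 + G) s ^ 2 / (κ θ K ^ 2).
Cauchy-Schwarz (sq_sum_le_card_mul_sum_sq, or Finset.inner_mul_le_norm_mul_norm): number of ordered pairs (p, q) ∈ S × S with f p = f q is ≥ (card S) ^ 2 / Q ≥ ρ ^ 2 s ^ 2 κ θ K ^ 2 / (6 (1 + G)).
Among them those with |q.1 - p.1| < κ K: for each p, q lies in the box |q.1 - p.1| ≤ κ K, |(q.2 - a q.1) - (p.2 - a p.1)| ≤ κ θ K, so by cnt at most C (1 + 2 κ K) (1 + 2 κ θ K) ≤ 9 C κ ^ 2 θ K ^ 2 of them,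
and card S ≤ C (1 + s) (1 + s) ≤ 4 C s ^ 2 (cnt with m = 0). So at most 36 C ^ 2 κ ^ 2 θ K ^ 2 s ^ 2 such pairs, at most half of the lower bound by the choice of κ.
The remaining pairs satisfy κ K ≤ |q.1 - p.1| ≤ K, |(q.2 - p.2) - a (q.1 - p.1)| ≤ κ θ K; swapping p and q is a bijection between those with q.1 < p.1 and those with p.1 < q.1, so at least half of them have
κ K ≤ q.1 - p.1 ≤ K, and then |slope - a| ≤ κ θ K / (κ K) = θ.
-/

set_option autoImplicit false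

namespace Pool.Agent.Lib.MP_a768d2_coS

noncomputable section

open Finset

/-- slope of a pair from the sheared offset -/
private theorem dir_slope (κ K θ a : ℝ) (p q : ℝ × ℝ) (hκK : 0 < κ * K)
    (h1 : κ * K ≤ q.1 - p.1) (h2 : |(q.2 - a * q.1) - (p.2 - a * p.1)| ≤ κ * θ * K) (hθ : 0 < θ) :
    |(ln (p, q)).1 - a| ≤ θ := by
  have hd : 0 < q.1 - p.1 := lt_of_lt_of_le hκK h1
  have e : (ln (p, q)).1 - a = ((q.2 - a * q.1) - (p.2 - a * p.1)) / (q.1 - p.1) := by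
    show (q.2 - p.2) / (q.1 - p.1) - a = _
    rw [eq_div_iff hd.ne', sub_mul, div_mul_cancel₀ _ hd.ne']
    ring
  rw [e, abs_div, abs_of_pos hd, div_le_iff₀ hd]
  refine h2.trans ?_
  have : θ * (κ * K) ≤ θ * (q.1 - p.1) := mul_le_mul_of_nonneg_left h1 hθ.le
  linarith [this, mul_comm θ (κ * K), mul_assoc κ θ K, mul_comm θ K, mul_assoc κ K θ]

/-- Cauchy-Schwarz over the cells -/
private theorem dir_cs {α β : Type*} [DecidableEq β] (S : Finset α) (f : α → β) (T : Finset β)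
    (hT : ∀ z ∈ S, f z ∈ T) :
    ((S.card : ℝ)) ^ 2 ≤ (T.card : ℝ) * (((S ×ˢ S).filter fun e => f e.1 = f e.2).card : ℝ) := by
  classical
  have h1 : S.card = ∑ b ∈ T, (S.filter fun z => f z = b).card :=
    Finset.card_eq_sum_card_fiberwise hT
  have h2 : ((S ×ˢ S).filter fun e => f e.1 = f e.2).card = ∑ b ∈ T, ((S.filter fun z => f z = b).card) ^ 2 := by
    rw [Finset.card_eq_sum_card_fiberwise (f := fun e => f e.1) (t := T)]
    · refine Finset.sum_congr rfl fun b _ => ?_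
      rw [sq, ← Finset.card_product]
      congr 1
      ext e
      simp only [Finset.mem_filter, Finset.mem_product]
      constructor
      · rintro ⟨⟨⟨ha, hb⟩, hc⟩, hd⟩
        exact ⟨⟨ha, hd⟩, hb, hc ▸ hd⟩
      · rintro ⟨⟨ha, hd⟩, hb, hc⟩
        exact ⟨⟨⟨ha, hb⟩, hd.trans hc.symm⟩, hd⟩
    · intro e he
      have := Finset.mem_filter.1 he
      exact hT _ (Finset.mem_product.1 this.1).1
  rw [h1, h2]
  push_cast
  exact sq_sum_le_card_mul_sum_sq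

/-- length of an integer interval of floors -/
private theorem dir_icc (x y : ℝ) (h : x ≤ y) : (((Finset.Icc ⌊x⌋ ⌊y⌋).card : ℕ) : ℝ) ≤ y - x + 2 := by
  rw [Int.card_Icc]
  have h1 : (0 : ℤ) ≤ ⌊y⌋ + 1 - ⌊x⌋ := by
    have := Int.floor_le_floor h
    omega
  have h2 : (((⌊y⌋ + 1 - ⌊x⌋).toNat : ℕ) : ℝ) = ((⌊y⌋ + 1 - ⌊x⌋ : ℤ) : ℝ) := by
    rw [← Int.cast_natCast, Int.toNat_of_nonneg h1]
  rw [h2]
  push_cast
  have h3 := Int.floor_le y
  have h4 := Int.lt_floor_add_one x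
  linarith

/-- equal floors of quotients -/
private theorem dir_floor (x y B : ℝ) (hB : 0 < B) (h : ⌊x / B⌋ = ⌊y / B⌋) : |y - x| ≤ B := by
  have h1 := Int.abs_sub_lt_one_of_floor_eq_floor h
  rw [← sub_div, abs_div, abs_of_pos hB, div_lt_one hB, abs_sub_comm] at h1
  exact h1.le

/-- cells met by the set -/
private theorem dir_cells (G : ℝ) (hG : 1 ≤ G) (S : Finset (ℝ × ℝ)) (K B s x0 y0 a : ℝ)
    (hK : 1 ≤ K) (hB : 1 ≤ B) (hBK : B ≤ K) (hKs : K ≤ s)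
    (hS : ∀ z ∈ S, (x0 ≤ z.1 ∧ z.1 ≤ x0 + s) ∧ y0 ≤ z.2 ∧ z.2 ≤ y0 + s) (ha : |a| ≤ G) :
    ∃ T : Finset (ℤ × ℤ), (∀ z ∈ S, (⌊(z.1 - x0) / K⌋, ⌊(z.2 - a * z.1) / B⌋) ∈ T) ∧
      (T.card : ℝ) * (K * B) ≤ 10 * G * s ^ 2 := by
  have hK0 : 0 < K := by linarith
  have hB0 : 0 < B := by linarith
  have hs0 : 0 < s := by linarith
  have ha' := abs_le.1 ha
  refine ⟨Finset.Icc ⌊(0 : ℝ)⌋ ⌊s / K⌋ ×ˢ Finset.Icc ⌊(y0 - a * x0 - G * s) / B⌋ ⌊(y0 - a * x0 + (1 + G) * s) / B⌋, ?_, ?_⟩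
  · intro z hz
    obtain ⟨⟨h1, h2⟩, h3, h4⟩ := hS z hz
    have h5 : a * (z.1 - x0) ≤ G * s := by
      have : a * (z.1 - x0) ≤ G * (z.1 - x0) := mul_le_mul_of_nonneg_right ha'.2 (by linarith)
      have : G * (z.1 - x0) ≤ G * s := mul_le_mul_of_nonneg_left (by linarith) (by linarith)
      linarith
    have h6 : -(G * s) ≤ a * (z.1 - x0) := by
      have : (-G) * (z.1 - x0) ≤ a * (z.1 - x0) := mul_le_mul_of_nonneg_right ha'.1 (by linarith)
      have : G * (z.1 - x0) ≤ G * s := mul_le_mul_of_nonneg_left (by linarith) (by linarith)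
      linarith
    rw [Finset.mem_product, Finset.mem_Icc, Finset.mem_Icc]
    refine ⟨⟨Int.floor_le_floor ?_, Int.floor_le_floor ?_⟩, Int.floor_le_floor ?_, Int.floor_le_floor ?_⟩
    · exact div_nonneg (by linarith) hK0.le
    · exact div_le_div_of_nonneg_right (by linarith) hK0.le
    · exact div_le_div_of_nonneg_right (by nlinarith) hB0.le
    · exact div_le_div_of_nonneg_right (by nlinarith) hB0.le
  · rw [Finset.card_product]
    push_cast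
    have h2 := dir_icc ((y0 - a * x0 - G * s) / B) ((y0 - a * x0 + (1 + G) * s) / B)
      (div_le_div_of_nonneg_right (by nlinarith) hB0.le)
    have h3 : (y0 - a * x0 + (1 + G) * s) / B - (y0 - a * x0 - G * s) / B + 2 = ((1 + 2 * G) * s + 2 * B) / B := by
      field_simp
      ring
    rw [h3] at h2
    have h4 : (((Finset.Icc ⌊(0 : ℝ)⌋ ⌊s / K⌋).card : ℕ) : ℝ) ≤ 2 * s / K := by
      rw [Int.card_Icc, Int.floor_zero]
      have h5 : (0 : ℤ) ≤ ⌊s / K⌋ + 1 - 0 := by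
        have : (0 : ℤ) ≤ ⌊s / K⌋ := Int.floor_nonneg.2 (by positivity)
        omega
      have h6 : (((⌊s / K⌋ + 1 - 0).toNat : ℕ) : ℝ) = ((⌊s / K⌋ + 1 - 0 : ℤ) : ℝ) := by
        rw [← Int.cast_natCast, Int.toNat_of_nonneg h5]
      rw [h6]
      push_cast
      have h7 := Int.floor_le (s / K)
      have h8 : 1 ≤ s / K := by rw [le_div_iff₀ hK0]; linarith
      have h9 : 2 * s / K = 2 * (s / K) := by ring
      rw [h9]
      linarith
    have h5 : ((1 + 2 * G) * s + 2 * B) / B ≤ 5 * G * s / B := by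
      apply div_le_div_of_nonneg_right _ hB0.le
      nlinarith
    have h6 := mul_le_mul h4 (h2.trans h5) (by positivity) (by positivity)
    have h7 := mul_le_mul_of_nonneg_right h6 (by positivity : 0 ≤ K * B)
    refine h7.trans (le_of_eq ?_)
    field_simp
    ring

/-- pairs that are too close -/
private theorem dir_near (ε G C : ℝ) (hG : 1 ≤ G)
    (hC : 1 ≤ C ∧ ∀ P : Finset (ℝ × ℝ), Sep ε P → ∀ m a t A B : ℝ, |m| ≤ G → 0 ≤ A → 0 ≤ B →
      ((P.filter fun z => (a ≤ z.1 ∧ z.1 ≤ a + A) ∧ t ≤ z.2 - m * z.1 ∧ z.2 - m * z.1 ≤ t + B).card : ℝ) ≤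
        C * (1 + A) * (1 + B))
    (S : Finset (ℝ × ℝ)) (hS : Sep ε S) (A B s x0 y0 a : ℝ) (hA : 1 ≤ A) (hB : 1 ≤ B) (hs : 1 ≤ s)
    (hbox : ∀ z ∈ S, (x0 ≤ z.1 ∧ z.1 ≤ x0 + s) ∧ y0 ≤ z.2 ∧ z.2 ≤ y0 + s) (ha : |a| ≤ G) :
    (((S ×ˢ S).filter fun e => |e.2.1 - e.1.1| ≤ A ∧ |(e.2.2 - a * e.2.1) - (e.1.2 - a * e.1.1)| ≤ B).card : ℝ) ≤
      36 * C ^ 2 * A * B * s ^ 2 := by
  classical
  obtain ⟨hC1, hC2⟩ := hC
  have h1 : (S.card : ℝ) ≤ 4 * C * s ^ 2 := by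
    have h2 := hC2 S hS 0 x0 y0 s s (by rw [abs_zero]; linarith) (by linarith) (by linarith)
    have h3 : (S.filter fun z => (x0 ≤ z.1 ∧ z.1 ≤ x0 + s) ∧ y0 ≤ z.2 - 0 * z.1 ∧ z.2 - 0 * z.1 ≤ y0 + s) = S := by
      apply Finset.filter_true_of_mem
      intro z hz
      rw [zero_mul, sub_zero]
      exact hbox z hz
    rw [h3] at h2
    refine h2.trans ?_
    have h4 : (1 + s) ≤ 2 * s := by linarith
    have h5 : C * (1 + s) * (1 + s) ≤ C * (2 * s) * (2 * s) := by gcongr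
    linarith [h5, (by ring : C * (2 * s) * (2 * s) = 4 * C * s ^ 2)]
  have h2 : (((S ×ˢ S).filter fun e => |e.2.1 - e.1.1| ≤ A ∧ |(e.2.2 - a * e.2.1) - (e.1.2 - a * e.1.1)| ≤ B).card : ℝ) ≤
      (S.card : ℝ) * (9 * C * A * B) := by
    have h3 : ((S ×ˢ S).filter fun e => |e.2.1 - e.1.1| ≤ A ∧ |(e.2.2 - a * e.2.1) - (e.1.2 - a * e.1.1)| ≤ B).card =
        ∑ p ∈ S, (S.filter fun q => |q.1 - p.1| ≤ A ∧ |(q.2 - a * q.1) - (p.2 - a * p.1)| ≤ B).card := by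
      rw [Finset.card_eq_sum_card_fiberwise (f := fun e => e.1) (t := S)]
      · refine Finset.sum_congr rfl fun p hp => ?_
        symm
        apply Finset.card_bij (fun q _ => (p, q))
        · intro q hq
          obtain ⟨hq1, hq2⟩ := Finset.mem_filter.1 hq
          exact Finset.mem_filter.2 ⟨Finset.mem_filter.2 ⟨Finset.mem_product.2 ⟨hp, hq1⟩, hq2⟩, rfl⟩
        · intro q _ q' _ h
          exact (Prod.mk.inj h).2
        · intro e he
          obtain ⟨he1, he2⟩ := Finset.mem_filter.1 he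
          obtain ⟨he3, he4⟩ := Finset.mem_filter.1 he1
          obtain ⟨x, y⟩ := e
          change x = p at he2
          subst he2
          exact ⟨y, Finset.mem_filter.2 ⟨(Finset.mem_product.1 he3).2, he4⟩, rfl⟩
      · intro e he
        exact (Finset.mem_product.1 (Finset.mem_filter.1 he).1).1
    rw [h3]
    push_cast
    rw [← nsmul_eq_mul]
    apply Finset.sum_le_card_nsmul
    intro p _
    have h4 := hC2 S hS a (p.1 - A) (p.2 - a * p.1 - B) (2 * A) (2 * B) ha (by linarith) (by linarith)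
    have h5 : ((S.filter fun q => |q.1 - p.1| ≤ A ∧ |(q.2 - a * q.1) - (p.2 - a * p.1)| ≤ B).card : ℝ) ≤
        ((S.filter fun z => (p.1 - A ≤ z.1 ∧ z.1 ≤ p.1 - A + 2 * A) ∧ p.2 - a * p.1 - B ≤ z.2 - a * z.1 ∧
          z.2 - a * z.1 ≤ p.2 - a * p.1 - B + 2 * B).card : ℝ) := by
      apply Nat.cast_le.2
      apply Finset.card_le_card
      intro q hq
      obtain ⟨hq1, hq2, hq3⟩ := Finset.mem_filter.1 hq
      have hq4 := abs_le.1 hq2
      have hq5 := abs_le.1 hq3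
      exact Finset.mem_filter.2 ⟨hq1, ⟨by linarith [hq4.1], by linarith [hq4.2]⟩, by linarith [hq5.1], by linarith [hq5.2]⟩
    refine (h5.trans h4).trans ?_
    have h6 : (1 + 2 * A) ≤ 3 * A := by linarith
    have h7 : (1 + 2 * B) ≤ 3 * B := by linarith
    have h8 : C * (1 + 2 * A) * (1 + 2 * B) ≤ C * (3 * A) * (3 * B) := by gcongr
    linarith [h8, (by ring : C * (3 * A) * (3 * B) = 9 * C * A * B)]
  refine h2.trans ?_
  have h3 : (S.card : ℝ) * (9 * C * A * B) ≤ (4 * C * s ^ 2) * (9 * C * A * B) :=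
    mul_le_mul_of_nonneg_right h1 (by positivity)
  linarith [h3, (by ring : (4 * C * s ^ 2) * (9 * C * A * B) = 36 * C ^ 2 * A * B * s ^ 2)]

/-- many pairs at distance about `K` with slope in a given window of length `2 θ` -/
theorem dirpairs (ε G ρ : ℝ) (hε : 0 < ε) (hG : 1 ≤ G) (hρ : 0 < ρ) :
    ∃ κ c : ℝ, 0 < κ ∧ κ ≤ 1 ∧ 0 < c ∧
      ∀ S : Finset (ℝ × ℝ), Sep ε S → ∀ θ K s x0 y0 a : ℝ, 0 < θ → θ ≤ 1 → 1 ≤ κ * θ * K → K ≤ s →
        (∀ z ∈ S, (x0 ≤ z.1 ∧ z.1 ≤ x0 + s) ∧ y0 ≤ z.2 ∧ z.2 ≤ y0 + s) → ρ * s ^ 2 ≤ (S.card : ℝ) →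
        |a| ≤ G →
        c * θ * K ^ 2 * s ^ 2 ≤ (((S ×ˢ S).filter fun e =>
          κ * K ≤ e.2.1 - e.1.1 ∧ e.2.1 - e.1.1 ≤ K ∧ |(ln e).1 - a| ≤ θ).card : ℝ) := by
  classical
  obtain ⟨C, hC1, hC2⟩ := cnt ε G hε (by linarith)
  have hG0 : 0 < G := by linarith
  have hC0 : 0 < C := by linarith
  obtain ⟨κ, hκ0, hκ1, hκ2⟩ : ∃ κ : ℝ, 0 < κ ∧ κ ≤ 1 ∧ 36 * C ^ 2 * κ ≤ ρ ^ 2 / (20 * G) := by
    refine ⟨min 1 (ρ ^ 2 / (720 * G * C ^ 2)), lt_min one_pos (by positivity), min_le_left _ _, ?_⟩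
    have h1 : min 1 (ρ ^ 2 / (720 * G * C ^ 2)) ≤ ρ ^ 2 / (720 * G * C ^ 2) := min_le_right _ _
    have h2 : 36 * C ^ 2 * min 1 (ρ ^ 2 / (720 * G * C ^ 2)) ≤ 36 * C ^ 2 * (ρ ^ 2 / (720 * G * C ^ 2)) :=
      mul_le_mul_of_nonneg_left h1 (by positivity)
    refine h2.trans (le_of_eq ?_)
    field_simp
    norm_num
  refine ⟨κ, κ * ρ ^ 2 / (40 * G), hκ0, hκ1, by positivity, ?_⟩
  intro S hS θ K s x0 y0 a hθ hθ1 hK hKs hbox hcard ha
  have hB : 1 ≤ κ * θ * K := hK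
  have hκθ : κ * θ ≤ κ := by
    have := mul_le_mul_of_nonneg_left hθ1 hκ0.le
    linarith
  have hK0 : 0 < K := by
    by_contra hn
    have hn' : K ≤ 0 := not_lt.1 hn
    have : κ * θ * K ≤ 0 := mul_nonpos_of_nonneg_of_nonpos (by positivity) hn'
    linarith
  have hBA : κ * θ * K ≤ κ * K := mul_le_mul_of_nonneg_right hκθ hK0.le
  have hA : 1 ≤ κ * K := hB.trans hBA
  have hAK : κ * K ≤ K := by
    have := mul_le_mul_of_nonneg_right hκ1 hK0.le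
    linarith
  have hK1 : 1 ≤ K := hA.trans hAK
  have hs1 : 1 ≤ s := hK1.trans hKs
  obtain ⟨T, hT1, hT2⟩ := dir_cells G hG S K (κ * θ * K) s x0 y0 a hK1 hB (hBA.trans hAK) hKs hbox ha
  have h1 := dir_cs S (fun z => (⌊(z.1 - x0) / K⌋, ⌊(z.2 - a * z.1) / (κ * θ * K)⌋)) T hT1
  have h2 := dir_near ε G C hG ⟨hC1, hC2⟩ S hS (κ * K) (κ * θ * K) s x0 y0 a hA hB hs1 hbox ha
  set W := (S ×ˢ S).filter fun e => (fun z : ℝ × ℝ => (⌊(z.1 - x0) / K⌋, ⌊(z.2 - a * z.1) / (κ * θ * K)⌋)) e.1 =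
    (fun z : ℝ × ℝ => (⌊(z.1 - x0) / K⌋, ⌊(z.2 - a * z.1) / (κ * θ * K)⌋)) e.2 with hW
  set Ne := (S ×ˢ S).filter fun e => |e.2.1 - e.1.1| ≤ κ * K ∧ |(e.2.2 - a * e.2.1) - (e.1.2 - a * e.1.1)| ≤ κ * θ * K
    with hNe
  set P := (S ×ˢ S).filter fun e => κ * K ≤ e.2.1 - e.1.1 ∧ e.2.1 - e.1.1 ≤ K ∧ |(ln e).1 - a| ≤ θ with hP
  -- the cells are covered
  have h3 : (W.card : ℝ) ≤ (Ne.card : ℝ) + 2 * (P.card : ℝ) := by
    have h4 : W ⊆ Ne ∪ (P ∪ P.image Prod.swap) := by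
      intro e he
      obtain ⟨he1, he2⟩ := Finset.mem_filter.1 he
      obtain ⟨he3, he4⟩ := Finset.mem_product.1 he1
      obtain ⟨he5, he6⟩ := Prod.mk.inj he2
      have h5 := dir_floor _ _ K hK0 he5
      have h6 := dir_floor _ _ (κ * θ * K) (by linarith) he6
      have h5' : |e.2.1 - e.1.1| ≤ K := by
        have : e.2.1 - x0 - (e.1.1 - x0) = e.2.1 - e.1.1 := by ring
        rwa [this] at h5
      rw [Finset.mem_union, Finset.mem_union]
      by_cases hn : |e.2.1 - e.1.1| ≤ κ * K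
      · exact Or.inl (Finset.mem_filter.2 ⟨he1, hn, h6⟩)
      right
      rw [not_le] at hn
      rcases le_total 0 (e.2.1 - e.1.1) with hp | hp
      · left
        rw [abs_of_nonneg hp] at hn h5'
        exact Finset.mem_filter.2 ⟨he1, hn.le, h5', dir_slope κ K θ a e.1 e.2 (by linarith) hn.le h6 hθ⟩
      · right
        rw [abs_of_nonpos hp] at hn h5'
        rw [abs_sub_comm] at h6
        refine Finset.mem_image.2 ⟨(e.2, e.1), Finset.mem_filter.2 ⟨Finset.mem_product.2 ⟨he4, he3⟩, ?_, ?_,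
          dir_slope κ K θ a e.2 e.1 (by linarith) (by linarith) h6 hθ⟩, rfl⟩
        · show κ * K ≤ e.1.1 - e.2.1
          linarith
        · show e.1.1 - e.2.1 ≤ K
          linarith
    have h5 : W.card ≤ Ne.card + (P.card + P.card) :=
      (Finset.card_le_card h4).trans ((Finset.card_union_le _ _).trans
        (Nat.add_le_add_left ((Finset.card_union_le _ _).trans (Nat.add_le_add_left Finset.card_image_le _)) _))
    have h6 : (W.card : ℝ) ≤ ((Ne.card + (P.card + P.card) : ℕ) : ℝ) := Nat.cast_le.2 h5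
    push_cast at h6
    linarith
  -- lower bound for W
  have h4 : (ρ * s ^ 2) ^ 2 ≤ (S.card : ℝ) ^ 2 := pow_le_pow_left₀ (by positivity) hcard 2
  have h5 : (ρ * s ^ 2) ^ 2 * (K * (κ * θ * K)) ≤ (10 * G * s ^ 2) * (W.card : ℝ) := by
    have h6 : (ρ * s ^ 2) ^ 2 * (K * (κ * θ * K)) ≤ ((T.card : ℝ) * (W.card : ℝ)) * (K * (κ * θ * K)) :=
      mul_le_mul_of_nonneg_right (h4.trans h1) (by positivity)
    have h7 : ((T.card : ℝ) * (K * (κ * θ * K))) * (W.card : ℝ) ≤ (10 * G * s ^ 2) * (W.card : ℝ) :=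
      mul_le_mul_of_nonneg_right hT2 (by positivity)
    linarith [h6, h7, (by ring : ((T.card : ℝ) * (W.card : ℝ)) * (K * (κ * θ * K)) =
      ((T.card : ℝ) * (K * (κ * θ * K))) * (W.card : ℝ))]
  have h6 : ρ ^ 2 / (10 * G) * (κ * θ * K ^ 2 * s ^ 2) ≤ (W.card : ℝ) := by
    have h7 : (10 * G * s ^ 2) * (ρ ^ 2 / (10 * G) * (κ * θ * K ^ 2 * s ^ 2)) ≤ (10 * G * s ^ 2) * (W.card : ℝ) := by
      refine le_trans (le_of_eq ?_) h5
      field_simp
    exact le_of_mul_le_mul_left h7 (by positivity)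
  have h7 : (Ne.card : ℝ) ≤ ρ ^ 2 / (20 * G) * (κ * θ * K ^ 2 * s ^ 2) := by
    refine h2.trans ?_
    have h8 := mul_le_mul_of_nonneg_right hκ2 (by positivity : 0 ≤ κ * θ * K ^ 2 * s ^ 2)
    refine le_trans (le_of_eq ?_) h8
    ring
  have h8 : ρ ^ 2 / (10 * G) * (κ * θ * K ^ 2 * s ^ 2) = 2 * (ρ ^ 2 / (20 * G) * (κ * θ * K ^ 2 * s ^ 2)) := by
    field_simp
    norm_num
  have h9 : κ * ρ ^ 2 / (40 * G) * θ * K ^ 2 * s ^ 2 = ρ ^ 2 / (20 * G) * (κ * θ * K ^ 2 * s ^ 2) / 2 := by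
    field_simp
    norm_num
  rw [h9]
  linarith

end

end Pool.Agent.Lib.MP_a768d2_coS
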