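import Pool.Agent.Lib.MP_a768d2_coS.Defs

/-!
# MP_a768d2_co, thin strips: Energy

Proof in words. Choose g with 4 Λ ≤ η 2 ^ g and n with Λ ^ 2 ≤ n τ (η / 2) ^ 2, n ≥ 1; J = n g. Let φ, a, h be given. For j, k let s j k = (φ (a + h (k + 1) / 2 ^ j) - φ (a + h k / 2 ^ j)) 2 ^ j / h, so |s j k| ≤ Λ, and
E j = (∑ k < 2 ^ j, (s j k) ^ 2) / 2 ^ j ∈ [0, Λ ^ 2]. As s j k is the average of s (j + g) (2 ^ g k + i), i < 2 ^ g (telescoping sum), E (j + g) - E j = (∑ k < 2 ^ j, V k) / 2 ^ j with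
V k = (∑ i < 2 ^ g, (s (j + g) (2 ^ g k + i) - s j k) ^ 2) / 2 ^ g ≥ 0. The sum of E ((i + 1) g) - E (i g) over i < n is ≤ Λ ^ 2, so some j = i g (i < n) has E (j + g) - E j ≤ Λ ^ 2 / n ≤ τ (η / 2) ^ 2.
T = the set of k < 2 ^ j with (η / 2) ^ 2 ≤ V k has at most τ 2 ^ j elements (Markov). For k ∉ T take the chord α = s j k, β such that α x + β = φ at the left end point x0 = a + h k / 2 ^ j. At the points x_i = x0 + h i / 2 ^ (j + g), i ≤ 2 ^ g:
|φ x_i - (α x_i + β)| = |∑ i' < i, (s (j + g) (2 ^ g k + i') - s j k)| h / 2 ^ (j + g) ≤ √(2 ^ g * 2 ^ g V k) h / 2 ^ (j + g) ≤ (η / 2) h / 2 ^ j (Cauchy-Schwarz). Any x in the interval has some x_i with |x - x_i| ≤ h / 2 ^ (j + g), and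
|φ x - φ x_i| + |α| |x - x_i| ≤ 2 Λ h / 2 ^ (j + g) ≤ (η / 2) h / 2 ^ j.
-/

set_option autoImplicit false

namespace Pool.Agent.Lib.MP_a768d2_coS

noncomputable section

open Finset

/-- difference quotients -/
private def energy_s (φ : ℝ → ℝ) (a h : ℝ) (j k : ℕ) : ℝ :=
  (φ (a + h * (k + 1) / 2 ^ j) - φ (a + h * k / 2 ^ j)) * 2 ^ j / h

private theorem energy_s_le {Λ a h : ℝ} {φ : ℝ → ℝ} (hφ : ∀ x y, |φ x - φ y| ≤ Λ * |x - y|)
    (hh : 0 < h) (j k : ℕ) : |energy_s φ a h j k| ≤ Λ := by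
  unfold energy_s
  have h2 : (0 : ℝ) < 2 ^ j := by positivity
  have h1 := hφ (a + h * (k + 1) / 2 ^ j) (a + h * k / 2 ^ j)
  have e : a + h * ((k : ℝ) + 1) / 2 ^ j - (a + h * k / 2 ^ j) = h / 2 ^ j := by
    field_simp
    ring
  rw [e, abs_of_pos (div_pos hh h2)] at h1
  rw [abs_div, abs_mul, abs_of_pos h2, abs_of_pos hh, div_le_iff₀ hh]
  calc |φ (a + h * (k + 1) / 2 ^ j) - φ (a + h * k / 2 ^ j)| * 2 ^ j ≤ Λ * (h / 2 ^ j) * 2 ^ j :=
        mul_le_mul_of_nonneg_right h1 h2.le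
    _ = Λ * h := by field_simp

private theorem energy_s_sum {φ : ℝ → ℝ} {a h : ℝ} (hh : 0 < h) (j g k i : ℕ) :
    φ (a + h * k / 2 ^ j + h * i / 2 ^ (j + g)) - φ (a + h * k / 2 ^ j) =
      (∑ i' ∈ range i, energy_s φ a h (j + g) (2 ^ g * k + i')) * (h / 2 ^ (j + g)) := by
  have h2 : (0 : ℝ) < 2 ^ (j + g) := by positivity
  induction i with
  | zero => simp
  | succ i ih =>
    rw [sum_range_succ, add_mul, ← ih]
    have e1 : a + h * k / 2 ^ j + h * ((i + 1 : ℕ) : ℝ) / 2 ^ (j + g) =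
        a + h * (((2 ^ g * k + i : ℕ) : ℝ) + 1) / 2 ^ (j + g) := by
      push_cast
      rw [pow_add]
      field_simp
      ring
    have e2 : a + h * k / 2 ^ j + h * (i : ℝ) / 2 ^ (j + g) =
        a + h * ((2 ^ g * k + i : ℕ) : ℝ) / 2 ^ (j + g) := by
      push_cast
      rw [pow_add]
      field_simp
      ring
    unfold energy_s
    rw [e1, e2]
    field_simp
    ring

private theorem energy_s_avg {φ : ℝ → ℝ} {a h : ℝ} (hh : 0 < h) (j g k : ℕ) :
    ∑ i ∈ range (2 ^ g), energy_s φ a h (j + g) (2 ^ g * k + i) = energy_s φ a h j k * 2 ^ g := by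
  have h2 : (0 : ℝ) < 2 ^ (j + g) := by positivity
  have h1 := energy_s_sum (φ := φ) (a := a) hh j g k (2 ^ g)
  have e1 : a + h * k / 2 ^ j + h * ((2 ^ g : ℕ) : ℝ) / 2 ^ (j + g) =
      a + h * ((k : ℝ) + 1) / 2 ^ j := by
    push_cast
    rw [pow_add]
    field_simp
    ring
  rw [e1] at h1
  have h3 : ∑ i ∈ range (2 ^ g), energy_s φ a h (j + g) (2 ^ g * k + i) =
      (φ (a + h * ((k : ℝ) + 1) / 2 ^ j) - φ (a + h * k / 2 ^ j)) / (h / 2 ^ (j + g)) := by
    rw [h1]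
    field_simp
  rw [h3]
  unfold energy_s
  rw [pow_add]
  field_simp

private theorem energy_block (f : ℕ → ℝ) (N K : ℕ) :
    ∑ n ∈ range (N * K), f n = ∑ k ∈ range K, ∑ i ∈ range N, f (N * k + i) := by
  induction K with
  | zero => simp
  | succ K ih => rw [Nat.mul_succ, sum_range_add, ih, sum_range_succ]

private def energy_E (φ : ℝ → ℝ) (a h : ℝ) (j : ℕ) : ℝ :=
  (∑ k ∈ range (2 ^ j), (energy_s φ a h j k) ^ 2) / 2 ^ j

private def energy_V (φ : ℝ → ℝ) (a h : ℝ) (j g k : ℕ) : ℝ :=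
  (∑ i ∈ range (2 ^ g), (energy_s φ a h (j + g) (2 ^ g * k + i) - energy_s φ a h j k) ^ 2) / 2 ^ g

private theorem energy_V_eq {φ : ℝ → ℝ} {a h : ℝ} (hh : 0 < h) (j g k : ℕ) :
    energy_V φ a h j g k = (∑ i ∈ range (2 ^ g), (energy_s φ a h (j + g) (2 ^ g * k + i)) ^ 2) / 2 ^ g
      - (energy_s φ a h j k) ^ 2 := by
  have h2 : (0 : ℝ) < 2 ^ g := by positivity
  have h1 := energy_s_avg (φ := φ) (a := a) hh j g k
  unfold energy_V
  have e : ∀ i, (energy_s φ a h (j + g) (2 ^ g * k + i) - energy_s φ a h j k) ^ 2 =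
      (energy_s φ a h (j + g) (2 ^ g * k + i)) ^ 2 -
        2 * energy_s φ a h j k * energy_s φ a h (j + g) (2 ^ g * k + i) +
        (energy_s φ a h j k) ^ 2 := fun i => by ring
  rw [sum_congr rfl fun i _ => e i, sum_add_distrib, sum_sub_distrib, ← mul_sum, h1, sum_const,
    card_range, nsmul_eq_mul]
  push_cast
  field_simp
  ring

private theorem energy_diff {φ : ℝ → ℝ} {a h : ℝ} (hh : 0 < h) (j g : ℕ) :
    (energy_E φ a h (j + g) - energy_E φ a h j) * 2 ^ j =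
      ∑ k ∈ range (2 ^ j), energy_V φ a h j g k := by
  have h1 : (0 : ℝ) < 2 ^ j := by positivity
  have h2 : (0 : ℝ) < 2 ^ g := by positivity
  rw [sum_congr rfl fun k _ => energy_V_eq hh j g k, sum_sub_distrib, ← sum_div]
  unfold energy_E
  have e : 2 ^ (j + g) = 2 ^ g * 2 ^ j := by rw [pow_add, Nat.mul_comm]
  rw [e, energy_block, pow_add]
  field_simp

private theorem energy_V_nonneg {φ : ℝ → ℝ} {a h : ℝ} (j g k : ℕ) : 0 ≤ energy_V φ a h j g k := by
  unfold energy_V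
  exact div_nonneg (sum_nonneg fun _ _ => sq_nonneg _) (by positivity)

private theorem energy_E_nonneg {φ : ℝ → ℝ} {a h : ℝ} (j : ℕ) : 0 ≤ energy_E φ a h j := by
  unfold energy_E
  exact div_nonneg (sum_nonneg fun _ _ => sq_nonneg _) (by positivity)

private theorem energy_E_le {Λ a h : ℝ} {φ : ℝ → ℝ} (hφ : ∀ x y, |φ x - φ y| ≤ Λ * |x - y|)
    (hh : 0 < h) (j : ℕ) : energy_E φ a h j ≤ Λ ^ 2 := by
  unfold energy_E
  have h1 : (0 : ℝ) < 2 ^ j := by positivity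
  rw [div_le_iff₀ h1]
  calc ∑ k ∈ range (2 ^ j), (energy_s φ a h j k) ^ 2 ≤ ∑ _k ∈ range (2 ^ j), Λ ^ 2 := by
        refine sum_le_sum fun k _ => ?_
        rw [← sq_abs]
        exact pow_le_pow_left₀ (abs_nonneg _) (energy_s_le hφ hh j k) 2
    _ = Λ ^ 2 * 2 ^ j := by
        rw [sum_const, card_range, nsmul_eq_mul]
        push_cast
        ring

/-- a Lipschitz function is nearly affine on most dyadic intervals of some bounded generation -/
theorem energy (Λ η τ : ℝ) (hΛ : 0 < Λ) (hη : 0 < η) (hτ : 0 < τ) (n g : ℕ) (hg' : 4 * Λ ≤ η * 2 ^ g) (hn0 : 0 < n)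
    (hn' : Λ ^ 2 < n * (τ * (η / 2) ^ 2)) (φ : ℝ → ℝ) (hφ : ∀ x y, |φ x - φ y| ≤ Λ * |x - y|) (a h : ℝ) (hh : 0 < h) :
    ∃ j : ℕ, j ≤ n * g ∧
      ∃ T : Finset ℕ, (T.card : ℝ) ≤ τ * 2 ^ j ∧ ∀ k : ℕ, k < 2 ^ j → k ∉ T →
        ∃ α β : ℝ, ∀ x : ℝ, a + h * k / 2 ^ j ≤ x → x ≤ a + h * (k + 1) / 2 ^ j →
          |φ x - (α * x + β)| ≤ η * (h / 2 ^ j) := by
  have hδ : 0 < τ * (η / 2) ^ 2 := by positivity
  have hN : (0 : ℝ) < 2 ^ g := by positivity
  -- the scale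
  obtain ⟨i, hin, hi⟩ : ∃ i < n, energy_E φ a h (i * g + g) - energy_E φ a h (i * g) ≤
      τ * (η / 2) ^ 2 := by
    by_contra hno
    push Not at hno
    have h1 : ∑ i ∈ range n, (energy_E φ a h ((i + 1) * g) - energy_E φ a h (i * g)) =
        energy_E φ a h (n * g) - energy_E φ a h (0 * g) :=
      sum_range_sub (fun i => energy_E φ a h (i * g)) n
    have h2 : ∑ _i ∈ range n, τ * (η / 2) ^ 2 ≤
        ∑ i ∈ range n, (energy_E φ a h ((i + 1) * g) - energy_E φ a h (i * g)) := by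
      refine sum_le_sum fun i hi => ?_
      rw [Nat.succ_mul]
      exact (hno i (mem_range.1 hi)).le
    rw [sum_const, card_range, nsmul_eq_mul, h1] at h2
    have h3 := energy_E_le (a := a) hφ hh (n * g)
    have h4 := energy_E_nonneg (φ := φ) (a := a) (h := h) (0 * g)
    linarith
  obtain ⟨j, hj⟩ : ∃ j, j = i * g := ⟨_, rfl⟩
  rw [← hj] at hi
  have hjJ : j ≤ n * g := by
    rw [hj]
    exact Nat.mul_le_mul_right g hin.le
  have hjp : (0 : ℝ) < 2 ^ j := by positivity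
  have hsum : ∑ k ∈ range (2 ^ j), energy_V φ a h j g k ≤ τ * (η / 2) ^ 2 * 2 ^ j := by
    rw [← energy_diff hh]
    exact mul_le_mul_of_nonneg_right hi hjp.le
  refine ⟨j, hjJ, (range (2 ^ j)).filter (fun k => (η / 2) ^ 2 ≤ energy_V φ a h j g k), ?_, ?_⟩
  · have h1 : (((range (2 ^ j)).filter (fun k => (η / 2) ^ 2 ≤ energy_V φ a h j g k)).card : ℝ) *
        (η / 2) ^ 2 ≤ τ * 2 ^ j * (η / 2) ^ 2 := by
      calc (((range (2 ^ j)).filter (fun k => (η / 2) ^ 2 ≤ energy_V φ a h j g k)).card : ℝ) *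
            (η / 2) ^ 2 = ∑ _k ∈ (range (2 ^ j)).filter
              (fun k => (η / 2) ^ 2 ≤ energy_V φ a h j g k), (η / 2) ^ 2 := by
            rw [sum_const, nsmul_eq_mul]
        _ ≤ ∑ k ∈ (range (2 ^ j)).filter
              (fun k => (η / 2) ^ 2 ≤ energy_V φ a h j g k), energy_V φ a h j g k :=
            sum_le_sum fun k hk => (mem_filter.1 hk).2
        _ ≤ ∑ k ∈ range (2 ^ j), energy_V φ a h j g k :=
            sum_le_sum_of_subset_of_nonneg (filter_subset _ _) fun k _ _ => energy_V_nonneg j g k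
        _ ≤ τ * (η / 2) ^ 2 * 2 ^ j := hsum
        _ = τ * 2 ^ j * (η / 2) ^ 2 := by ring
    exact le_of_mul_le_mul_right h1 (by positivity)
  · intro k hk hkT
    have hV : energy_V φ a h j g k ≤ (η / 2) ^ 2 := by
      by_contra hno
      exact hkT (mem_filter.2 ⟨mem_range.2 hk, (not_le.1 hno).le⟩)
    obtain ⟨x0, hx0⟩ : ∃ x0, x0 = a + h * k / 2 ^ j := ⟨_, rfl⟩
    obtain ⟨α, hα⟩ : ∃ α, α = energy_s φ a h j k := ⟨_, rfl⟩
    have hαΛ : |α| ≤ Λ := hα ▸ energy_s_le hφ hh j k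
    refine ⟨α, φ x0 - α * x0, fun x hx1 hx2 => ?_⟩
    have hm : (0 : ℝ) < 2 ^ (j + g) := by positivity
    -- the grid point
    obtain ⟨t, ht⟩ : ∃ t, t = ⌊(x - x0) * 2 ^ (j + g) / h⌋₊ := ⟨_, rfl⟩
    have hz0 : 0 ≤ (x - x0) * 2 ^ (j + g) / h := by
      refine div_nonneg (mul_nonneg ?_ hm.le) hh.le
      rw [hx0]
      linarith
    have ht1 : (t : ℝ) ≤ (x - x0) * 2 ^ (j + g) / h := ht ▸ Nat.floor_le hz0
    have ht2 : (x - x0) * 2 ^ (j + g) / h < t + 1 := ht ▸ Nat.lt_floor_add_one _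
    have ht3 : h * t / 2 ^ (j + g) ≤ x - x0 := by
      rw [div_le_iff₀ hm]
      rw [le_div_iff₀ hh] at ht1
      linarith
    have ht4 : x - x0 ≤ h * t / 2 ^ (j + g) + h / 2 ^ (j + g) := by
      rw [← add_div, le_div_iff₀ hm]
      rw [div_lt_iff₀ hh] at ht2
      linarith
    have htN : t ≤ 2 ^ g := by
      have h1 : (t : ℝ) ≤ ((2 ^ g : ℕ) : ℝ) := by
        refine ht1.trans ?_
        push_cast
        rw [div_le_iff₀ hh]
        have h2 : x - x0 ≤ h / 2 ^ j := by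
          rw [hx0]
          have e : a + h * ((k : ℝ) + 1) / 2 ^ j = a + h * k / 2 ^ j + h / 2 ^ j := by
            field_simp
            ring
          linarith
        calc (x - x0) * 2 ^ (j + g) ≤ h / 2 ^ j * 2 ^ (j + g) :=
              mul_le_mul_of_nonneg_right h2 hm.le
          _ = 2 ^ g * h := by
              rw [pow_add]
              field_simp
      exact_mod_cast h1
    -- the value at the grid point
    have hs := energy_s_sum (φ := φ) (a := a) hh j g k t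
    rw [← hx0] at hs
    have h5 : φ (x0 + h * t / 2 ^ (j + g)) - (α * (x0 + h * t / 2 ^ (j + g)) + (φ x0 - α * x0)) =
        (∑ i' ∈ range t, (energy_s φ a h (j + g) (2 ^ g * k + i') - α)) * (h / 2 ^ (j + g)) := by
      rw [sum_sub_distrib, sub_mul, ← hs, sum_const, card_range, nsmul_eq_mul]
      ring
    have h6 : |∑ i' ∈ range t, (energy_s φ a h (j + g) (2 ^ g * k + i') - α)| ≤
        2 ^ g * (η / 2) := by
      refine abs_le_of_sq_le_sq ?_ (by positivity)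
      have h7 : (∑ i' ∈ range t, (energy_s φ a h (j + g) (2 ^ g * k + i') - α)) ^ 2 ≤
          t * ∑ i' ∈ range t, (energy_s φ a h (j + g) (2 ^ g * k + i') - α) ^ 2 := by
        have h8 := sq_sum_le_card_mul_sum_sq (s := range t)
          (f := fun i' => energy_s φ a h (j + g) (2 ^ g * k + i') - α)
        rwa [card_range] at h8
      have h8 : ∑ i' ∈ range t, (energy_s φ a h (j + g) (2 ^ g * k + i') - α) ^ 2 ≤
          ∑ i' ∈ range (2 ^ g), (energy_s φ a h (j + g) (2 ^ g * k + i') - α) ^ 2 :=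
        sum_le_sum_of_subset_of_nonneg (range_subset_range.2 htN) fun _ _ _ => sq_nonneg _
      have h9 : ∑ i' ∈ range (2 ^ g), (energy_s φ a h (j + g) (2 ^ g * k + i') - α) ^ 2 ≤
          (η / 2) ^ 2 * 2 ^ g := by
        rw [hα]
        unfold energy_V at hV
        exact (div_le_iff₀ hN).1 hV
      have h10 : (t : ℝ) ≤ 2 ^ g := by exact_mod_cast htN
      calc _ ≤ (t : ℝ) * ∑ i' ∈ range t, (energy_s φ a h (j + g) (2 ^ g * k + i') - α) ^ 2 := h7
        _ ≤ 2 ^ g * ((η / 2) ^ 2 * 2 ^ g) :=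
            mul_le_mul h10 (h8.trans h9) (sum_nonneg fun _ _ => sq_nonneg _) hN.le
        _ = (2 ^ g * (η / 2)) ^ 2 := by ring
    have h11 : |φ (x0 + h * t / 2 ^ (j + g)) -
        (α * (x0 + h * t / 2 ^ (j + g)) + (φ x0 - α * x0))| ≤ η / 2 * (h / 2 ^ j) := by
      rw [h5, abs_mul, abs_of_pos (div_pos hh hm)]
      calc _ ≤ 2 ^ g * (η / 2) * (h / 2 ^ (j + g)) :=
            mul_le_mul_of_nonneg_right h6 (div_pos hh hm).le
        _ = η / 2 * (h / 2 ^ j) := by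
            rw [pow_add]
            field_simp
    have h12 : |x - (x0 + h * t / 2 ^ (j + g))| ≤ h / 2 ^ (j + g) := by
      rw [abs_le]
      constructor
      · have := (div_pos hh hm).le
        linarith
      · linarith
    have h13 : |φ x - φ (x0 + h * t / 2 ^ (j + g))| ≤ Λ * (h / 2 ^ (j + g)) :=
      (hφ _ _).trans (mul_le_mul_of_nonneg_left h12 hΛ.le)
    have h14 : |α * (x - (x0 + h * t / 2 ^ (j + g)))| ≤ Λ * (h / 2 ^ (j + g)) := by
      rw [abs_mul]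
      exact mul_le_mul hαΛ h12 (abs_nonneg _) hΛ.le
    have h15 : 2 * Λ * (h / 2 ^ (j + g)) ≤ η / 2 * (h / 2 ^ j) := by
      have e : 2 * Λ * (h / 2 ^ (j + g)) = 4 * Λ * (h / 2 ^ (j + g)) / 2 := by ring
      have e2 : η / 2 * (h / 2 ^ j) = η * 2 ^ g * (h / 2 ^ (j + g)) / 2 := by
        rw [pow_add]
        field_simp
      rw [e, e2]
      have := mul_le_mul_of_nonneg_right hg' (div_pos hh hm).le
      linarith
    have e3 : φ x - (α * x + (φ x0 - α * x0)) = (φ x - φ (x0 + h * t / 2 ^ (j + g))) +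
        (φ (x0 + h * t / 2 ^ (j + g)) - (α * (x0 + h * t / 2 ^ (j + g)) + (φ x0 - α * x0))) -
        α * (x - (x0 + h * t / 2 ^ (j + g))) := by ring
    rw [e3]
    refine (abs_sub _ _).trans ((add_le_add (abs_add_le _ _) le_rfl).trans ?_)
    linarith

end

end Pool.Agent.Lib.MP_a768d2_coS
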