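import Pool.Agent.Lib.MP_a768d2_coS.Defs
import Pool.Agent.Lib.MP_a768d2_coS.Energy

/-!
# MP_a768d2_co, thin strips: Flat

Proof in words. Put η = min (δ / (32 h0)) (c δ ^ 2 / (10000 h0 ^ 2)) (or smaller), τ = δ c / (8 h0), Λ = 1 / c, J from `energy Λ η τ`. σ0 small such that 2 ^ J ≤ 2 h0 / (c σ0), and 1000 * 2 ^ J ≤ δ / σ0 (in particular δ / (2 σ 2 ^ j) ≥ 4).
1. X is a Lipschitz function of h: the function f h = p.1 if p ∈ S, p.2 = h (well defined as c |p.1 - q.1| ≤ |p.2 - q.2|) is Lipschitz with constant 1 / c on the set of second coordinates; extend it to φ : ℝ → ℝ (LipschitzOnWith.extend_real), φ p.2 = p.1 for p ∈ S.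
2. energy with a = - h0, h = 2 h0 gives j ≤ J, T. Write J_k = [a + h k / 2 ^ j, a + h (k + 1) / 2 ^ j], |J_k| = h / 2 ^ j; every p ∈ S has p.2 in some J_k, k < 2 ^ j. S_k = {p ∈ S : p.2 ∈ J_k}. Distinct points have |p.2 - q.2| ≥ c σ, so card S_k ≤ |J_k| / (c σ) + 1.
 So the k ∈ T contribute at most τ 2 ^ j (2 h0 / (2 ^ j c σ) + 1) ≤ 4 τ h0 / (c σ) ≤ δ / (2 σ) points. So some k ∉ T, k < 2 ^ j has card S_k ≥ δ / (2 σ 2 ^ j) = δ |J_k| / (4 h0 σ) =: n0 ≥ 4.
3. On this J = J_k: |p.1 - (α p.2 + β)| ≤ η |J| for p ∈ S_k. The numbers p.1, p ∈ S_k, are σ-separated, so two of them differ by at least (card S_k - 1) σ ≥ card S_k σ / 2, so δ |J| / (8 h0) ≤ |α| |J| + 2 η |J|, hence |α| ≥ δ / (16 h0) > 0.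
4. F p = p.1 - α p.2 - β ∈ [- η |J|, η |J|]. Cells of length w = c σ |α| / 4: at most 2 η |J| / w + 1 cells, each with at most two points: three distinct points in one cell, p, z with extreme first coordinates, q between:
 α dt p q z = - (q.1 - p.1) (F z - F p) + (F q - F p) (z.1 - p.1) (ring), so |dt p q z| ≤ 2 w |z.1 - p.1| / |α| = c σ / 2 |z.1 - p.1| < c σ |z.1 - p.1|, against Fat.
 So card S_k ≤ 2 (2 η |J| / w + 1), and card S_k ≥ 4 gives card S_k ≤ 2 * (4 η |J| / w) = 32 η |J| / (c σ |α|) (or sharper). With card S_k ≥ δ |J| / (4 h0 σ): |α| ≤ 128 η h0 / (c δ). With |α| ≥ δ / (16 h0): c δ ^ 2 ≤ 2048 η h0 ^ 2, against the choice of η.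
-/

set_option autoImplicit false

namespace Pool.Agent.Lib.MP_a768d2_coS

noncomputable section

open Finset

/-- counting by cells -/
private theorem flat_cells (S : Finset (ℝ × ℝ)) (g : ℝ × ℝ → ℝ) (u L w : ℝ) (hw : 0 < w)
    (hL : 0 ≤ L) (n : ℕ) (hg : ∀ p ∈ S, u ≤ g p ∧ g p ≤ u + L)
    (hf : ∀ T : Finset (ℝ × ℝ), T ⊆ S → (∀ p ∈ T, ∀ q ∈ T, |g p - g q| < w) → T.card ≤ n) :
    (S.card : ℝ) ≤ n * (L / w + 1) := by
  classical
  have h1 : S.card ≤ n * (S.image fun p => ⌊(g p - u) / w⌋₊).card := by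
    apply Finset.card_le_mul_card_image
    intro b hb
    apply hf
    · exact Finset.filter_subset _ _
    · intro p hp q hq
      rw [Finset.mem_filter] at hp hq
      have hpu : 0 ≤ (g p - u) / w := div_nonneg (by linarith [(hg p hp.1).1]) hw.le
      have hqu : 0 ≤ (g q - u) / w := div_nonneg (by linarith [(hg q hq.1).1]) hw.le
      have e1 := Nat.floor_le hpu
      have e2 := Nat.lt_floor_add_one ((g p - u) / w)
      have e3 := Nat.floor_le hqu
      have e4 := Nat.lt_floor_add_one ((g q - u) / w)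
      rw [hp.2] at e1 e2
      rw [hq.2] at e3 e4
      rw [le_div_iff₀ hw] at e1 e3
      rw [div_lt_iff₀ hw] at e2 e4
      rw [abs_lt]
      constructor <;> nlinarith
  have h2 : (S.image fun p => ⌊(g p - u) / w⌋₊) ⊆ Finset.range (⌊L / w⌋₊ + 1) := by
    intro b hb
    rw [Finset.mem_image] at hb
    obtain ⟨p, hp, rfl⟩ := hb
    rw [Finset.mem_range, Nat.lt_succ_iff]
    apply Nat.floor_le_floor
    apply div_le_div_of_nonneg_right _ hw.le
    linarith [(hg p hp).2]
  have h3 : (((S.image fun p => ⌊(g p - u) / w⌋₊).card : ℕ) : ℝ) ≤ L / w + 1 := by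
    have h4 := Finset.card_le_card h2
    rw [Finset.card_range] at h4
    calc (((S.image fun p => ⌊(g p - u) / w⌋₊).card : ℕ) : ℝ)
        ≤ ((⌊L / w⌋₊ + 1 : ℕ) : ℝ) := by exact_mod_cast h4
      _ = (⌊L / w⌋₊ : ℝ) + 1 := by push_cast; ring
      _ ≤ L / w + 1 := by
          have := Nat.floor_le (div_nonneg hL hw.le)
          linarith
  calc (S.card : ℝ) ≤ ((n * (S.image fun p => ⌊(g p - u) / w⌋₊).card : ℕ) : ℝ) := by
        exact_mod_cast h1
    _ = n * (((S.image fun p => ⌊(g p - u) / w⌋₊).card : ℕ) : ℝ) := by push_cast; ring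
    _ ≤ n * (L / w + 1) := mul_le_mul_of_nonneg_left h3 (Nat.cast_nonneg n)

/-- counting separated points -/
private theorem flat_sep (S : Finset (ℝ × ℝ)) (g : ℝ × ℝ → ℝ) (u L w : ℝ) (hw : 0 < w)
    (hL : 0 ≤ L) (hg : ∀ p ∈ S, u ≤ g p ∧ g p ≤ u + L)
    (hs : ∀ p ∈ S, ∀ q ∈ S, p ≠ q → w ≤ |g p - g q|) :
    (S.card : ℝ) ≤ L / w + 1 := by
  have h := flat_cells S g u L w hw hL 1 hg (by
    intro T hT hTw
    rw [Finset.card_le_one]
    intro p hp q hq
    by_contra hne
    exact absurd (hTw p hp q hq) (not_lt.mpr (hs p (hT hp) q (hT hq) hne)))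
  push_cast at h
  linarith

/-- the interpolating Lipschitz function -/
private theorem flat_ext (c : ℝ) (hc : 0 < c) (S : Finset (ℝ × ℝ))
    (hS : ∀ p ∈ S, ∀ q ∈ S, c * |p.1 - q.1| ≤ |p.2 - q.2|) :
    ∃ φ : ℝ → ℝ, (∀ x y, |φ x - φ y| ≤ 1 / c * |x - y|) ∧ ∀ p ∈ S, φ p.2 = p.1 := by
  classical
  have hc' : (0 : ℝ) ≤ 1 / c := by positivity
  have key : ∀ p ∈ S, ∀ q ∈ S, |p.1 - q.1| ≤ 1 / c * |p.2 - q.2| := by
    intro p hp q hq
    rw [one_div, ← div_eq_inv_mul, le_div_iff₀ hc]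
    linarith [hS p hp q hq]
  let f : ℝ → ℝ := fun t => if h : ∃ p ∈ S, p.2 = t then (Classical.choose h).1 else 0
  have hfS : ∀ p ∈ S, f p.2 = p.1 := by
    intro p hp
    have hex : ∃ q ∈ S, q.2 = p.2 := ⟨p, hp, rfl⟩
    have h1 : f p.2 = (Classical.choose hex).1 := dif_pos hex
    have h2 := Classical.choose_spec hex
    have h3 := key _ h2.1 p hp
    rw [h2.2, sub_self, abs_zero, mul_zero] at h3
    have h4 := abs_nonpos_iff.mp h3
    rw [h1]
    linarith
  have hlip : LipschitzOnWith (Real.toNNReal (1 / c)) f {t | ∃ p ∈ S, p.2 = t} := by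
    apply LipschitzOnWith.of_dist_le_mul
    rintro x ⟨p, hp, rfl⟩ y ⟨q, hq, rfl⟩
    rw [hfS p hp, hfS q hq, Real.dist_eq, Real.dist_eq, Real.coe_toNNReal _ hc']
    exact key p hp q hq
  obtain ⟨φ, hφ, heq⟩ := hlip.extend_real
  refine ⟨φ, ?_, ?_⟩
  · intro x y
    have h := hφ.dist_le_mul x y
    rw [Real.dist_eq, Real.dist_eq, Real.coe_toNNReal _ hc'] at h
    exact h
  · intro p hp
    rw [← heq ⟨p, hp, rfl⟩]
    exact hfS p hp

/-- no three points in one cell, ordered version -/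
private theorem flat_three (c σ α β w : ℝ) (hc : 0 < c) (hσ : 0 < σ) (hα : 0 < |α|)
    (hw : w = c * σ * |α| / 4) (S : Finset (ℝ × ℝ))
    (hsep : ∀ p ∈ S, ∀ q ∈ S, p ≠ q → σ ≤ |p.1 - q.1|) (hF : Fat (c * σ) S)
    (p q z : ℝ × ℝ) (hp : p ∈ S) (hq : q ∈ S) (hz : z ∈ S) (hpq : p ≠ q) (hqz : q ≠ z)
    (hpz : p ≠ z) (h1 : p.1 ≤ q.1) (h2 : q.1 ≤ z.1)
    (h3 : |(q.1 - α * q.2 - β) - (p.1 - α * p.2 - β)| < w)
    (h4 : |(z.1 - α * z.2 - β) - (p.1 - α * p.2 - β)| < w) : False := by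
  have e : α * dt p q z = - (q.1 - p.1) * ((z.1 - α * z.2 - β) - (p.1 - α * p.2 - β))
      + ((q.1 - α * q.2 - β) - (p.1 - α * p.2 - β)) * (z.1 - p.1) := by
    unfold dt
    ring
  have hz0 : 0 ≤ z.1 - p.1 := by linarith
  have hq0 : 0 ≤ q.1 - p.1 := by linarith
  have hw0 : 0 ≤ w := by rw [hw]; positivity
  have b1 : |α| * |dt p q z| ≤ 2 * w * (z.1 - p.1) := by
    rw [← abs_mul, e]
    calc |(- (q.1 - p.1) * ((z.1 - α * z.2 - β) - (p.1 - α * p.2 - β))
          + ((q.1 - α * q.2 - β) - (p.1 - α * p.2 - β)) * (z.1 - p.1))|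
        ≤ |(- (q.1 - p.1) * ((z.1 - α * z.2 - β) - (p.1 - α * p.2 - β)))|
          + |(((q.1 - α * q.2 - β) - (p.1 - α * p.2 - β)) * (z.1 - p.1))| := abs_add_le _ _
      _ = (q.1 - p.1) * |((z.1 - α * z.2 - β) - (p.1 - α * p.2 - β))|
          + |((q.1 - α * q.2 - β) - (p.1 - α * p.2 - β))| * (z.1 - p.1) := by
          rw [abs_mul, abs_mul, abs_neg, abs_of_nonneg hq0, abs_of_nonneg hz0]
      _ ≤ (z.1 - p.1) * w + w * (z.1 - p.1) := by
          apply add_le_add
          · exact mul_le_mul (by linarith) h4.le (abs_nonneg _) hz0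
          · exact mul_le_mul_of_nonneg_right h3.le hz0
      _ = 2 * w * (z.1 - p.1) := by ring
  have b2 := hF p hp q hq z hz hpq hqz hpz
  rw [abs_of_nonneg hz0] at b2
  have b3 : |α| * (c * σ * (z.1 - p.1)) ≤ |α| * |dt p q z| :=
    mul_le_mul_of_nonneg_left b2 hα.le
  have b4 : σ ≤ z.1 - p.1 := by
    have := hsep z hz p hp (Ne.symm hpz)
    rwa [abs_of_nonneg hz0] at this
  have b5 : 0 < |α| * (c * σ * (z.1 - p.1)) := by
    have : 0 < z.1 - p.1 := by linarith
    positivity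
  rw [hw] at b1
  nlinarith

/-- a separated set which is a steep graph and has no thin triples is sparse -/
theorem flat (c h0 δ η : ℝ) (hc : 0 < c) (hh : 0 < h0) (hδ : 0 < δ) (hη : 0 < η) (hη1 : η ≤ δ / (32 * h0))
    (hη2 : η ≤ c * δ ^ 2 / (2048 * h0 ^ 2)) (n g : ℕ) (hg : 4 * (1 / c) ≤ η * 2 ^ g) (hn0 : 0 < n)
    (hn : (1 / c) ^ 2 < n * (δ * c / (16 * h0) * (η / 2) ^ 2)) (σ : ℝ) (hσ : 0 < σ)
    (hσ1 : σ ≤ 2 * h0 / (c * 2 ^ (n * g))) (hσ2 : σ ≤ δ / (8 * 2 ^ (n * g)))
    (S : Finset (ℝ × ℝ)) (hbox : ∀ p ∈ S, (0 ≤ p.1 ∧ p.1 ≤ 1) ∧ |p.2| ≤ h0)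
    (hsep : ∀ p ∈ S, ∀ q ∈ S, p ≠ q → σ ≤ |p.1 - q.1|)
    (hsteep : ∀ p ∈ S, ∀ q ∈ S, c * |p.1 - q.1| ≤ |p.2 - q.2|)
    (hFat : Fat (c * σ) S) (hcard : δ / σ ≤ (S.card : ℝ)) : False := by
  classical
  obtain ⟨J, hJd⟩ : ∃ J : ℕ, J = n * g := ⟨_, rfl⟩
  rw [← hJd] at hσ1 hσ2
  have h2J : (0 : ℝ) < 2 ^ J := by positivity
  obtain ⟨φ, hφ1, hφ2⟩ := flat_ext c hc S hsteep
  obtain ⟨j, hjJ, T, hT, hφ3⟩ := energy (1 / c) η (δ * c / (16 * h0)) (by positivity) hη (by positivity) n g hg hn0 hn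
    φ hφ1 (-h0) (2 * h0) (by positivity)
  rw [← hJd] at hjJ
  have h2j : (0 : ℝ) < 2 ^ j := by positivity
  have h2jJ : (2 : ℝ) ^ j ≤ 2 ^ J := pow_le_pow_right₀ (by norm_num) hjJ
  -- the length of the intervals
  set l : ℝ := 2 * h0 / 2 ^ j with hl
  have hl0 : 0 < l := by positivity
  -- the index of a point
  set kk : ℝ × ℝ → ℕ := fun p => min ⌊(p.2 + h0) / l⌋₊ (2 ^ j - 1) with hkk
  have hpow : 1 ≤ 2 ^ j := Nat.one_le_two_pow
  have hkk1 : ∀ p ∈ S, kk p < 2 ^ j := by
    intro p hp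
    have : kk p ≤ 2 ^ j - 1 := min_le_right _ _
    omega
  have hlj : l * 2 ^ j = 2 * h0 := by
    rw [hl]
    field_simp
  have hkk2 : ∀ p ∈ S, -h0 + 2 * h0 * (kk p : ℕ) / 2 ^ j ≤ p.2 ∧
      p.2 ≤ -h0 + 2 * h0 * ((kk p : ℕ) + 1) / 2 ^ j := by
    intro p hp
    have hb := (hbox p hp).2
    rw [abs_le] at hb
    have hnn : 0 ≤ (p.2 + h0) / l := div_nonneg (by linarith) hl0.le
    have e1 := Nat.floor_le hnn
    have e2 := Nat.lt_floor_add_one ((p.2 + h0) / l)
    rw [le_div_iff₀ hl0] at e1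
    rw [div_lt_iff₀ hl0] at e2
    have r1 : 2 * h0 * (kk p : ℕ) / 2 ^ j = l * (kk p : ℕ) := by
      rw [hl]; ring
    have r2 : 2 * h0 * ((kk p : ℕ) + 1) / 2 ^ j = l * ((kk p : ℕ) + 1) := by
      rw [hl]; ring
    rw [r1, r2]
    constructor
    · have h5 : ((kk p : ℕ) : ℝ) ≤ (⌊(p.2 + h0) / l⌋₊ : ℝ) := by
        exact_mod_cast (min_le_left _ _ : kk p ≤ ⌊(p.2 + h0) / l⌋₊)
      have h6 := mul_le_mul_of_nonneg_left h5 hl0.le
      linarith
    · rcases le_total ⌊(p.2 + h0) / l⌋₊ (2 ^ j - 1) with hle | hle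
      · have h7 : kk p = ⌊(p.2 + h0) / l⌋₊ := min_eq_left hle
        rw [h7]
        linarith
      · have h7 : kk p = 2 ^ j - 1 := min_eq_right hle
        have h8 : ((kk p : ℕ) : ℝ) + 1 = 2 ^ j := by
          rw [h7, Nat.cast_sub hpow]
          push_cast
          ring
        rw [h8, hlj]
        linarith
  -- the number of points in one interval
  have hM : ∀ k : ℕ, ((S.filter fun p => kk p = k).card : ℝ) ≤ 2 * (l / (c * σ)) := by
    intro k
    have h1 := flat_sep (S.filter fun p => kk p = k) (fun p => p.2) (-h0 + l * k) l (c * σ)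
      (by positivity) hl0.le (by
        intro p hp
        rw [Finset.mem_filter] at hp
        have h2 := hkk2 p hp.1
        rw [hp.2] at h2
        have r1 : 2 * h0 * (k : ℝ) / 2 ^ j = l * k := by
          rw [hl]; ring
        have r2 : 2 * h0 * ((k : ℝ) + 1) / 2 ^ j = l * (k + 1) := by
          rw [hl]; ring
        rw [r1, r2] at h2
        constructor
        · exact h2.1
        · linarith [h2.2]) (by
        intro p hp q hq hne
        rw [Finset.mem_filter] at hp hq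
        have h3 := hsteep p hp.1 q hq.1
        have h4 := hsep p hp.1 q hq.1 hne
        have h5 := mul_le_mul_of_nonneg_left h4 hc.le
        exact h5.trans h3)
    have h6 : 1 ≤ l / (c * σ) := by
      rw [le_div_iff₀ (by positivity), one_mul, hl, le_div_iff₀ h2j]
      rw [le_div_iff₀ (by positivity)] at hσ1
      have h7 : c * σ * 2 ^ j ≤ c * σ * 2 ^ J := mul_le_mul_of_nonneg_left h2jJ (by positivity)
      linarith
    linarith
  -- a good interval
  have hgood : ∃ k : ℕ, k < 2 ^ j ∧ k ∉ T ∧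
      δ / (2 * σ * 2 ^ j) ≤ ((S.filter fun p => kk p = k).card : ℝ) := by
    by_contra hcon
    push Not at hcon
    have h1 : S.card = ∑ k ∈ Finset.range (2 ^ j), (S.filter fun p => kk p = k).card :=
      Finset.card_eq_sum_card_fiberwise (fun p hp => by
        simpa using hkk1 p hp)
    have h2 : (S.card : ℝ) = ∑ k ∈ Finset.range (2 ^ j),
        ((S.filter fun p => kk p = k).card : ℝ) := by
      rw [h1]
      push_cast
      rfl
    have h3 : ∀ k ∈ Finset.range (2 ^ j), ((S.filter fun p => kk p = k).card : ℝ) ≤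
        (if k ∈ T then 2 * (l / (c * σ)) else 0) + δ / (2 * σ * 2 ^ j) := by
      intro k hk
      rw [Finset.mem_range] at hk
      have h4 : 0 < δ / (2 * σ * 2 ^ j) := by positivity
      by_cases hkT : k ∈ T
      · rw [if_pos hkT]
        linarith [hM k]
      · rw [if_neg hkT, zero_add]
        exact (hcon k hk hkT).le
    have h5 : (S.card : ℝ) ≤ (T.card : ℝ) * (2 * (l / (c * σ))) + δ / (2 * σ) := by
      rw [h2]
      calc ∑ k ∈ Finset.range (2 ^ j), ((S.filter fun p => kk p = k).card : ℝ)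
          ≤ ∑ k ∈ Finset.range (2 ^ j),
              ((if k ∈ T then 2 * (l / (c * σ)) else 0) + δ / (2 * σ * 2 ^ j)) :=
            Finset.sum_le_sum h3
        _ = (∑ k ∈ Finset.range (2 ^ j), (if k ∈ T then 2 * (l / (c * σ)) else 0))
              + 2 ^ j * (δ / (2 * σ * 2 ^ j)) := by
            rw [Finset.sum_add_distrib, Finset.sum_const, Finset.card_range, nsmul_eq_mul]
            push_cast
            rfl
        _ ≤ (T.card : ℝ) * (2 * (l / (c * σ))) + δ / (2 * σ) := by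
            apply add_le_add
            · rw [← Finset.sum_filter, Finset.sum_const, nsmul_eq_mul]
              apply mul_le_mul_of_nonneg_right _ (by positivity)
              have h6 : (Finset.range (2 ^ j)).filter (fun k => k ∈ T) ⊆ T := by
                intro k hk
                exact (Finset.mem_filter.mp hk).2
              exact_mod_cast Finset.card_le_card h6
            · apply le_of_eq
              field_simp
    have h6 : (T.card : ℝ) * (2 * (l / (c * σ))) ≤ δ / (4 * σ) := by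
      calc (T.card : ℝ) * (2 * (l / (c * σ)))
          ≤ (δ * c / (16 * h0) * 2 ^ j) * (2 * (l / (c * σ))) :=
            mul_le_mul_of_nonneg_right hT (by positivity)
        _ = δ / (4 * σ) := by
            rw [hl]
            field_simp
            ring
    have h7 : δ / (4 * σ) + δ / (2 * σ) < δ / σ := by
      have h8 : δ / (4 * σ) = δ / σ / 4 := by
        field_simp
      have h9 : δ / (2 * σ) = δ / σ / 2 := by
        field_simp
      have h10 : 0 < δ / σ := by positivity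
      rw [h8, h9]
      linarith
    linarith
  obtain ⟨k, hk1, hk2, hk3⟩ := hgood
  obtain ⟨α, β, hab⟩ := hφ3 k hk1 hk2
  set Sk : Finset (ℝ × ℝ) := S.filter fun p => kk p = k with hSk
  have hSkS : Sk ⊆ S := Finset.filter_subset _ _
  have hn4 : 4 ≤ δ / (2 * σ * 2 ^ j) := by
    rw [le_div_iff₀ (by positivity)]
    rw [le_div_iff₀ (by positivity)] at hσ2
    have h7 : σ * (8 * 2 ^ j) ≤ σ * (8 * 2 ^ J) :=
      mul_le_mul_of_nonneg_left (by linarith) hσ.le
    linarith
  have hloc : ∀ p ∈ Sk, |p.1 - (α * p.2 + β)| ≤ η * l := by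
    intro p hp
    rw [hSk, Finset.mem_filter] at hp
    have h1 := hkk2 p hp.1
    rw [hp.2] at h1
    have h2 := hab p.2 h1.1 h1.2
    rw [hφ2 p hp.1] at h2
    exact h2
  have hint : ∀ p ∈ Sk, -h0 + l * k ≤ p.2 ∧ p.2 ≤ -h0 + l * k + l := by
    intro p hp
    rw [hSk, Finset.mem_filter] at hp
    have h2 := hkk2 p hp.1
    rw [hp.2] at h2
    have r1 : 2 * h0 * (k : ℝ) / 2 ^ j = l * k := by
      rw [hl]; ring
    have r2 : 2 * h0 * ((k : ℝ) + 1) / 2 ^ j = l * (k + 1) := by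
      rw [hl]; ring
    rw [r1, r2] at h2
    exact ⟨h2.1, by linarith [h2.2]⟩
  have hn0 : δ / (2 * σ * 2 ^ j) = δ * l / (4 * h0 * σ) := by
    rw [hl]
    field_simp
    ring
  -- lower bound for the slope
  have hα1 : δ / (8 * h0) ≤ |α| := by
    have h1 := flat_sep Sk (fun p => p.1)
      (α * (-h0 + l * k + l / 2) + β - |α| * (l / 2) - η * l) ((|α| + 2 * η) * l) σ hσ
      (by positivity) (by
        intro p hp
        have h2 := abs_le.mp (hloc p hp)
        have h3 := hint p hp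
        have h4 : |α * (p.2 - (-h0 + l * k + l / 2))| ≤ |α| * (l / 2) := by
          rw [abs_mul]
          apply mul_le_mul_of_nonneg_left _ (abs_nonneg α)
          rw [abs_le]
          constructor <;> linarith [h3.1, h3.2]
        have h5 := abs_le.mp h4
        constructor
        · linarith [h5.1, h2.1]
        · linarith [h5.2, h2.2]) (fun p hp q hq hne => hsep p (hSkS hp) q (hSkS hq) hne)
    rw [hn0] at hk3 hn4
    have h6 : 3 / 4 * (δ * l / (4 * h0 * σ)) ≤ (|α| + 2 * η) * l / σ := by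
      linarith
    have h7 : 3 / 4 * (δ * l / (4 * h0 * σ)) = (3 * δ / (16 * h0)) * (l / σ) := by
      field_simp
      ring
    have h8 : (|α| + 2 * η) * l / σ = (|α| + 2 * η) * (l / σ) := by ring
    rw [h7, h8] at h6
    have h9 := le_of_mul_le_mul_right h6 (by positivity : 0 < l / σ)
    have h10 : 3 * δ / (16 * h0) = δ / (8 * h0) + 2 * (δ / (32 * h0)) := by
      field_simp
      ring
    rw [h10] at h9
    linarith
  have hα0 : 0 < |α| := lt_of_lt_of_le (by positivity) hα1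
  -- upper bound for the number of points
  have hup : (Sk.card : ℝ) ≤ 2 * (2 * η * l / (c * σ * |α| / 4) + 1) := by
    have h1 := flat_cells Sk (fun p => p.1 - α * p.2 - β) (-(η * l)) (2 * η * l)
      (c * σ * |α| / 4) (by positivity) (by positivity) 2 (by
        intro p hp
        have h2 := abs_le.mp (hloc p hp)
        constructor
        · linarith [h2.1]
        · linarith [h2.2]) (by
        intro U hU hUw
        by_contra hcon
        rw [not_le, Finset.two_lt_card] at hcon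
        obtain ⟨x, hx, y, hy, z, hz, hxy, hxz, hyz⟩ := hcon
        have main := flat_three c σ α β (c * σ * |α| / 4) hc hσ hα0 rfl S hsep hFat
        have mx := hSkS (hU hx)
        have my := hSkS (hU hy)
        have mz := hSkS (hU hz)
        rcases le_total x.1 y.1 with h1 | h1 <;> rcases le_total y.1 z.1 with h2 | h2 <;>
          rcases le_total x.1 z.1 with h3 | h3
        · exact main x y z mx my mz hxy hyz hxz h1 h2 (hUw y hy x hx) (hUw z hz x hx)
        · exact main x y z mx my mz hxy hyz hxz h1 h2 (hUw y hy x hx) (hUw z hz x hx)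
        · exact main x z y mx mz my hxz (Ne.symm hyz) hxy h3 h2 (hUw z hz x hx) (hUw y hy x hx)
        · exact main z x y mz mx my (Ne.symm hxz) hxy (Ne.symm hyz) h3 h1 (hUw x hx z hz)
            (hUw y hy z hz)
        · exact main y x z my mx mz (Ne.symm hxy) hxz hyz h1 h3 (hUw x hx y hy) (hUw z hz y hy)
        · exact main y z x my mz mx hyz (Ne.symm hxz) (Ne.symm hxy) h2 h3 (hUw z hz y hy)
            (hUw x hx y hy)
        · exact main z y x mz my mx (Ne.symm hyz) (Ne.symm hxy) (Ne.symm hxz) h2 h1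
            (hUw y hy z hz) (hUw x hx z hz)
        · exact main z y x mz my mx (Ne.symm hyz) (Ne.symm hxy) (Ne.symm hxz) h2 h1
            (hUw y hy z hz) (hUw x hx z hz))
    exact_mod_cast h1
  have h1 : δ * l / (4 * h0 * σ) ≤ 32 * η * l / (c * σ * |α|) := by
    rw [hn0] at hk3 hn4
    have h2 : 2 * (2 * η * l / (c * σ * |α| / 4) + 1) = 16 * η * l / (c * σ * |α|) + 2 := by
      field_simp
      ring
    rw [h2] at hup
    have h3 : 32 * η * l / (c * σ * |α|) = 2 * (16 * η * l / (c * σ * |α|)) := by ring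
    rw [h3]
    linarith
  rw [div_le_div_iff₀ (by positivity) (by positivity)] at h1
  have h2 : (δ * c * |α|) * (l * σ) ≤ (128 * η * h0) * (l * σ) := by
    calc (δ * c * |α|) * (l * σ) = δ * l * (c * σ * |α|) := by ring
      _ ≤ 32 * η * l * (4 * h0 * σ) := h1
      _ = (128 * η * h0) * (l * σ) := by ring
  have h3 := le_of_mul_le_mul_right h2 (by positivity : 0 < l * σ)
  have h4 : δ * c * (δ / (8 * h0)) ≤ 128 * η * h0 :=
    (mul_le_mul_of_nonneg_left hα1 (by positivity)).trans h3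
  have h5 : 128 * η * h0 ≤ 128 * (c * δ ^ 2 / (2048 * h0 ^ 2)) * h0 := by
    apply mul_le_mul_of_nonneg_right _ hh.le
    linarith
  have h6 : 128 * (c * δ ^ 2 / (2048 * h0 ^ 2)) * h0 = c * δ ^ 2 / (16 * h0) := by
    field_simp
    ring
  have h7 : δ * c * (δ / (8 * h0)) = c * δ ^ 2 / (16 * h0) + c * δ ^ 2 / (16 * h0) := by
    field_simp
    ring
  have h8 : 0 < c * δ ^ 2 / (16 * h0) := by positivity
  linarith

end

end Pool.Agent.Lib.MP_a768d2_coS
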