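import Pool.Agent.Lib.MP_a768d2_coS.Defs

/-!
# MP_a768d2_co, thin strips: Mult

Proof in words. strip_card: cells k z = ⌊(sv l z + w) / (a / 2)⌋ for the points z of the strip; k z ∈ {0, .., ⌊4 w / a⌋}, at most 4 w / a + 1 cells. Each cell has at most two points: suppose three distinct points of P lie in one cell,
so |sv l z - sv l z'| < a / 2 for any two. Two distinct points with the same x coordinate would have |Δy| = |Δ sv| < a / 2 < ε, dist < ε, impossible. So order them such that p, z have the extreme x coordinates and q is between: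
dt p q z = (q.1 - p.1) (sv l z - sv l p) - (sv l q - sv l p) (z.1 - p.1) (ring), so |dt p q z| < a |z.1 - p.1|, against Fat. So the number of points is at most 2 (4 w / a + 1) = 8 w / a + 2
(Finset.card_le_mul_card_image or card_eq_sum_card_fiberwise).
close_card: for f = (e, e') in close: p' = e'.1 satisfies |sv (ln e) p'| = |sv (ln e) p' - sv (ln e') p'| ≤ (2 v / N) N + 2 v = 4 v (sv_ln_fst, sv_sub, 0 ≤ p'.1 ≤ N), so for given e there are at most 8 (4 v) / a + 2 possible p' (strip_card).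
For given e and p' the pairs e' ∈ L with e'.1 = p' and close to e: choose one, e1; for another e2 = (p', q2) the slopes of e1 and e2 differ by at most 4 v / N, so
|sv (ln e1) q2| = |m1 - m2| |q2.1 - p'.1| ≤ 4 v / N * K ≤ 4 / K (v K ^ 2 ≤ N; use sv (ln e) z = (z.2 - e.1.2) - slope * (z.1 - e.1.1)), and |q2.1 - p'.1| ≤ K, so q2 ∈ tube P K e1: at most A of them.
So card close ≤ card L * (32 v / a + 2) * A.
-/

set_option autoImplicit false

namespace Pool.Agent.Lib.MP_a768d2_coS

noncomputable section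

open Finset

private theorem mult_ord {ε a : ℝ} {P : Finset (ℝ × ℝ)} (hP : Sep ε P) (hF : Fat a P) (ha : 0 < a)
    (haε : a ≤ ε) (l : ℝ × ℝ) {p q z : ℝ × ℝ} (hp : p ∈ P) (hq : q ∈ P) (hz : z ∈ P) (h1 : p ≠ q)
    (h2 : q ≠ z) (h3 : p ≠ z) (h4 : p.1 ≤ q.1) (h5 : q.1 ≤ z.1) (h6 : |sv l q - sv l p| < a / 2)
    (h7 : |sv l z - sv l p| < a / 2) : False := by
  have h8 : dt p q z = (q.1 - p.1) * (sv l z - sv l p) - (sv l q - sv l p) * (z.1 - p.1) := by
    unfold dt sv
    ring
  have h9 : 0 ≤ q.1 - p.1 := by linarith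
  have h10 : q.1 - p.1 ≤ z.1 - p.1 := by linarith
  rcases eq_or_lt_of_le (h9.trans h10) with h11 | h11
  · have h12 : z.1 = p.1 := by linarith
    have h13 : |z.2 - p.2| < a / 2 := by
      have : sv l z - sv l p = z.2 - p.2 := by
        unfold sv
        rw [h12]
        ring
      rwa [this] at h7
    have h14 := hP p hp z hz h3
    rw [Prod.dist_eq, Real.dist_eq, Real.dist_eq, h12, sub_self, abs_zero, abs_sub_comm p.2 z.2] at h14
    have h15 : max 0 |z.2 - p.2| < ε := max_lt (by linarith) (by linarith)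
    linarith
  · have h12 := hF p hp q hq z hz h1 h2 h3
    rw [abs_of_pos h11, h8] at h12
    have h13 : |(q.1 - p.1) * (sv l z - sv l p) - (sv l q - sv l p) * (z.1 - p.1)| ≤
        (q.1 - p.1) * |sv l z - sv l p| + |sv l q - sv l p| * (z.1 - p.1) := by
      refine (abs_sub _ _).trans ?_
      rw [abs_mul, abs_mul, abs_of_nonneg h9, abs_of_pos h11]
    have h14 : (q.1 - p.1) * |sv l z - sv l p| ≤ (z.1 - p.1) * (a / 2) :=
      mul_le_mul h10 h7.le (abs_nonneg _) h11.le
    have h15 : |sv l q - sv l p| * (z.1 - p.1) < a / 2 * (z.1 - p.1) :=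
      mul_lt_mul_of_pos_right h6 h11
    linarith

/-- a thin strip contains few points -/
theorem strip_card (ε a : ℝ) (P : Finset (ℝ × ℝ)) (hP : Sep ε P) (hF : Fat a P) (ha : 0 < a) (haε : a ≤ ε)
    (l : ℝ × ℝ) (w : ℝ) (hw : 0 ≤ w) :
    ((P.filter fun z => |sv l z| ≤ w).card : ℝ) ≤ 8 * w / a + 2 := by
  classical
  set S := P.filter fun z => |sv l z| ≤ w with hS
  have ha2 : 0 < a / 2 := by positivity
  have hfib : ∀ k ∈ S.image fun z => ⌊(sv l z + w) / (a / 2)⌋,
      (S.filter fun z => ⌊(sv l z + w) / (a / 2)⌋ = k).card ≤ 2 := by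
    intro k _
    by_contra hcon
    rw [not_le, Finset.two_lt_card] at hcon
    obtain ⟨p, hp, q, hq, z, hz, h1, h2, h3⟩ := hcon
    rw [Finset.mem_filter, hS, Finset.mem_filter] at hp hq hz
    have hc : ∀ x y : ℝ × ℝ, ⌊(sv l x + w) / (a / 2)⌋ = k → ⌊(sv l y + w) / (a / 2)⌋ = k →
        |sv l x - sv l y| < a / 2 := by
      intro x y hx hy
      have e1 := Int.floor_le ((sv l x + w) / (a / 2))
      have e2 := Int.lt_floor_add_one ((sv l x + w) / (a / 2))
      have e3 := Int.floor_le ((sv l y + w) / (a / 2))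
      have e4 := Int.lt_floor_add_one ((sv l y + w) / (a / 2))
      rw [hx] at e1 e2
      rw [hy] at e3 e4
      have e5 : (sv l x + w) / (a / 2) - (sv l y + w) / (a / 2) < 1 := by linarith
      have e6 : -1 < (sv l x + w) / (a / 2) - (sv l y + w) / (a / 2) := by linarith
      have e7 : (sv l x + w) / (a / 2) - (sv l y + w) / (a / 2) = (sv l x - sv l y) / (a / 2) := by ring
      rw [e7] at e5 e6
      rw [div_lt_one ha2] at e5
      rw [lt_div_iff₀ ha2] at e6
      rw [abs_lt]
      constructor <;> linarith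
    have hpq := hc p q hp.2 hq.2
    have hpz := hc p z hp.2 hz.2
    have hqz := hc q z hq.2 hz.2
    have hqp := hc q p hq.2 hp.2
    have hzp := hc z p hz.2 hp.2
    have hzq := hc z q hz.2 hq.2
    have hp1 := hp.1.1
    have hq1 := hq.1.1
    have hz1 := hz.1.1
    rcases le_total p.1 q.1 with a1 | a1 <;> rcases le_total q.1 z.1 with a2 | a2 <;>
      rcases le_total p.1 z.1 with a3 | a3
    · exact mult_ord hP hF ha haε l hp1 hq1 hz1 h1 h3 h2 a1 a2 hqp hzp
    · exact mult_ord hP hF ha haε l hp1 hq1 hz1 h1 h3 h2 a1 a2 hqp hzp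
    · exact mult_ord hP hF ha haε l hp1 hz1 hq1 h2 h3.symm h1 a3 a2 hzp hqp
    · exact mult_ord hP hF ha haε l hz1 hp1 hq1 h2.symm h1 h3.symm a3 a1 hpz hqz
    · exact mult_ord hP hF ha haε l hq1 hp1 hz1 h1.symm h2 h3 a1 a3 hpq hzq
    · exact mult_ord hP hF ha haε l hq1 hz1 hp1 h3 h2.symm h1.symm a2 a3 hzq hpq
    · exact mult_ord hP hF ha haε l hz1 hq1 hp1 h3.symm h1.symm h2.symm a2 a1 hqz hpz
    · exact mult_ord hP hF ha haε l hz1 hq1 hp1 h3.symm h1.symm h2.symm a2 a1 hqz hpz
  have hcard := Finset.card_le_mul_card_image S 2 hfib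
  have hsub : (S.image fun z => ⌊(sv l z + w) / (a / 2)⌋) ⊆ Finset.Icc 0 ⌊4 * w / a⌋ := by
    intro k hk
    obtain ⟨z, hz, rfl⟩ := Finset.mem_image.mp hk
    rw [hS, Finset.mem_filter] at hz
    have e1 := abs_le.mp hz.2
    rw [Finset.mem_Icc]
    constructor
    · exact Int.floor_nonneg.mpr (div_nonneg (by linarith [e1.1]) ha2.le)
    · refine Int.floor_le_floor ?_
      rw [div_le_div_iff₀ ha2 ha]
      nlinarith [e1.2]
  have hc2 : (((Finset.Icc (0 : ℤ) ⌊4 * w / a⌋).card : ℕ) : ℝ) ≤ 4 * w / a + 1 := by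
    rw [Int.card_Icc, sub_zero]
    have e0 : 0 ≤ ⌊4 * w / a⌋ := Int.floor_nonneg.mpr (by positivity)
    have e1 : (((⌊4 * w / a⌋ + 1).toNat : ℕ) : ℝ) = (⌊4 * w / a⌋ : ℝ) + 1 := by
      have : (((⌊4 * w / a⌋ + 1).toNat : ℕ) : ℤ) = ⌊4 * w / a⌋ + 1 := Int.toNat_of_nonneg (by linarith)
      exact_mod_cast this
    rw [e1]
    linarith [Int.floor_le (4 * w / a)]
  have hc3 := Finset.card_le_card hsub
  have hc4 : (S.card : ℝ) ≤ 2 * ((Finset.Icc (0 : ℤ) ⌊4 * w / a⌋).card : ℝ) := by
    exact_mod_cast hcard.trans (Nat.mul_le_mul_left 2 hc3)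
  have e8 : 8 * w / a = 2 * (4 * w / a) := by ring
  rw [e8]
  linarith

/-- number of pairs of close lines -/
theorem close_card (ε a κ K G N v A : ℝ) (P : Finset (ℝ × ℝ)) (hP : Sep ε P) (hF : Fat a P) (ha : 0 < a)
    (haε : a ≤ ε) (hN : 0 < N) (hPN : InBox N P) (hκ : 0 < κ) (hK : 0 < K) (hv : 0 < v) (hvK : v * K ^ 2 ≤ N)
    (hA : 0 ≤ A) (L : Finset ((ℝ × ℝ) × (ℝ × ℝ))) (hL : L ⊆ pairs P κ K G)
    (hT : ∀ e ∈ L, ((tube P K e).card : ℝ) ≤ A) :
    ((close L N v).card : ℝ) ≤ (L.card : ℝ) * (A * (32 * v / a + 2)) := by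
  classical
  have hstrip := fun l : ℝ × ℝ => strip_card ε a P hP hF ha haε l (4 * v) (by linarith)
  have hb0 : 0 ≤ 32 * v / a + 2 := by positivity
  have hmap : ∀ f ∈ close L N v, Prod.fst f ∈ L := by
    intro f hf
    unfold close at hf
    exact (Finset.mem_product.mp (Finset.mem_filter.mp hf).1).1
  rw [Finset.card_eq_sum_card_fiberwise (f := Prod.fst) (t := L) hmap, Nat.cast_sum]
  have hkey : ∀ e ∈ L, (((close L N v).filter fun f => f.1 = e).card : ℝ) ≤ A * (32 * v / a + 2) := by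
    intro e he
    set F := (close L N v).filter fun f => f.1 = e with hFdef
    have hmem : ∀ f ∈ F, f.1 = e ∧ f.2 ∈ L ∧ |(ln e).1 - (ln f.2).1| ≤ 2 * v / N ∧
        |(ln e).2 - (ln f.2).2| ≤ 2 * v := by
      intro f hf
      rw [hFdef, Finset.mem_filter] at hf
      obtain ⟨hf1, hf2⟩ := hf
      unfold close at hf1
      rw [Finset.mem_filter, Finset.mem_product] at hf1
      rw [hf2] at hf1
      exact ⟨hf2, hf1.1.2, hf1.2.1, hf1.2.2⟩
    have hLm : ∀ e' ∈ L, e'.1 ∈ P ∧ e'.2 ∈ P ∧ 0 < e'.2.1 - e'.1.1 ∧ e'.2.1 - e'.1.1 ≤ K := by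
      intro e' he'
      have := hL he'
      unfold pairs at this
      rw [Finset.mem_filter, Finset.mem_product] at this
      refine ⟨this.1.1, this.1.2, lt_of_lt_of_le (mul_pos hκ hK) this.2.1, this.2.2.1⟩
    -- first coordinate
    have himg : ((F.image fun f => f.2.1).card : ℝ) ≤ 32 * v / a + 2 := by
      have hsub : (F.image fun f => f.2.1) ⊆ P.filter fun z => |sv (ln e) z| ≤ 4 * v := by
        intro p' hp'
        obtain ⟨f, hf, rfl⟩ := Finset.mem_image.mp hp'
        obtain ⟨hf1, hf2, hf3, hf4⟩ := hmem f hf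
        rw [Finset.mem_filter]
        refine ⟨(hLm _ hf2).1, ?_⟩
        have e1 := sv_sub (ln e) (ln f.2) f.2.1
        rw [sv_ln_fst, sub_zero] at e1
        rw [e1]
        have hb := hPN _ (hLm _ hf2).1
        have e2 : |((ln f.2).1 - (ln e).1) * f.2.1.1| ≤ 2 * v := by
          rw [abs_mul, abs_sub_comm, abs_of_nonneg hb.1]
          have : |(ln e).1 - (ln f.2).1| * f.2.1.1 ≤ 2 * v / N * N :=
            mul_le_mul hf3 hb.2.1 hb.1 (by positivity)
          rwa [div_mul_cancel₀ _ hN.ne'] at this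
        have e3 : |(ln f.2).2 - (ln e).2| ≤ 2 * v := by
          rw [abs_sub_comm]
          exact hf4
        calc |((ln f.2).1 - (ln e).1) * f.2.1.1 + ((ln f.2).2 - (ln e).2)|
            ≤ |((ln f.2).1 - (ln e).1) * f.2.1.1| + |(ln f.2).2 - (ln e).2| := abs_add_le _ _
          _ ≤ 4 * v := by linarith
      have h1 : ((F.image fun f => f.2.1).card : ℝ) ≤
          ((P.filter fun z => |sv (ln e) z| ≤ 4 * v).card : ℝ) := by
        exact_mod_cast Finset.card_le_card hsub
      have h2 := hstrip (ln e)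
      have h3 : 8 * (4 * v) / a = 32 * v / a := by ring
      rw [h3] at h2
      exact h1.trans h2
    have hfib : ∀ p' ∈ F.image fun f => f.2.1, (F.filter fun f => f.2.1 = p').card ≤ ⌊A⌋₊ := by
      intro p' hp'
      obtain ⟨f1, hf1, rfl⟩ := Finset.mem_image.mp hp'
      refine Nat.le_floor ?_
      refine le_trans ?_ (hT f1.2 (hmem f1 hf1).2.1)
      have hcard : (F.filter fun f => f.2.1 = f1.2.1).card ≤ (tube P K f1.2).card := by
        refine Finset.card_le_card_of_injOn (fun f => f.2.2) ?_ ?_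
        · intro f hf
          rw [Finset.mem_coe, Finset.mem_filter] at hf
          obtain ⟨hfF, hfp⟩ := hf
          obtain ⟨_, g2, g3, _⟩ := hmem f hfF
          obtain ⟨_, _, k3, _⟩ := hmem f1 hf1
          obtain ⟨_, m2, m3, m4⟩ := hLm _ g2
          rw [Finset.mem_coe]
          unfold tube
          rw [Finset.mem_filter]
          refine ⟨m2, ?_, ?_⟩
          · change |f.2.2.1 - f1.2.1.1| ≤ K
            rw [← hfp, abs_of_pos m3]
            exact m4
          · change |sv (ln f1.2) f.2.2| ≤ 4 / K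
            have e1 : sv (ln f1.2) f.2.2 = ((ln f.2).1 - (ln f1.2).1) * (f.2.2.1 - f.2.1.1) := by
              have e2 : (ln f.2).1 * (f.2.2.1 - f.2.1.1) = f.2.2.2 - f.2.1.2 := by
                change (f.2.2.2 - f.2.1.2) / (f.2.2.1 - f.2.1.1) * (f.2.2.1 - f.2.1.1) = _
                exact div_mul_cancel₀ _ m3.ne'
              have e3 : sv (ln f1.2) f.2.2 =
                  (f.2.2.2 - f1.2.1.2) - (ln f1.2).1 * (f.2.2.1 - f1.2.1.1) := by
                unfold sv ln
                ring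
              rw [e3, ← hfp, sub_mul, e2]
            rw [e1, abs_mul, abs_of_pos m3]
            have e4 : |(ln f.2).1 - (ln f1.2).1| ≤ 4 * v / N := by
              have e5 : (ln f.2).1 - (ln f1.2).1 =
                  ((ln e).1 - (ln f1.2).1) - ((ln e).1 - (ln f.2).1) := by ring
              rw [e5]
              refine (abs_sub _ _).trans ?_
              have e6 : 4 * v / N = 2 * v / N + 2 * v / N := by ring
              rw [e6]
              exact add_le_add k3 g3
            calc |(ln f.2).1 - (ln f1.2).1| * (f.2.2.1 - f.2.1.1) ≤ 4 * v / N * K :=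
                  mul_le_mul e4 m4 m3.le (by positivity)
              _ ≤ 4 / K := by
                  rw [div_mul_eq_mul_div, div_le_div_iff₀ hN hK]
                  nlinarith
        · intro f hf g hg hfg
          rw [Finset.mem_coe, Finset.mem_filter] at hf hg
          have e1 := (hmem f hf.1).1
          have e2 := (hmem g hg.1).1
          have hfg' : f.2.2 = g.2.2 := hfg
          refine Prod.ext (e1.trans e2.symm) (Prod.ext (hf.2.trans hg.2.symm) hfg')
      exact_mod_cast hcard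
    have h1 := Finset.card_le_mul_card_image F ⌊A⌋₊ hfib
    have h2 : (F.card : ℝ) ≤ (⌊A⌋₊ : ℝ) * ((F.image fun f => f.2.1).card : ℝ) := by exact_mod_cast h1
    refine h2.trans ?_
    exact mul_le_mul (Nat.floor_le hA) himg (Nat.cast_nonneg _) hA
  calc ∑ e ∈ L, (((close L N v).filter fun f => f.1 = e).card : ℝ)
      ≤ ∑ _e ∈ L, A * (32 * v / a + 2) := Finset.sum_le_sum hkey
    _ = (L.card : ℝ) * (A * (32 * v / a + 2)) := by rw [Finset.sum_const, nsmul_eq_mul]

end

end Pool.Agent.Lib.MP_a768d2_coS
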