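import Pool.Agent.Lib.MP_a768d2_coS.Defs
import Pool.Agent.Lib.MP_a768d2_coS.Cnt

/-!
# MP_a768d2_co, thin strips: Split

Proof in words. C from `cnt ε 0`, G = 32 C. For N ≥ G a closed column [a, a + N / G] contains at most C (1 + N / G) (1 + N) ≤ N ^ 2 / 8 points of P.
Let f k = number of points with z.1 ≤ k * N / G and let k be the least number with N ^ 2 / 4 ≤ f k.
-/

set_option autoImplicit false

namespace Pool.Agent.Lib.MP_a768d2_coS

noncomputable section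

open Finset

/-- a vertical gap of width `N / G` with many points on both sides -/
theorem split (ε : ℝ) (hε : 0 < ε) : ∃ G : ℝ, 1 ≤ G ∧
    ∀ N : ℝ, G ≤ N → ∀ P : Finset (ℝ × ℝ), Sep ε P → InBox N P → N ^ 2 ≤ (P.card : ℝ) →
      ∃ a : ℝ, N ^ 2 / 4 ≤ ((P.filter fun z => z.1 ≤ a).card : ℝ) ∧
        N ^ 2 / 4 ≤ ((P.filter fun z => a + N / G ≤ z.1).card : ℝ) := by
  obtain ⟨C, hC, hcnt⟩ := cnt ε 0 hε le_rfl
  refine ⟨32 * C, by linarith, ?_⟩
  intro N hN P hP hPN hcard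
  set G := 32 * C with hG
  have hG1 : 1 ≤ G := by linarith
  have hG0 : 0 < G := by linarith
  have hN1 : 1 ≤ N := by linarith
  have hN0 : 0 < N := by linarith
  have hNG : 1 ≤ N / G := by
    rw [le_div_iff₀ hG0]
    linarith
  -- a column
  have hcol : ∀ a : ℝ, ((P.filter fun z => a ≤ z.1 ∧ z.1 ≤ a + N / G).card : ℝ) ≤ N ^ 2 / 8 := by
    intro a
    have h1 := hcnt P hP 0 a 0 (N / G) N (by simp) (by linarith) hN0.le
    have h2 : (P.filter fun z => a ≤ z.1 ∧ z.1 ≤ a + N / G) ⊆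
        (P.filter fun z => (a ≤ z.1 ∧ z.1 ≤ a + N / G) ∧ 0 ≤ z.2 - 0 * z.1 ∧ z.2 - 0 * z.1 ≤ 0 + N) := by
      intro z hz
      rw [Finset.mem_filter] at hz ⊢
      obtain ⟨h3, h4, h5, h6⟩ := hPN z hz.1
      exact ⟨hz.1, hz.2, by linarith, by linarith⟩
    have h3 : ((P.filter fun z => a ≤ z.1 ∧ z.1 ≤ a + N / G).card : ℝ) ≤ C * (1 + N / G) * (1 + N) :=
      le_trans (by exact_mod_cast Finset.card_le_card h2) h1
    refine h3.trans ?_
    have h4 : (1 + N / G) * (1 + N) ≤ (2 * (N / G)) * (2 * N) :=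
      mul_le_mul (by linarith) (by linarith) (by linarith) (by linarith)
    calc C * (1 + N / G) * (1 + N) = C * ((1 + N / G) * (1 + N)) := by ring
      _ ≤ C * ((2 * (N / G)) * (2 * N)) := mul_le_mul_of_nonneg_left h4 (by linarith)
      _ = N ^ 2 / 8 := by
          rw [hG]
          field_simp
          ring
  set f : ℕ → ℕ := fun k => (P.filter fun z => z.1 ≤ k * (N / G)).card with hf
  have hstep : ∀ k : ℕ, (f (k + 1) : ℝ) ≤ f k + N ^ 2 / 8 := by
    intro k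
    have h1 : (P.filter fun z => z.1 ≤ ((k + 1 : ℕ) : ℝ) * (N / G)) ⊆
        (P.filter fun z => z.1 ≤ (k : ℝ) * (N / G)) ∪
          (P.filter fun z => (k : ℝ) * (N / G) ≤ z.1 ∧ z.1 ≤ (k : ℝ) * (N / G) + N / G) := by
      intro z hz
      rw [Finset.mem_filter] at hz
      rw [Finset.mem_union, Finset.mem_filter, Finset.mem_filter]
      have h2 : ((k + 1 : ℕ) : ℝ) * (N / G) = (k : ℝ) * (N / G) + N / G := by
        push_cast
        ring
      rw [h2] at hz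
      rcases le_total z.1 ((k : ℝ) * (N / G)) with h | h
      · exact Or.inl ⟨hz.1, h⟩
      · exact Or.inr ⟨hz.1, h, hz.2⟩
    have h2 : f (k + 1) ≤ f k + (P.filter fun z => (k : ℝ) * (N / G) ≤ z.1 ∧
        z.1 ≤ (k : ℝ) * (N / G) + N / G).card :=
      (Finset.card_le_card h1).trans (Finset.card_union_le _ _)
    have h3 : (f (k + 1) : ℝ) ≤ (f k : ℝ) + ((P.filter fun z => (k : ℝ) * (N / G) ≤ z.1 ∧
        z.1 ≤ (k : ℝ) * (N / G) + N / G).card : ℝ) := by exact_mod_cast h2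
    linarith [hcol ((k : ℝ) * (N / G))]
  have hf0 : (f 0 : ℝ) ≤ N ^ 2 / 8 := by
    refine le_trans ?_ (hcol (-(N / G)))
    have h1 : (P.filter fun z => z.1 ≤ ((0 : ℕ) : ℝ) * (N / G)) ⊆
        (P.filter fun z => -(N / G) ≤ z.1 ∧ z.1 ≤ -(N / G) + N / G) := by
      intro z hz
      rw [Finset.mem_filter] at hz ⊢
      have h2 := (hPN z hz.1).1
      have h3 := hz.2
      rw [Nat.cast_zero, zero_mul] at h3
      exact ⟨hz.1, by linarith, by linarith⟩
    have h2 : f 0 ≤ (P.filter fun z => -(N / G) ≤ z.1 ∧ z.1 ≤ -(N / G) + N / G).card := Finset.card_le_card h1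
    exact_mod_cast h2
  have hex : ∃ k : ℕ, N ^ 2 / 4 ≤ (f k : ℝ) := by
    refine ⟨⌈G⌉₊, ?_⟩
    have h1 : (P.filter fun z => z.1 ≤ ((⌈G⌉₊ : ℕ) : ℝ) * (N / G)) = P := by
      refine Finset.filter_true_of_mem fun z hz => ?_
      have h2 : G ≤ (⌈G⌉₊ : ℝ) := Nat.le_ceil _
      have h3 : G * (N / G) ≤ (⌈G⌉₊ : ℝ) * (N / G) := mul_le_mul_of_nonneg_right h2 (by positivity)
      have h4 : G * (N / G) = N := by field_simp
      linarith [(hPN z hz).2.1]
    have h5 : f ⌈G⌉₊ = P.card := by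
      simp only [hf]
      rw [h1]
    rw [h5]
    have : 0 ≤ N ^ 2 := by positivity
    linarith
  classical
  obtain ⟨k, hk, hmin⟩ : ∃ k : ℕ, N ^ 2 / 4 ≤ (f k : ℝ) ∧ ∀ m < k, (f m : ℝ) < N ^ 2 / 4 :=
    ⟨Nat.find hex, Nat.find_spec hex, fun m hm => not_le.1 (Nat.find_min hex hm)⟩
  have hNsq : 0 < N ^ 2 := by positivity
  have hk0 : k ≠ 0 := by
    rintro rfl
    linarith
  obtain ⟨m, rfl⟩ := Nat.exists_eq_succ_of_ne_zero hk0
  have h1 : (f (m + 1 + 1) : ℝ) ≤ N ^ 2 / 2 := by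
    have h2 := hstep m
    have h3 := hstep (m + 1)
    have h4 := hmin m (Nat.lt_succ_self m)
    linarith
  refine ⟨((m + 1 : ℕ) : ℝ) * (N / G), hk, ?_⟩
  have h2 := Finset.card_filter_add_card_filter_not (s := P) (fun z : ℝ × ℝ => ((m + 1 : ℕ) : ℝ) * (N / G) + N / G ≤ z.1)
  have h3 : (P.filter fun z => ¬ ((m + 1 : ℕ) : ℝ) * (N / G) + N / G ≤ z.1).card ≤ f (m + 1 + 1) := by
    refine Finset.card_le_card ?_
    intro z hz
    rw [Finset.mem_filter] at hz ⊢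
    refine ⟨hz.1, ?_⟩
    have h4 : ((m + 1 + 1 : ℕ) : ℝ) * (N / G) = ((m + 1 : ℕ) : ℝ) * (N / G) + N / G := by
      push_cast
      ring
    rw [h4]
    exact (not_le.1 hz.2).le
  have h4 : ((P.filter fun z => ((m + 1 : ℕ) : ℝ) * (N / G) + N / G ≤ z.1).card : ℝ) +
      ((P.filter fun z => ¬ ((m + 1 : ℕ) : ℝ) * (N / G) + N / G ≤ z.1).card : ℝ) = (P.card : ℝ) := by
    exact_mod_cast h2
  have h5 : ((P.filter fun z => ¬ ((m + 1 : ℕ) : ℝ) * (N / G) + N / G ≤ z.1).card : ℝ) ≤ (f (m + 1 + 1) : ℝ) := by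
    exact_mod_cast h3
  linarith

end

end Pool.Agent.Lib.MP_a768d2_coS
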