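import Pool.Agent.Lib.MP_a768d2_coS.Defs
import Pool.Agent.Lib.MP_a768d2_coS.Cnt
import Pool.Agent.Lib.MP_a768d2_coS.Dir

/-!
# MP_a768d2_co, thin strips: Start

Proof in words. κ, c' from `dirpairs ε G (1 / 32)`, C from `cnt ε 0`. c = c' / (10000 C G) or so. Given lam put θ = lam / (3 G) ≤ 1, K0 = 1 / (κ θ) + 1 / θ + 1 (large). Let s = θ N, so K ≤ s and 1 ≤ κ θ K, 1 ≤ s.
Cells: g p = (⌊p.1 / s⌋, ⌊p.2 / s⌋) for p ∈ E; both indices lie in [0, 1 / θ], so the image I of E under g has at most (1 / θ + 1) ^ 2 ≤ 4 / θ ^ 2 elements. A cell i ∈ I is dense if the fibre E_i has at least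
s ^ 2 / 32 points; the other cells contain together at most 4 / θ ^ 2 * s ^ 2 / 32 = N ^ 2 / 8 points, so the dense cells contain at least N ^ 2 / 8 points of E; each cell has at most C (1 + s) ^ 2 ≤ 4 C s ^ 2 points,
so the number of dense cells is at least N ^ 2 / (32 C s ^ 2).
For a dense cell i = (i1, i2) with corner (x0, y0) = (i1 s, i2 s) and z ∈ F put a = (z.2 - y0) / (z.1 - x0). As x0 ≤ p.1 for a point p of the cell, z.1 - x0 ≥ N / G > 0, and |z.2 - y0| ≤ N (0 ≤ y0 ≤ p.2 ≤ N), so |a| ≤ G.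
`dirpairs` for S = E_i gives at least c' θ K ^ 2 s ^ 2 pairs e of points of E_i with κ K ≤ Δx ≤ K, |slope - a| ≤ θ. Each such e is in pairs E κ K (2 G) (|slope| ≤ G + θ ≤ 2 G) and
|sv (ln e) z| = |(z.2 - p.2) - m (z.1 - p.1)| ≤ |(y0 - p.2) - a (x0 - p.1)| + |a - m| |z.1 - p.1| ≤ s (1 + G) + θ N = θ N (2 + G) ≤ lam N, where p = e.1, m = slope (use (z.2 - y0) = a (z.1 - x0)).
So hk (lam N) (sv (ln e) z) = 1 / (2 lam N). Hence
∑ e ∈ pairs, gs F (lam N) (ln e) = ∑ z ∈ F, ∑ e ∈ pairs, hk .. ≥ ∑ z ∈ F, ∑ i dense, c' θ K ^ 2 s ^ 2 / (2 lam N) (for fixed z the sets of pairs of different cells are disjoint)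
 ≥ (N ^ 2 / 4) (N ^ 2 / (32 C s ^ 2)) c' θ K ^ 2 s ^ 2 / (2 lam N) = c' K ^ 2 N ^ 3 / (768 C G), as θ / lam = 1 / (3 G).
-/

set_option autoImplicit false

namespace Pool.Agent.Lib.MP_a768d2_coS

noncomputable section

open Finset

/-- the dense cells -/
private theorem start_dense (ε C : ℝ)
    (hC : 1 ≤ C ∧ ∀ P : Finset (ℝ × ℝ), Sep ε P → ∀ m a t A B : ℝ, |m| ≤ 0 → 0 ≤ A → 0 ≤ B →
      ((P.filter fun z => (a ≤ z.1 ∧ z.1 ≤ a + A) ∧ t ≤ z.2 - m * z.1 ∧ z.2 - m * z.1 ≤ t + B).card : ℝ) ≤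
        C * (1 + A) * (1 + B))
    (E : Finset (ℝ × ℝ)) (hE : Sep ε E) (N θ s : ℝ) (hθ : 0 < θ) (hθ1 : θ ≤ 1) (hs : s = θ * N) (hs1 : 1 ≤ s)
    (hbox : InBox N E) (hcard : N ^ 2 / 4 ≤ (E.card : ℝ)) :
    ∃ D : Finset (ℤ × ℤ), (∀ i ∈ D, 1 / 32 * s ^ 2 ≤ ((E.filter fun p => (⌊p.1 / s⌋, ⌊p.2 / s⌋) = i).card : ℝ)) ∧
      1 ≤ 32 * C * θ ^ 2 * (D.card : ℝ) := by
  classical
  obtain ⟨hC1, hC2⟩ := hC
  have hs0 : 0 < s := by linarith
  have hN : 0 < N := by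
    by_contra hn
    have : θ * N ≤ 0 := mul_nonpos_of_nonneg_of_nonpos hθ.le (not_lt.1 hn)
    linarith
  have hNs : N / s = 1 / θ := by
    rw [hs]
    field_simp
  have hT : ∀ p ∈ E, (⌊p.1 / s⌋, ⌊p.2 / s⌋) ∈ Finset.Icc (0 : ℤ) ⌊1 / θ⌋ ×ˢ Finset.Icc (0 : ℤ) ⌊1 / θ⌋ := by
    intro p hp
    obtain ⟨h1, h2, h3, h4⟩ := hbox p hp
    rw [Finset.mem_product, Finset.mem_Icc, Finset.mem_Icc, ← hNs]
    exact ⟨⟨Int.floor_nonneg.2 (div_nonneg h1 hs0.le), Int.floor_le_floor (div_le_div_of_nonneg_right h2 hs0.le)⟩,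
      Int.floor_nonneg.2 (div_nonneg h3 hs0.le), Int.floor_le_floor (div_le_div_of_nonneg_right h4 hs0.le)⟩
  have hTc : (((Finset.Icc (0 : ℤ) ⌊1 / θ⌋ ×ˢ Finset.Icc (0 : ℤ) ⌊1 / θ⌋).card : ℕ) : ℝ) ≤ 4 / θ ^ 2 := by
    have h1 : (((Finset.Icc (0 : ℤ) ⌊1 / θ⌋).card : ℕ) : ℝ) ≤ 2 / θ := by
      rw [Int.card_Icc]
      have h5 : (0 : ℤ) ≤ ⌊1 / θ⌋ + 1 - 0 := by
        have : (0 : ℤ) ≤ ⌊1 / θ⌋ := Int.floor_nonneg.2 (by positivity)
        omega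
      have h6 : (((⌊1 / θ⌋ + 1 - 0).toNat : ℕ) : ℝ) = ((⌊1 / θ⌋ + 1 - 0 : ℤ) : ℝ) := by
        rw [← Int.cast_natCast, Int.toNat_of_nonneg h5]
      rw [h6]
      push_cast
      have h7 := Int.floor_le (1 / θ)
      have h8 : 1 ≤ 1 / θ := by rw [le_div_iff₀ hθ]; linarith
      have h9 : 2 / θ = 2 * (1 / θ) := by ring
      rw [h9]
      linarith
    rw [Finset.card_product]
    push_cast
    have h2 := mul_le_mul h1 h1 (by positivity) (by positivity)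
    refine h2.trans (le_of_eq ?_)
    field_simp
    norm_num
  set T := Finset.Icc (0 : ℤ) ⌊1 / θ⌋ ×ˢ Finset.Icc (0 : ℤ) ⌊1 / θ⌋ with hTdef
  have h1 : E.card = ∑ b ∈ T, (E.filter fun p => (⌊p.1 / s⌋, ⌊p.2 / s⌋) = b).card :=
    Finset.card_eq_sum_card_fiberwise hT
  refine ⟨T.filter fun i => 1 / 32 * s ^ 2 ≤ ((E.filter fun p => (⌊p.1 / s⌋, ⌊p.2 / s⌋) = i).card : ℝ),
    fun i hi => (Finset.mem_filter.1 hi).2, ?_⟩
  have h2 : (E.card : ℝ) = ∑ b ∈ T, ((E.filter fun p => (⌊p.1 / s⌋, ⌊p.2 / s⌋) = b).card : ℝ) := by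
    rw [h1]
    push_cast
    rfl
  rw [← Finset.sum_filter_add_sum_filter_not T
    (fun i => 1 / 32 * s ^ 2 ≤ ((E.filter fun p => (⌊p.1 / s⌋, ⌊p.2 / s⌋) = i).card : ℝ))] at h2
  set D := T.filter fun i => 1 / 32 * s ^ 2 ≤ ((E.filter fun p => (⌊p.1 / s⌋, ⌊p.2 / s⌋) = i).card : ℝ) with hD
  have h3 : ∑ b ∈ D, ((E.filter fun p => (⌊p.1 / s⌋, ⌊p.2 / s⌋) = b).card : ℝ) ≤ D.card • (4 * C * s ^ 2) := by
    apply Finset.sum_le_card_nsmul
    intro b _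
    have h4 := hC2 E hE 0 (b.1 * s) (b.2 * s) s s (by rw [abs_zero]) hs0.le hs0.le
    have h5 : ((E.filter fun p => (⌊p.1 / s⌋, ⌊p.2 / s⌋) = b).card : ℝ) ≤
        ((E.filter fun z => ((b.1 : ℝ) * s ≤ z.1 ∧ z.1 ≤ b.1 * s + s) ∧ (b.2 : ℝ) * s ≤ z.2 - 0 * z.1 ∧
          z.2 - 0 * z.1 ≤ b.2 * s + s).card : ℝ) := by
      apply Nat.cast_le.2
      apply Finset.card_le_card
      intro p hp
      obtain ⟨hp1, hp2⟩ := Finset.mem_filter.1 hp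
      have hp3 : ⌊p.1 / s⌋ = b.1 := by rw [← hp2]
      have hp4 : ⌊p.2 / s⌋ = b.2 := by rw [← hp2]
      rw [Int.floor_eq_iff] at hp3 hp4
      rw [le_div_iff₀ hs0, div_lt_iff₀ hs0] at hp3 hp4
      refine Finset.mem_filter.2 ⟨hp1, ⟨hp3.1, by linarith [hp3.2]⟩, ?_, ?_⟩
      · rw [zero_mul, sub_zero]
        exact hp4.1
      · rw [zero_mul, sub_zero]
        linarith [hp4.2]
    refine (h5.trans h4).trans ?_
    have h6 : (1 + s) ≤ 2 * s := by linarith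
    have h7 : C * (1 + s) * (1 + s) ≤ C * (2 * s) * (2 * s) := by gcongr
    linarith [h7, (by ring : C * (2 * s) * (2 * s) = 4 * C * s ^ 2)]
  have h4 : ∑ b ∈ T.filter (fun i => ¬ 1 / 32 * s ^ 2 ≤ ((E.filter fun p => (⌊p.1 / s⌋, ⌊p.2 / s⌋) = i).card : ℝ)),
      ((E.filter fun p => (⌊p.1 / s⌋, ⌊p.2 / s⌋) = b).card : ℝ) ≤
      (T.filter (fun i => ¬ 1 / 32 * s ^ 2 ≤ ((E.filter fun p => (⌊p.1 / s⌋, ⌊p.2 / s⌋) = i).card : ℝ))).card •
        (1 / 32 * s ^ 2) := by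
    apply Finset.sum_le_card_nsmul
    intro b hb
    exact (not_le.1 (Finset.mem_filter.1 hb).2).le
  have h5 : ((T.filter (fun i => ¬ 1 / 32 * s ^ 2 ≤
      ((E.filter fun p => (⌊p.1 / s⌋, ⌊p.2 / s⌋) = i).card : ℝ))).card : ℝ) ≤ 4 / θ ^ 2 :=
    (Nat.cast_le.2 (Finset.card_le_card (Finset.filter_subset _ _))).trans hTc
  rw [nsmul_eq_mul] at h3 h4
  have h6 := mul_le_mul_of_nonneg_right h5 (by positivity : 0 ≤ 1 / 32 * s ^ 2)
  have h7 : 4 / θ ^ 2 * (1 / 32 * s ^ 2) = N ^ 2 / 8 := by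
    rw [hs]
    field_simp
    norm_num
  have h8 : N ^ 2 / 8 ≤ (D.card : ℝ) * (4 * C * s ^ 2) := by linarith
  have h9 : N ^ 2 * 1 ≤ N ^ 2 * (32 * C * θ ^ 2 * (D.card : ℝ)) := by
    rw [hs] at h8
    linarith [h8, (by ring : (D.card : ℝ) * (4 * C * (θ * N) ^ 2) * 8 = N ^ 2 * (32 * C * θ ^ 2 * (D.card : ℝ)))]
  exact le_of_mul_le_mul_left h9 (by positivity)

/-- the line of a pair of a dense cell in the direction of `z` passes near `z` -/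
private theorem start_near (G N θ s x0 y0 a m : ℝ) (p z : ℝ × ℝ) (hG : 1 ≤ G) (hθ : 0 < θ) (hN : 0 < N)
    (hs : s = θ * N) (h1 : x0 ≤ p.1 ∧ p.1 ≤ x0 + s) (h2 : y0 ≤ p.2 ∧ p.2 ≤ y0 + s) (ha : |a| ≤ G)
    (haz : z.2 - y0 = a * (z.1 - x0)) (hm : |m - a| ≤ θ) (hz : 0 ≤ z.1 - p.1 ∧ z.1 - p.1 ≤ N) :
    |(z.2 - p.2) - m * (z.1 - p.1)| ≤ 3 * G * θ * N := by
  have e : (z.2 - p.2) - m * (z.1 - p.1) = (a - m) * (z.1 - p.1) + a * (p.1 - x0) + (y0 - p.2) := by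
    have : z.2 = y0 + a * (z.1 - x0) := by linarith
    rw [this]
    ring
  have hs0 : 0 < s := by rw [hs]; positivity
  have h3 : |(a - m) * (z.1 - p.1)| ≤ θ * N := by
    rw [abs_mul, abs_sub_comm, abs_of_nonneg hz.1]
    exact mul_le_mul hm hz.2 hz.1 hθ.le
  have h4 : |a * (p.1 - x0)| ≤ G * s := by
    rw [abs_mul, abs_of_nonneg (by linarith [h1.1] : 0 ≤ p.1 - x0)]
    exact mul_le_mul ha (by linarith [h1.2]) (by linarith [h1.1]) (by linarith)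
  have h5 : |y0 - p.2| ≤ s := by
    rw [abs_le]
    constructor <;> linarith [h2.1, h2.2]
  rw [e]
  have h6 := abs_add_le ((a - m) * (z.1 - p.1) + a * (p.1 - x0)) (y0 - p.2)
  have h7 := abs_add_le ((a - m) * (z.1 - p.1)) (a * (p.1 - x0))
  have h8 : θ * N ≤ G * (θ * N) := by
    have : 0 ≤ θ * N := by positivity
    nlinarith
  rw [hs] at h4 h5
  linarith [h8, (by ring : 3 * G * θ * N = G * (θ * N) + G * (θ * N) + G * (θ * N))]

/-- number of pairs pointing at `z` -/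
private theorem start_z (ε G κ c' θ lam K N s : ℝ) (hG : 1 ≤ G)
    (hd : ∀ S : Finset (ℝ × ℝ), Sep ε S → ∀ θ K s x0 y0 a : ℝ, 0 < θ → θ ≤ 1 → 1 ≤ κ * θ * K → K ≤ s →
        (∀ z ∈ S, (x0 ≤ z.1 ∧ z.1 ≤ x0 + s) ∧ y0 ≤ z.2 ∧ z.2 ≤ y0 + s) → 1 / 32 * s ^ 2 ≤ (S.card : ℝ) →
        |a| ≤ G →
        c' * θ * K ^ 2 * s ^ 2 ≤ (((S ×ˢ S).filter fun e =>
          κ * K ≤ e.2.1 - e.1.1 ∧ e.2.1 - e.1.1 ≤ K ∧ |(ln e).1 - a| ≤ θ).card : ℝ))
    (hθ : 0 < θ) (hθ1 : θ ≤ 1) (hK : 1 ≤ κ * θ * K) (hKs : K ≤ s) (hs1 : 1 ≤ s) (hs : s = θ * N)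
    (hlam : 3 * G * θ = lam) (hN : 0 < N)
    (E F : Finset (ℝ × ℝ)) (hE : Sep ε E) (hEb : InBox N E) (hFb : InBox N F)
    (hEF : ∀ p ∈ E, ∀ z ∈ F, N / G ≤ z.1 - p.1)
    (D : Finset (ℤ × ℤ))
    (hD : ∀ i ∈ D, 1 / 32 * s ^ 2 ≤ ((E.filter fun p => (⌊p.1 / s⌋, ⌊p.2 / s⌋) = i).card : ℝ))
    (z : ℝ × ℝ) (hz : z ∈ F) :
    (D.card : ℝ) * (c' * θ * K ^ 2 * s ^ 2) ≤
      (((pairs E κ K (2 * G)).filter fun e => |sv (ln e) z| ≤ lam * N).card : ℝ) := by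
  classical
  have hs0 : 0 < s := by linarith
  have hG0 : 0 < G := by linarith
  have key : ∀ i ∈ D, c' * θ * K ^ 2 * s ^ 2 ≤ ((((pairs E κ K (2 * G)).filter fun e => |sv (ln e) z| ≤ lam * N).filter
      fun e => (⌊e.1.1 / s⌋, ⌊e.1.2 / s⌋) = i).card : ℝ) := by
    intro i hi
    have hcell : ∀ p ∈ E.filter fun p => (⌊p.1 / s⌋, ⌊p.2 / s⌋) = i,
        ((i.1 : ℝ) * s ≤ p.1 ∧ p.1 ≤ i.1 * s + s) ∧ (i.2 : ℝ) * s ≤ p.2 ∧ p.2 ≤ i.2 * s + s := by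
      intro p hp
      obtain ⟨hp1, hp2⟩ := Finset.mem_filter.1 hp
      have hp3 : ⌊p.1 / s⌋ = i.1 := by rw [← hp2]
      have hp4 : ⌊p.2 / s⌋ = i.2 := by rw [← hp2]
      rw [Int.floor_eq_iff] at hp3 hp4
      rw [le_div_iff₀ hs0, div_lt_iff₀ hs0] at hp3 hp4
      exact ⟨⟨hp3.1, by linarith [hp3.2]⟩, hp4.1, by linarith [hp4.2]⟩
    -- a point of the cell
    obtain ⟨p0, hp0⟩ : (E.filter fun p => (⌊p.1 / s⌋, ⌊p.2 / s⌋) = i).Nonempty := by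
      rw [← Finset.card_pos]
      have h1 := hD i hi
      have h2 : (0 : ℝ) < ((E.filter fun p => (⌊p.1 / s⌋, ⌊p.2 / s⌋) = i).card : ℝ) :=
        lt_of_lt_of_le (by positivity) h1
      exact_mod_cast h2
    have hp0E := (Finset.mem_filter.1 hp0).1
    have hp0c := hcell p0 hp0
    have hp0b := hEb p0 hp0E
    have hzb := hFb z hz
    have h1 := hEF p0 hp0E z hz
    have hNG : 0 < N / G := by positivity
    have h2 : N / G ≤ z.1 - i.1 * s := by linarith [hp0c.1.1]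
    have h2' : 0 < z.1 - i.1 * s := by linarith
    have hi2 : (0 : ℝ) ≤ (i.2 : ℝ) * s := by
      have : ⌊p0.2 / s⌋ = i.2 := by rw [← (Finset.mem_filter.1 hp0).2]
      have h3 : (0 : ℤ) ≤ i.2 := by
        rw [← this]
        exact Int.floor_nonneg.2 (div_nonneg hp0b.2.2.1 hs0.le)
      have h4 : (0 : ℝ) ≤ (i.2 : ℝ) := by exact_mod_cast h3
      positivity
    have h3 : |z.2 - i.2 * s| ≤ N := by
      rw [abs_le]
      constructor <;> linarith [hzb.2.2.1, hzb.2.2.2, hp0c.2.1, hp0b.2.2.2]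
    have ha : |(z.2 - i.2 * s) / (z.1 - i.1 * s)| ≤ G := by
      rw [abs_div, abs_of_pos h2', div_le_iff₀ h2']
      refine h3.trans ?_
      have := mul_le_mul_of_nonneg_left h2 hG0.le
      rwa [mul_div_cancel₀ _ hG0.ne'] at this
    have haz : z.2 - i.2 * s = (z.2 - i.2 * s) / (z.1 - i.1 * s) * (z.1 - i.1 * s) := by
      rw [div_mul_cancel₀ _ h2'.ne']
    set a := (z.2 - i.2 * s) / (z.1 - i.1 * s) with hadef
    have h4 := hd (E.filter fun p => (⌊p.1 / s⌋, ⌊p.2 / s⌋) = i) (hE.mono (Finset.filter_subset _ _)) θ K s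
      (i.1 * s) (i.2 * s) a hθ hθ1 hK hKs hcell (hD i hi) ha
    refine h4.trans (Nat.cast_le.2 (Finset.card_le_card ?_))
    intro e he
    obtain ⟨he1, he2, he3, he4⟩ := Finset.mem_filter.1 he
    obtain ⟨he5, he6⟩ := Finset.mem_product.1 he1
    have he7 := Finset.mem_filter.1 he5
    have he8 := Finset.mem_filter.1 he6
    have hm : |(ln e).1| ≤ 2 * G := by
      have h5 : |(ln e).1| ≤ |(ln e).1 - a| + |a| := by
        have := abs_add_le ((ln e).1 - a) a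
        rwa [sub_add_cancel] at this
      linarith
    have hx : 0 ≤ z.1 - e.1.1 ∧ z.1 - e.1.1 ≤ N := by
      have h5 := hEF e.1 he7.1 z hz
      have h6 := hEb e.1 he7.1
      exact ⟨by linarith, by linarith [h6.1, hzb.2.1]⟩
    have h5 := start_near G N θ s (i.1 * s) (i.2 * s) a (ln e).1 e.1 z hG hθ hN hs (hcell e.1 he5).1 (hcell e.1 he5).2
      ha haz he4 hx
    rw [hlam] at h5
    have h6 : sv (ln e) z = (z.2 - e.1.2) - (ln e).1 * (z.1 - e.1.1) := by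
      unfold sv ln
      ring
    refine Finset.mem_filter.2 ⟨Finset.mem_filter.2 ⟨Finset.mem_filter.2 ⟨Finset.mem_product.2 ⟨he7.1, he8.1⟩,
      he2, he3, hm⟩, ?_⟩, he7.2⟩
    rw [h6]
    exact h5
  have h1 : (((pairs E κ K (2 * G)).filter fun e => |sv (ln e) z| ≤ lam * N).filter
      fun e => (⌊e.1.1 / s⌋, ⌊e.1.2 / s⌋) ∈ D).card =
      ∑ i ∈ D, (((pairs E κ K (2 * G)).filter fun e => |sv (ln e) z| ≤ lam * N).filter
      fun e => (⌊e.1.1 / s⌋, ⌊e.1.2 / s⌋) = i).card := by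
    rw [Finset.card_eq_sum_card_fiberwise (f := fun e => (⌊e.1.1 / s⌋, ⌊e.1.2 / s⌋)) (t := D)]
    · refine Finset.sum_congr rfl fun i hi => ?_
      congr 1
      ext e
      simp only [Finset.mem_filter]
      constructor
      · rintro ⟨⟨h1, _⟩, h2⟩
        exact ⟨h1, h2⟩
      · rintro ⟨h1, h2⟩
        exact ⟨⟨h1, h2 ▸ hi⟩, h2⟩
    · intro e he
      exact (Finset.mem_filter.1 he).2
  have h2 : ((((pairs E κ K (2 * G)).filter fun e => |sv (ln e) z| ≤ lam * N).filter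
      fun e => (⌊e.1.1 / s⌋, ⌊e.1.2 / s⌋) ∈ D).card : ℝ) ≤
      (((pairs E κ K (2 * G)).filter fun e => |sv (ln e) z| ≤ lam * N).card : ℝ) :=
    Nat.cast_le.2 (Finset.card_le_card (Finset.filter_subset _ _))
  refine le_trans ?_ h2
  rw [h1]
  push_cast
  rw [← nsmul_eq_mul]
  exact Finset.card_nsmul_le_sum _ _ _ key

/-- large tubes around `K`-pairs of `E` contain the right number of points of `F`; `c` does not depend on `lam` -/
theorem start (ε G : ℝ) (hε : 0 < ε) (hG : 1 ≤ G) :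
    ∃ κ c B : ℝ, 0 < κ ∧ κ ≤ 1 ∧ 0 < c ∧ 1 ≤ B ∧
      ∀ lam : ℝ, 0 < lam → lam ≤ 1 → ∀ K N : ℝ, B / lam ≤ K → B / lam * K ≤ N →
        ∀ E F : Finset (ℝ × ℝ), Sep ε E → InBox N E → InBox N F →
          (∀ p ∈ E, ∀ z ∈ F, N / G ≤ z.1 - p.1) → N ^ 2 / 4 ≤ (E.card : ℝ) → N ^ 2 / 4 ≤ (F.card : ℝ) →
          c * K ^ 2 * N ^ 3 ≤ ∑ e ∈ pairs E κ K (2 * G), gs F (lam * N) (ln e) := by
  classical
  obtain ⟨κ, c', hκ0, hκ1, hc', hd⟩ := dirpairs ε G (1 / 32) hε hG (by norm_num)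
  obtain ⟨C, hC1, hC2⟩ := cnt ε 0 hε le_rfl
  have hG0 : 0 < G := by linarith
  have hC0 : 0 < C := by linarith
  refine ⟨κ, c' / (768 * C * G), 3 * G / κ + 3 * G + 1, hκ0, hκ1, by positivity, ?_, ?_⟩
  · have : 0 < 3 * G / κ := by positivity
    linarith
  intro lam hlam hlam1
  obtain ⟨θ, hθdef⟩ : ∃ θ : ℝ, θ = lam / (3 * G) := ⟨_, rfl⟩
  have hθ : 0 < θ := by rw [hθdef]; positivity
  have hθlam : 3 * G * θ = lam := by
    rw [hθdef]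
    field_simp
  have hθ1 : θ ≤ 1 := by
    rw [hθdef, div_le_one (by positivity)]
    linarith
  intro K N hK hKN E F hE hEb hFb hEF hEc hFc
  have hB0 : 1 / (κ * θ) + 1 / θ + 1 ≤ (3 * G / κ + 3 * G + 1) / lam := by
    have e1 : 1 / (κ * θ) = 3 * G / κ / lam := by
      rw [hθdef]
      field_simp
    have e2 : 1 / θ = 3 * G / lam := by
      rw [hθdef]
      field_simp
    have e3 : 1 ≤ 1 / lam := by
      rw [le_div_iff₀ hlam]
      linarith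
    have e4 : (3 * G / κ + 3 * G + 1) / lam = 3 * G / κ / lam + 3 * G / lam + 1 / lam := by ring
    rw [e1, e2, e4]
    linarith
  have hB1 : 0 < 1 / (κ * θ) + 1 / θ + 1 := by positivity
  have hKpos : 0 < K := lt_of_lt_of_le hB1 (hB0.trans hK)
  replace hKN : (1 / (κ * θ) + 1 / θ + 1) * K ≤ N := (mul_le_mul_of_nonneg_right hB0 hKpos.le).trans hKN
  replace hK : 1 / (κ * θ) + 1 / θ + 1 ≤ K := hB0.trans hK
  have hi1 : 0 < 1 / (κ * θ) := by positivity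
  have hi2 : 0 < 1 / θ := by positivity
  have hK1 : 1 ≤ K := by linarith
  have hK0 : 0 < K := by linarith
  have hKκ : 1 ≤ κ * θ * K := by
    have h1 : 1 / (κ * θ) ≤ K := by linarith
    have h2 := mul_le_mul_of_nonneg_left h1 (by positivity : 0 ≤ κ * θ)
    rwa [mul_one_div_cancel (by positivity)] at h2
  have hKs : K ≤ θ * N := by
    have h1 : 1 / θ * K ≤ N := by
      refine le_trans ?_ hKN
      exact mul_le_mul_of_nonneg_right (by linarith) hK0.le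
    have h2 := mul_le_mul_of_nonneg_left h1 hθ.le
    rwa [← mul_assoc, mul_one_div_cancel hθ.ne', one_mul] at h2
  have hN : 0 < N := by
    by_contra hn
    have : θ * N ≤ 0 := mul_nonpos_of_nonneg_of_nonpos hθ.le (not_lt.1 hn)
    linarith
  obtain ⟨D, hD1, hD2⟩ := start_dense ε C ⟨hC1, hC2⟩ E hE N θ (θ * N) hθ hθ1 rfl (hK1.trans hKs) hEb hEc
  have hz := start_z ε G κ c' θ lam K N (θ * N) hG hd hθ hθ1 hKκ hKs (hK1.trans hKs) rfl hθlam hN E F hE hEb hFb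
    hEF D hD1
  have h1 : ∑ e ∈ pairs E κ K (2 * G), gs F (lam * N) (ln e) =
      ∑ z ∈ F, (((pairs E κ K (2 * G)).filter fun e => |sv (ln e) z| ≤ lam * N).card : ℝ) * (1 / (2 * (lam * N))) := by
    unfold gs hk
    rw [Finset.sum_comm]
    refine Finset.sum_congr rfl fun z _ => ?_
    rw [← Finset.sum_filter, Finset.sum_const, nsmul_eq_mul]
  rw [h1]
  have h2 : (F.card : ℝ) * ((D.card : ℝ) * (c' * θ * K ^ 2 * (θ * N) ^ 2) * (1 / (2 * (lam * N)))) ≤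
      ∑ z ∈ F, (((pairs E κ K (2 * G)).filter fun e => |sv (ln e) z| ≤ lam * N).card : ℝ) * (1 / (2 * (lam * N))) := by
    rw [← nsmul_eq_mul]
    apply Finset.card_nsmul_le_sum
    intro z hzF
    exact mul_le_mul_of_nonneg_right (hz z hzF) (by positivity)
  refine le_trans ?_ h2
  have h3 : N ^ 2 / 4 * ((D.card : ℝ) * (c' * θ * K ^ 2 * (θ * N) ^ 2) * (1 / (2 * (lam * N)))) ≤
      (F.card : ℝ) * ((D.card : ℝ) * (c' * θ * K ^ 2 * (θ * N) ^ 2) * (1 / (2 * (lam * N)))) :=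
    mul_le_mul_of_nonneg_right hFc (by positivity)
  refine le_trans ?_ h3
  have h4 : c' / (768 * C * G) * K ^ 2 * N ^ 3 * 1 ≤
      c' / (768 * C * G) * K ^ 2 * N ^ 3 * (32 * C * θ ^ 2 * (D.card : ℝ)) :=
    mul_le_mul_of_nonneg_left hD2 (by positivity)
  rw [mul_one] at h4
  refine h4.trans (le_of_eq ?_)
  rw [← hθlam]
  field_simp
  ring

end

end Pool.Agent.Lib.MP_a768d2_coS
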