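import Pool.Agent.Lib.MP_a768d2_coS.Defs
import Pool.Agent.Lib.MP_a768d2_coS.Meas

/-!
# MP_a768d2_co, thin strips: Step

Proof in words. For e ∈ L let box e = {l | |l.1 - (ln e).1| ≤ v / N, |l.2 - (ln e).2| ≤ v}, of measure 4 v ^ 2 / N, contained in lines G. D l = gs F v l - gs F (3 u) l. For l ∈ box e and z ∈ F: |sv l z - sv (ln e) z| ≤ 2 v (sv_sub, 0 ≤ z.1 ≤ N). So
gs F v l ≤ 3 gs F (3 v) (ln e) (|sv l z| ≤ v implies |sv (ln e) z| ≤ 3 v; 1 / (2 v) = 3 / (2 * 3 v)) and gs F (3 u) l ≥ gs F u (ln e) / 3 (|sv (ln e) z| ≤ u implies |sv l z| ≤ u + 2 v ≤ 3 u).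
So gs F u (ln e) / 3 - 3 gs F (3 v) (ln e) ≤ |D l| for all l ∈ box e. Integrate over box e: (4 v ^ 2 / N) (gs F u (ln e) / 3 - 3 gs F (3 v) (ln e)) ≤ ∫ box e, |D|. Sum over e: with n l = ∑ e ∈ L, 1_{box e} l,
(4 v ^ 2 / N) (LHS - first term of RHS) ≤ ∫ lines G, |D| n ≤ √(∫ D ^ 2) √(∫ n ^ 2) (Cauchy-Schwarz: e.g. integrate 0 ≤ (x |D| - y n) ^ 2, or MeasureTheory.integral_mul_le_Lp_mul_Lq), and ∫ n ^ 2 = ∑ e, ∑ e', volume (box e ∩ box e')
≤ (4 v ^ 2 / N) card (close L N v), because box e ∩ box e' nonempty implies |slope difference| ≤ 2 v / N and |intercept difference| ≤ 2 v. Divide by 4 v ^ 2 / N: √(4 v ^ 2 / N * M) / (4 v ^ 2 / N) = √(N / (4 v ^ 2) * M).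
-/

set_option autoImplicit false

namespace Pool.Agent.Lib.MP_a768d2_coS

noncomputable section

open Finset

open MeasureTheory

/-- Cauchy-Schwarz -/
private theorem step_cs {α : Type*} [MeasurableSpace α] (μ : Measure α) (f g : α → ℝ)
    (hf : AEStronglyMeasurable f μ) (hg : AEStronglyMeasurable g μ) (hf0 : ∀ x, 0 ≤ f x)
    (hg0 : ∀ x, 0 ≤ g x) (hf2 : Integrable (fun x => f x ^ 2) μ)
    (hg2 : Integrable (fun x => g x ^ 2) μ) :
    ∫ x, f x * g x ∂μ ≤ √(∫ x, f x ^ 2 ∂μ) * √(∫ x, g x ^ 2 ∂μ) := by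
  have h2 : ENNReal.ofReal 2 = 2 := by norm_num
  have h := integral_mul_le_Lp_mul_Lq_of_nonneg (μ := μ) (f := f) (g := g)
    Real.HolderConjugate.two_two (Filter.Eventually.of_forall hf0)
    (Filter.Eventually.of_forall hg0)
    (by rw [h2]; exact (memLp_two_iff_integrable_sq hf).2 hf2)
    (by rw [h2]; exact (memLp_two_iff_integrable_sq hg).2 hg2)
  have h3 : ∀ f : α → ℝ, (∫ x, f x ^ (2 : ℝ) ∂μ) ^ (1 / (2 : ℝ)) = √(∫ x, f x ^ 2 ∂μ) := by
    intro f
    rw [Real.sqrt_eq_rpow]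
    congr 1
    refine integral_congr_ae (Filter.Eventually.of_forall fun x => ?_)
    exact Real.rpow_two (f x)
  rw [h3, h3] at h
  exact h

/-- the box of lines around a line -/
private def step_box (N v : ℝ) (a : ℝ × ℝ) : Set (ℝ × ℝ) :=
  Set.Icc (a.1 - v / N) (a.1 + v / N) ×ˢ Set.Icc (a.2 - v) (a.2 + v)

private theorem step_box_meas (N v : ℝ) (a : ℝ × ℝ) : MeasurableSet (step_box N v a) :=
  measurableSet_Icc.prod measurableSet_Icc

private theorem step_box_vol {N v : ℝ} (hN : 0 < N) (hv : 0 < v) (a : ℝ × ℝ) :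
    volume.real (step_box N v a) = 4 * v ^ 2 / N := by
  rw [step_box, Measure.volume_eq_prod, measureReal_prod_prod, Real.volume_real_Icc,
    Real.volume_real_Icc]
  have h1 : a.1 + v / N - (a.1 - v / N) = 2 * (v / N) := by ring
  have h2 : a.2 + v - (a.2 - v) = 2 * v := by ring
  rw [h1, h2, max_eq_left (by positivity), max_eq_left (by positivity)]
  field_simp
  ring

private theorem step_box_fin (N v : ℝ) (a : ℝ × ℝ) : volume (step_box N v a) ≠ ⊤ := by
  rw [step_box]
  exact (isCompact_Icc.prod isCompact_Icc).measure_lt_top.ne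

private theorem step_mem {N v : ℝ} {a l : ℝ × ℝ} (h : l ∈ step_box N v a) :
    |l.1 - a.1| ≤ v / N ∧ |l.2 - a.2| ≤ v := by
  obtain ⟨h1, h2⟩ := h
  rw [Set.mem_Icc] at h1 h2
  exact ⟨abs_le.2 ⟨by linarith, by linarith⟩, abs_le.2 ⟨by linarith, by linarith⟩⟩

/-- the offsets from two nearby lines -/
private theorem step_sv {N v : ℝ} (hN : 0 < N) {a l z : ℝ × ℝ} (h : l ∈ step_box N v a)
    (hz : 0 ≤ z.1 ∧ z.1 ≤ N) : |sv l z - sv a z| ≤ 2 * v := by
  obtain ⟨h1, h2⟩ := step_mem h
  rw [sv_sub]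
  have h3 : |(a.1 - l.1) * z.1| ≤ v := by
    rw [abs_mul, abs_of_nonneg hz.1, abs_sub_comm]
    calc |l.1 - a.1| * z.1 ≤ v / N * N := by
          refine mul_le_mul h1 hz.2 hz.1 ?_
          exact (abs_nonneg _).trans h1
      _ = v := by field_simp
  have h4 : |a.2 - l.2| ≤ v := by
    rw [abs_sub_comm]
    exact h2
  calc |(a.1 - l.1) * z.1 + (a.2 - l.2)| ≤ |(a.1 - l.1) * z.1| + |a.2 - l.2| := abs_add_le _ _
    _ ≤ 2 * v := by linarith

private theorem step_up {F : Finset (ℝ × ℝ)} {N v : ℝ} (hN : 0 < N)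
    (hF : ∀ z ∈ F, 0 ≤ z.1 ∧ z.1 ≤ N) (hv : 0 < v) {a l : ℝ × ℝ} (h : l ∈ step_box N v a) :
    gs F v l ≤ 3 * gs F (3 * v) a := by
  unfold gs
  rw [Finset.mul_sum]
  refine Finset.sum_le_sum fun z hz => ?_
  have h1 := step_sv hN h (hF z hz)
  unfold hk
  by_cases h2 : |sv l z| ≤ v
  · have h3 : |sv a z| ≤ 3 * v := by
      have h4 : |sv a z| ≤ |sv l z| + |sv l z - sv a z| := by
        have := abs_sub_abs_le_abs_sub (sv a z) (sv l z)
        rw [abs_sub_comm (sv a z) (sv l z)] at this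
        linarith
      linarith
    rw [if_pos h2, if_pos h3]
    apply le_of_eq
    field_simp
  · rw [if_neg h2]
    split_ifs
    · positivity
    · simp

private theorem step_lo {F : Finset (ℝ × ℝ)} {N u v : ℝ} (hN : 0 < N)
    (hF : ∀ z ∈ F, 0 ≤ z.1 ∧ z.1 ≤ N) (hv : 0 < v) (hvu : v ≤ u) {a l : ℝ × ℝ}
    (h : l ∈ step_box N v a) : gs F u a / 3 ≤ gs F (3 * u) l := by
  unfold gs
  rw [Finset.sum_div]
  refine Finset.sum_le_sum fun z hz => ?_
  have h1 := step_sv hN h (hF z hz)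
  have hu : 0 < u := hv.trans_le hvu
  unfold hk
  by_cases h2 : |sv a z| ≤ u
  · have h3 : |sv l z| ≤ 3 * u := by
      have h4 : |sv l z| ≤ |sv a z| + |sv l z - sv a z| := by
        have := abs_sub_abs_le_abs_sub (sv l z) (sv a z)
        linarith
      linarith
    rw [if_pos h2, if_pos h3]
    apply le_of_eq
    field_simp
  · rw [if_neg h2]
    rw [zero_div]
    split_ifs
    · positivity
    · exact le_rfl

/-- the number of boxes containing a line -/
private def step_n (L : Finset ((ℝ × ℝ) × (ℝ × ℝ))) (N v : ℝ) (l : ℝ × ℝ) : ℝ :=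
  ∑ e ∈ L, (step_box N v (ln e)).indicator (1 : ℝ × ℝ → ℝ) l

private theorem step_n_meas (L : Finset ((ℝ × ℝ) × (ℝ × ℝ))) (N v : ℝ) :
    Measurable (step_n L N v) := by
  unfold step_n
  exact Finset.measurable_fun_sum _ fun e _ =>
    measurable_one.indicator (step_box_meas N v (ln e))

private theorem step_n_nonneg (L : Finset ((ℝ × ℝ) × (ℝ × ℝ))) (N v : ℝ) (l : ℝ × ℝ) :
    0 ≤ step_n L N v l :=
  Finset.sum_nonneg fun _ _ => Set.indicator_nonneg (fun _ _ => zero_le_one) _

private theorem step_n_sq (L : Finset ((ℝ × ℝ) × (ℝ × ℝ))) (N v : ℝ) (l : ℝ × ℝ) :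
    step_n L N v l ^ 2 = ∑ e ∈ L, ∑ e' ∈ L,
      (step_box N v (ln e) ∩ step_box N v (ln e')).indicator (1 : ℝ × ℝ → ℝ) l := by
  rw [step_n, pow_two, Finset.sum_mul_sum]
  refine Finset.sum_congr rfl fun e _ => Finset.sum_congr rfl fun e' _ => ?_
  rw [Set.inter_indicator_one]
  rfl

private theorem step_ind_int (μ : Measure (ℝ × ℝ)) (B : Set (ℝ × ℝ)) (hB : MeasurableSet B)
    (hμ : μ B ≠ ⊤) : Integrable (B.indicator (1 : ℝ × ℝ → ℝ)) μ := by
  rw [integrable_indicator_iff hB]
  exact integrableOn_const hμ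

private theorem step_res_fin (G N v : ℝ) (a : ℝ × ℝ) :
    (volume.restrict (lines G)) (step_box N v a) ≠ ⊤ :=
  ne_top_of_le_ne_top (step_box_fin N v a) (Measure.restrict_apply_le _ _)

private theorem step_n_sq_int (L : Finset ((ℝ × ℝ) × (ℝ × ℝ))) (N v G : ℝ) :
    Integrable (fun l => step_n L N v l ^ 2) (volume.restrict (lines G)) := by
  simp only [step_n_sq]
  refine integrable_finsetSum _ fun e _ => integrable_finsetSum _ fun e' _ => ?_
  refine step_ind_int _ _ ((step_box_meas N v _).inter (step_box_meas N v _)) ?_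
  exact ne_top_of_le_ne_top (step_res_fin G N v (ln e)) (measure_mono Set.inter_subset_left)

private theorem step_n_sq_le {L : Finset ((ℝ × ℝ) × (ℝ × ℝ))} {N v : ℝ} (hN : 0 < N)
    (hv : 0 < v) (G : ℝ) :
    ∫ l in lines G, step_n L N v l ^ 2 ≤ 4 * v ^ 2 / N * ((close L N v).card : ℝ) := by
  classical
  have h1 : ∫ l in lines G, step_n L N v l ^ 2 = ∑ e ∈ L, ∑ e' ∈ L,
      (volume.restrict (lines G)).real (step_box N v (ln e) ∩ step_box N v (ln e')) := by
    simp only [step_n_sq]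
    have hint : ∀ e e' : (ℝ × ℝ) × (ℝ × ℝ), Integrable
        ((step_box N v (ln e) ∩ step_box N v (ln e')).indicator (1 : ℝ × ℝ → ℝ))
        (volume.restrict (lines G)) := fun e e' =>
      step_ind_int _ _ ((step_box_meas N v _).inter (step_box_meas N v _))
        (ne_top_of_le_ne_top (step_res_fin G N v (ln e)) (measure_mono Set.inter_subset_left))
    rw [integral_finsetSum _ fun e _ => integrable_finsetSum _ fun e' _ => hint e e']
    refine Finset.sum_congr rfl fun e _ => ?_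
    rw [integral_finsetSum _ fun e' _ => hint e e']
    refine Finset.sum_congr rfl fun e' _ => ?_
    exact integral_indicator_one ((step_box_meas N v _).inter (step_box_meas N v _))
  have h2 : ∀ e e' : (ℝ × ℝ) × (ℝ × ℝ),
      (volume.restrict (lines G)).real (step_box N v (ln e) ∩ step_box N v (ln e')) ≤
      if |(ln e).1 - (ln e').1| ≤ 2 * v / N ∧ |(ln e).2 - (ln e').2| ≤ 2 * v then
        4 * v ^ 2 / N else 0 := by
    intro e e'
    split_ifs with hc
    · rw [← step_box_vol hN hv (ln e)]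
      refine ENNReal.toReal_mono (step_box_fin N v _) ?_
      exact (Measure.restrict_apply_le _ _).trans (measure_mono Set.inter_subset_left)
    · have he : step_box N v (ln e) ∩ step_box N v (ln e') = ∅ := by
        rw [Set.eq_empty_iff_forall_notMem]
        rintro l ⟨hl, hl'⟩
        apply hc
        obtain ⟨a1, a2⟩ := step_mem hl
        obtain ⟨b1, b2⟩ := step_mem hl'
        constructor
        · have h3 : (ln e).1 - (ln e').1 = (l.1 - (ln e').1) - (l.1 - (ln e).1) := by ring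
          rw [h3]
          refine (abs_sub _ _).trans ?_
          have h4 : 2 * v / N = v / N + v / N := by ring
          rw [h4]
          exact add_le_add b1 a1
        · have h3 : (ln e).2 - (ln e').2 = (l.2 - (ln e').2) - (l.2 - (ln e).2) := by ring
          rw [h3]
          refine (abs_sub _ _).trans ?_
          linarith
      rw [he]
      simp
  rw [h1]
  calc ∑ e ∈ L, ∑ e' ∈ L,
        (volume.restrict (lines G)).real (step_box N v (ln e) ∩ step_box N v (ln e')) ≤
        ∑ e ∈ L, ∑ e' ∈ L,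
          if |(ln e).1 - (ln e').1| ≤ 2 * v / N ∧ |(ln e).2 - (ln e').2| ≤ 2 * v then
            4 * v ^ 2 / N else 0 :=
        Finset.sum_le_sum fun e _ => Finset.sum_le_sum fun e' _ => h2 e e'
    _ = ∑ f ∈ close L N v, 4 * v ^ 2 / N := by
        rw [← Finset.sum_product', close, Finset.sum_filter]
    _ = 4 * v ^ 2 / N * ((close L N v).card : ℝ) := by
        rw [Finset.sum_const, nsmul_eq_mul, mul_comm]

/-- comparison of two scales -/
theorem step (F : Finset (ℝ × ℝ)) (N G u v : ℝ) (hN : 0 < N) (hF : ∀ z ∈ F, 0 ≤ z.1 ∧ z.1 ≤ N)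
    (hv : 0 < v) (hvu : v ≤ u) (L : Finset ((ℝ × ℝ) × (ℝ × ℝ))) (hL : ∀ e ∈ L, |(ln e).1| + v / N ≤ G) :
    (∑ e ∈ L, gs F u (ln e)) / 3 ≤ 3 * ∑ e ∈ L, gs F (3 * v) (ln e) +
      √(N / (4 * v ^ 2) * ((close L N v).card : ℝ)) *
        √(∫ l in lines G, (gs F v l - gs F (3 * u) l) ^ 2) := by
  classical
  have hu : 0 < u := hv.trans_le hvu
  set μ := volume.restrict (lines G) with hμ
  set Df : ℝ × ℝ → ℝ := fun l => |gs F v l - gs F (3 * u) l| with hDf
  have hDm : Measurable Df := ((measurable_gs F v).sub (measurable_gs F (3 * u))).abs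
  have hD2 : Integrable (fun l => Df l ^ 2) μ := by
    have h := intOn_sq F v (3 * u) G
    have h1 : (fun l => Df l ^ 2) = fun l => (gs F v l - gs F (3 * u) l) ^ 2 := by
      funext l
      rw [hDf]
      exact sq_abs _
    rw [h1]
    exact h
  set w : ℝ := 4 * v ^ 2 / N with hw
  have hwpos : 0 < w := by positivity
  -- one box
  have hsub : ∀ e ∈ L, step_box N v (ln e) ⊆ lines G := by
    intro e he l hl
    obtain ⟨h1, _⟩ := step_mem hl
    refine ⟨?_, Set.mem_univ _⟩
    have h2 : |l.1| ≤ G := by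
      have h3 := abs_sub_abs_le_abs_sub l.1 (ln e).1
      have := hL e he
      linarith
    exact abs_le.1 h2
  have hDn_int : Integrable (fun l => Df l * step_n L N v l) μ := by
    refine Integrable.mono' (hD2.add (step_n_sq_int L N v G))
      (hDm.mul (step_n_meas L N v)).aestronglyMeasurable ?_
    refine Filter.Eventually.of_forall fun l => ?_
    rw [Real.norm_eq_abs, abs_of_nonneg (mul_nonneg (abs_nonneg _) (step_n_nonneg L N v l))]
    show Df l * step_n L N v l ≤ Df l ^ 2 + step_n L N v l ^ 2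
    nlinarith [sq_nonneg (Df l - step_n L N v l), sq_nonneg (Df l + step_n L N v l)]
  have hD1 : ∀ e, Integrable (fun l => Df l * (step_box N v (ln e)).indicator (1 : ℝ × ℝ → ℝ) l)
      μ := by
    intro e
    refine Integrable.mono' (hD2.add (step_ind_int μ _ (step_box_meas N v (ln e))
      (step_res_fin G N v (ln e)))) (hDm.mul (measurable_one.indicator
        (step_box_meas N v (ln e)))).aestronglyMeasurable ?_
    refine Filter.Eventually.of_forall fun l => ?_
    by_cases hl : l ∈ step_box N v (ln e)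
    · show ‖Df l * _‖ ≤ Df l ^ 2 + _
      rw [Set.indicator_of_mem hl]
      rw [Pi.one_apply, mul_one, Real.norm_eq_abs, abs_of_nonneg (abs_nonneg _)]
      show Df l ≤ Df l ^ 2 + 1
      nlinarith [sq_nonneg (Df l - 1 / 2)]
    · show ‖Df l * _‖ ≤ Df l ^ 2 + _
      rw [Set.indicator_of_notMem hl, mul_zero, norm_zero, add_zero]
      exact sq_nonneg _
  have hbox : ∀ e ∈ L, w * (gs F u (ln e) / 3 - 3 * gs F (3 * v) (ln e)) ≤
      ∫ l, Df l * (step_box N v (ln e)).indicator (1 : ℝ × ℝ → ℝ) l ∂μ := by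
    intro e he
    have h1 : w * (gs F u (ln e) / 3 - 3 * gs F (3 * v) (ln e)) =
        ∫ l, (gs F u (ln e) / 3 - 3 * gs F (3 * v) (ln e)) *
          (step_box N v (ln e)).indicator (1 : ℝ × ℝ → ℝ) l ∂μ := by
      rw [integral_const_mul, integral_indicator_one (step_box_meas N v _), hμ,
        measureReal_restrict_apply (step_box_meas N v _),
        Set.inter_eq_self_of_subset_left (hsub e he), step_box_vol hN hv, mul_comm]
    rw [h1]
    refine integral_mono ((step_ind_int μ _ (step_box_meas N v (ln e))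
      (step_res_fin G N v (ln e))).const_mul _) (hD1 e) fun l => ?_
    by_cases hl : l ∈ step_box N v (ln e)
    · show _ * _ ≤ _ * _
      rw [Set.indicator_of_mem hl, Pi.one_apply, mul_one, mul_one]
      have h2 := step_up hN hF hv hl
      have h3 := step_lo hN hF hv hvu hl
      have h4 : gs F (3 * u) l - gs F v l ≤ Df l := by
        rw [hDf]
        show _ ≤ |gs F v l - gs F (3 * u) l|
        rw [abs_sub_comm]
        exact le_abs_self _
      linarith
    · show _ * _ ≤ _ * _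
      rw [Set.indicator_of_notMem hl, mul_zero, mul_zero]
  have hsum : w * ((∑ e ∈ L, gs F u (ln e)) / 3 - 3 * ∑ e ∈ L, gs F (3 * v) (ln e)) ≤
      ∫ l, Df l * step_n L N v l ∂μ := by
    have h1 : ∫ l, Df l * step_n L N v l ∂μ = ∑ e ∈ L,
        ∫ l, Df l * (step_box N v (ln e)).indicator (1 : ℝ × ℝ → ℝ) l ∂μ := by
      rw [← integral_finsetSum _ fun e _ => hD1 e]
      refine integral_congr_ae (Filter.Eventually.of_forall fun l => ?_)
      exact Finset.mul_sum _ _ _
    rw [h1]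
    have h2 : w * ((∑ e ∈ L, gs F u (ln e)) / 3 - 3 * ∑ e ∈ L, gs F (3 * v) (ln e)) =
        ∑ e ∈ L, w * (gs F u (ln e) / 3 - 3 * gs F (3 * v) (ln e)) := by
      rw [← Finset.mul_sum, Finset.sum_sub_distrib, Finset.sum_div, Finset.mul_sum]
    rw [h2]
    exact Finset.sum_le_sum hbox
  have hcs := step_cs μ Df (step_n L N v) hDm.aestronglyMeasurable
    (step_n_meas L N v).aestronglyMeasurable (fun l => abs_nonneg _) (step_n_nonneg L N v) hD2
    (step_n_sq_int L N v G)
  have hn2 := step_n_sq_le (L := L) hN hv G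
  have hDeq : ∫ l, Df l ^ 2 ∂μ = ∫ l in lines G, (gs F v l - gs F (3 * u) l) ^ 2 := by
    refine integral_congr_ae (Filter.Eventually.of_forall fun l => ?_)
    exact sq_abs _
  rw [hDeq] at hcs
  set I : ℝ := ∫ l in lines G, (gs F v l - gs F (3 * u) l) ^ 2 with hI
  have h5 : w * ((∑ e ∈ L, gs F u (ln e)) / 3 - 3 * ∑ e ∈ L, gs F (3 * v) (ln e)) ≤
      √I * √(w * ((close L N v).card : ℝ)) := by
    refine hsum.trans (hcs.trans ?_)
    exact mul_le_mul_of_nonneg_left (Real.sqrt_le_sqrt hn2) (Real.sqrt_nonneg _)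
  have h6 : √(w * ((close L N v).card : ℝ)) = w * √(N / (4 * v ^ 2) * ((close L N v).card : ℝ)) := by
    have h7 : w * ((close L N v).card : ℝ) =
        w ^ 2 * (N / (4 * v ^ 2) * ((close L N v).card : ℝ)) := by
      rw [hw]
      field_simp
    rw [h7, Real.sqrt_mul (sq_nonneg w), Real.sqrt_sq hwpos.le]
  rw [h6] at h5
  have h8 : w * ((∑ e ∈ L, gs F u (ln e)) / 3 - 3 * ∑ e ∈ L, gs F (3 * v) (ln e)) ≤
      w * (√(N / (4 * v ^ 2) * ((close L N v).card : ℝ)) * √I) := by
    calc _ ≤ √I * (w * √(N / (4 * v ^ 2) * ((close L N v).card : ℝ))) := h5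
      _ = _ := by ring
  have h9 := le_of_mul_le_mul_left h8 hwpos
  linarith

end

end Pool.Agent.Lib.MP_a768d2_coS
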