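import Pool.Agent.Lib.MP_a768d2_coS.Defs
import Pool.Agent.Lib.MP_a768d2_coS.Cnt
import Pool.Agent.Lib.MP_a768d2_coS.Split
import Pool.Agent.Lib.MP_a768d2_coS.Start
import Pool.Agent.Lib.MP_a768d2_coS.L2
import Pool.Agent.Lib.MP_a768d2_coS.Ctl
import Pool.Agent.Lib.MP_a768d2_coS.Step
import Pool.Agent.Lib.MP_a768d2_coS.Mult

/-!
# MP_a768d2_co, thin strips: Rich

Two applications of `step` at the scale `K = N ^ (2 / 5)`: from tubes of half-width `lam N` to tubes of half-width `3 N / K ^ 2`, where the number of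
pairs of close lines is bounded by `close_card`, and from there to tubes of half-width about `c / (G K)`, which are empty by the fatness: so the number of
pairs of close lines at this scale is large, and the pigeonhole principle gives a tube with many aligned pairs. We write `N = v ^ 5`, `K = v ^ 2`;
the dependence on `c` is explicit.
-/

set_option autoImplicit false

namespace Pool.Agent.Lib.MP_a768d2_coS

noncomputable section

open Finset

/-- total number of points -/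
private theorem rich_card (C0 G ε N : ℝ) (hC0 : 1 ≤ C0) (hG : 0 ≤ G) (hN : 1 ≤ N)
    (hcnt : ∀ P : Finset (ℝ × ℝ), Sep ε P → ∀ m a t A B : ℝ, |m| ≤ G → 0 ≤ A → 0 ≤ B →
      ((P.filter fun z => (a ≤ z.1 ∧ z.1 ≤ a + A) ∧ t ≤ z.2 - m * z.1 ∧ z.2 - m * z.1 ≤ t + B).card : ℝ) ≤
        C0 * (1 + A) * (1 + B))
    (P : Finset (ℝ × ℝ)) (hP : Sep ε P) (hPN : InBox N P) : (P.card : ℝ) ≤ 4 * C0 * N ^ 2 := by
  have h1 := hcnt P hP 0 0 0 N N (by simpa using hG) (by linarith) (by linarith)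
  have h2 : (P.filter fun z => (0 ≤ z.1 ∧ z.1 ≤ 0 + N) ∧ 0 ≤ z.2 - 0 * z.1 ∧ z.2 - 0 * z.1 ≤ 0 + N) = P := by
    refine Finset.filter_true_of_mem fun z hz => ?_
    obtain ⟨h1, h2, h3, h4⟩ := hPN z hz
    refine ⟨⟨h1, by linarith⟩, by linarith, by linarith⟩
  rw [h2] at h1
  refine h1.trans ?_
  have h3 : (1 + N) ≤ 2 * N := by linarith
  have h4 : (1 + N) * (1 + N) ≤ (2 * N) * (2 * N) := mul_le_mul h3 h3 (by linarith) (by linarith)
  calc C0 * (1 + N) * (1 + N) = C0 * ((1 + N) * (1 + N)) := by ring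
    _ ≤ C0 * ((2 * N) * (2 * N)) := mul_le_mul_of_nonneg_left h4 (by linarith)
    _ = 4 * C0 * N ^ 2 := by ring

/-- a tube contains the right number of points at most -/
private theorem rich_gs (C0 G ε N w : ℝ) (hC0 : 1 ≤ C0) (hN : 1 ≤ N) (hw : 1 ≤ w)
    (hcnt : ∀ P : Finset (ℝ × ℝ), Sep ε P → ∀ m a t A B : ℝ, |m| ≤ G → 0 ≤ A → 0 ≤ B →
      ((P.filter fun z => (a ≤ z.1 ∧ z.1 ≤ a + A) ∧ t ≤ z.2 - m * z.1 ∧ z.2 - m * z.1 ≤ t + B).card : ℝ) ≤
        C0 * (1 + A) * (1 + B))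
    (P : Finset (ℝ × ℝ)) (hP : Sep ε P) (hPN : InBox N P) (l : ℝ × ℝ) (hl : |l.1| ≤ G) :
    gs P w l ≤ 3 * C0 * N := by
  rw [gs_eq, div_le_iff₀ (by linarith)]
  have h1 := hcnt P hP l.1 0 (l.2 - w) N (2 * w) hl (by linarith) (by linarith)
  have h2 : (P.filter fun z => |sv l z| ≤ w) ⊆
      (P.filter fun z => (0 ≤ z.1 ∧ z.1 ≤ 0 + N) ∧ l.2 - w ≤ z.2 - l.1 * z.1 ∧
        z.2 - l.1 * z.1 ≤ l.2 - w + 2 * w) := by
    intro z hz
    rw [Finset.mem_filter] at hz ⊢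
    obtain ⟨hz1, hz2⟩ := hz
    obtain ⟨h1, h2, h3, h4⟩ := hPN z hz1
    rw [abs_le] at hz2
    unfold sv at hz2
    refine ⟨hz1, ⟨h1, by linarith⟩, by linarith [hz2.1], by linarith [hz2.2]⟩
  have h3 : ((P.filter fun z => |sv l z| ≤ w).card : ℝ) ≤ C0 * (1 + N) * (1 + 2 * w) :=
    le_trans (by exact_mod_cast Finset.card_le_card h2) h1
  refine h3.trans ?_
  have h4 : (1 + N) * (1 + 2 * w) ≤ (2 * N) * (3 * w) :=
    mul_le_mul (by linarith) (by linarith) (by linarith) (by linarith)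
  calc C0 * (1 + N) * (1 + 2 * w) = C0 * ((1 + N) * (1 + 2 * w)) := by ring
    _ ≤ C0 * ((2 * N) * (3 * w)) := mul_le_mul_of_nonneg_left h4 (by linarith)
    _ = 3 * C0 * N * (2 * w) := by ring

/-- total number of pairs -/
private theorem rich_pairs (C0 G ε N K κ : ℝ) (hC0 : 1 ≤ C0) (hG : 1 ≤ G) (hN : 1 ≤ N) (hK : 1 ≤ K) (hκ : 0 < κ)
    (hcnt : ∀ P : Finset (ℝ × ℝ), Sep ε P → ∀ m a t A B : ℝ, |m| ≤ G → 0 ≤ A → 0 ≤ B →
      ((P.filter fun z => (a ≤ z.1 ∧ z.1 ≤ a + A) ∧ t ≤ z.2 - m * z.1 ∧ z.2 - m * z.1 ≤ t + B).card : ℝ) ≤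
        C0 * (1 + A) * (1 + B))
    (P : Finset (ℝ × ℝ)) (hP : Sep ε P) (hPN : InBox N P) :
    ((pairs P κ K G).card : ℝ) ≤ 24 * C0 ^ 2 * G * (N ^ 2 * K ^ 2) := by
  have hc := rich_card C0 G ε N hC0 (by linarith) hN hcnt P hP hPN
  have hfib : ∀ p ∈ P, ((((pairs P κ K G).filter fun e => e.1 = p).card : ℕ) : ℝ) ≤ 6 * C0 * G * K ^ 2 := by
    intro p hp
    have h1 := hcnt P hP 0 p.1 (p.2 - G * K) K (2 * (G * K)) (by simpa using (by linarith : (0:ℝ) ≤ G))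
      (by linarith) (by positivity)
    have h2 : ((pairs P κ K G).filter fun e => e.1 = p).card ≤
        (P.filter fun z => (p.1 ≤ z.1 ∧ z.1 ≤ p.1 + K) ∧ p.2 - G * K ≤ z.2 - 0 * z.1 ∧
          z.2 - 0 * z.1 ≤ p.2 - G * K + 2 * (G * K)).card := by
      refine Finset.card_le_card_of_injOn (fun e => e.2) ?_ ?_
      · intro e he
        rw [Finset.mem_coe, Finset.mem_filter] at he
        obtain ⟨he, hep⟩ := he
        unfold pairs at he
        rw [Finset.mem_filter, Finset.mem_product] at he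
        obtain ⟨⟨he1, he2⟩, h1, h2, h3⟩ := he
        have hκK : 0 < κ * K := by positivity
        have hd : 0 < e.2.1 - e.1.1 := by linarith
        have h4 : |e.2.2 - e.1.2| ≤ G * K := by
          have h5 : e.2.2 - e.1.2 = (ln e).1 * (e.2.1 - e.1.1) := by
            unfold ln
            field_simp
          rw [h5, abs_mul, abs_of_pos hd]
          exact mul_le_mul h3 h2 hd.le (by linarith)
        rw [abs_le] at h4
        rw [hep] at h1 h2 h4 hd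
        rw [Finset.mem_coe, Finset.mem_filter]
        refine ⟨he2, ⟨by linarith, by linarith⟩, by linarith [h4.1], by linarith [h4.2]⟩
      · intro e he e' he' h
        rw [Finset.mem_coe, Finset.mem_filter] at he he'
        exact Prod.ext (he.2.trans he'.2.symm) h
    have h3 : ((((pairs P κ K G).filter fun e => e.1 = p).card : ℕ) : ℝ) ≤ C0 * (1 + K) * (1 + 2 * (G * K)) :=
      le_trans (by exact_mod_cast h2) h1
    refine h3.trans ?_
    have hGK : 1 ≤ G * K := by nlinarith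
    have h4 : (1 + K) * (1 + 2 * (G * K)) ≤ (2 * K) * (3 * (G * K)) :=
      mul_le_mul (by linarith) (by linarith) (by positivity) (by linarith)
    calc C0 * (1 + K) * (1 + 2 * (G * K)) = C0 * ((1 + K) * (1 + 2 * (G * K))) := by ring
      _ ≤ C0 * ((2 * K) * (3 * (G * K))) := mul_le_mul_of_nonneg_left h4 (by linarith)
      _ = 6 * C0 * G * K ^ 2 := by ring
  have hmaps : ∀ e ∈ pairs P κ K G, e.1 ∈ P := by
    intro e he
    unfold pairs at he
    rw [Finset.mem_filter, Finset.mem_product] at he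
    exact he.1.1
  have h5 := Finset.card_eq_sum_card_fiberwise (f := fun e : (ℝ × ℝ) × (ℝ × ℝ) => e.1) (t := P)
    (s := pairs P κ K G) (fun e he => hmaps e he)
  rw [h5]
  push_cast
  calc (∑ p ∈ P, (((pairs P κ K G).filter fun e => e.1 = p).card : ℝ)) ≤ ∑ p ∈ P, 6 * C0 * G * K ^ 2 :=
        Finset.sum_le_sum hfib
    _ = (P.card : ℝ) * (6 * C0 * G * K ^ 2) := by rw [Finset.sum_const, nsmul_eq_mul]
    _ ≤ (4 * C0 * N ^ 2) * (6 * C0 * G * K ^ 2) := mul_le_mul_of_nonneg_right hc (by positivity)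
    _ = 24 * C0 ^ 2 * G * (N ^ 2 * K ^ 2) := by ring

/-- the good pairs still see the right number of points of `F` -/
private theorem rich_good (ε G C0 c1 η A κ K N w : ℝ) (hC0 : 1 ≤ C0) (hN : 1 ≤ N) (hw : 1 ≤ w) (hK : 1 ≤ K)
    (hκ : 0 < κ)
    (hcnt : ∀ P : Finset (ℝ × ℝ), Sep ε P → ∀ m a t A B : ℝ, |m| ≤ G → 0 ≤ A → 0 ≤ B →
      ((P.filter fun z => (a ≤ z.1 ∧ z.1 ≤ a + A) ∧ t ≤ z.2 - m * z.1 ∧ z.2 - m * z.1 ≤ t + B).card : ℝ) ≤
        C0 * (1 + A) * (1 + B))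
    (P E F : Finset (ℝ × ℝ)) (hP : Sep ε P) (hPN : InBox N P) (hE : E ⊆ P) (hF : F ⊆ P)
    (hctl : (((P ×ˢ P).filter fun e => 0 < e.2.1 - e.1.1 ∧ e.2.1 - e.1.1 ≤ K ∧ |(ln e).1| ≤ G ∧
        A < ((tube P K e).card : ℝ)).card : ℝ) ≤ η * N ^ 2 * K ^ 2)
    (hη : η * (3 * C0) ≤ c1 / 2)
    (hst : c1 * K ^ 2 * N ^ 3 ≤ ∑ e ∈ pairs E κ K G, gs F w (ln e)) :
    c1 / 2 * (K ^ 2 * N ^ 3) ≤
      ∑ e ∈ (pairs E κ K G).filter fun e => ((tube P K e).card : ℝ) ≤ A, gs F w (ln e) := by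
  have h1 := Finset.sum_filter_add_sum_filter_not (pairs E κ K G) (fun e => ((tube P K e).card : ℝ) ≤ A)
    (fun e => gs F w (ln e))
  have h2 : ∑ e ∈ (pairs E κ K G).filter (fun e => ¬ ((tube P K e).card : ℝ) ≤ A), gs F w (ln e) ≤
      ∑ _e ∈ (pairs E κ K G).filter (fun e => ¬ ((tube P K e).card : ℝ) ≤ A), 3 * C0 * N := by
    refine Finset.sum_le_sum fun e he => ?_
    rw [Finset.mem_filter] at he
    have h3 := he.1
    unfold pairs at h3
    rw [Finset.mem_filter] at h3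
    exact rich_gs C0 G ε N w hC0 hN hw hcnt F (hP.mono hF) (hPN.mono hF) (ln e) h3.2.2.2
  rw [Finset.sum_const, nsmul_eq_mul] at h2
  have h3 : (((pairs E κ K G).filter (fun e => ¬ ((tube P K e).card : ℝ) ≤ A)).card : ℝ) ≤ η * N ^ 2 * K ^ 2 := by
    refine le_trans ?_ hctl
    exact_mod_cast Finset.card_le_card (by
      intro e he
      unfold pairs at he
      rw [Finset.mem_filter, Finset.mem_filter, Finset.mem_product] at he
      obtain ⟨⟨⟨he1, he2⟩, h1, h2, h3⟩, h4⟩ := he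
      have hκK : 0 < κ * K := by positivity
      rw [Finset.mem_filter, Finset.mem_product]
      exact ⟨⟨hE he1, hE he2⟩, by linarith, h2, h3, not_le.1 h4⟩)
  have h4 : (((pairs E κ K G).filter (fun e => ¬ ((tube P K e).card : ℝ) ≤ A)).card : ℝ) * (3 * C0 * N) ≤
      c1 / 2 * (K ^ 2 * N ^ 3) := by
    have h5 : (((pairs E κ K G).filter (fun e => ¬ ((tube P K e).card : ℝ) ≤ A)).card : ℝ) * (3 * C0 * N) ≤
        (η * N ^ 2 * K ^ 2) * (3 * C0 * N) := mul_le_mul_of_nonneg_right h3 (by positivity)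
    have h6 : (η * N ^ 2 * K ^ 2) * (3 * C0 * N) = (η * (3 * C0)) * (K ^ 2 * N ^ 3) := by ring
    rw [h6] at h5
    exact h5.trans (mul_le_mul_of_nonneg_right hη (by positivity))
  have h7 : c1 * K ^ 2 * N ^ 3 = c1 / 2 * (K ^ 2 * N ^ 3) + c1 / 2 * (K ^ 2 * N ^ 3) := by ring
  linarith

/-- pigeonhole: one pair close to many pairs -/
private theorem rich_pigeon (L : Finset ((ℝ × ℝ) × (ℝ × ℝ))) (N v B D : ℝ) (hL : (L.card : ℝ) ≤ B) (hD : 0 < D)
    (hB : 0 < B) (h : B * D ≤ ((close L N v).card : ℝ)) :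
    ∃ e ∈ L, D ≤ ((L.filter fun e' => |(ln e).1 - (ln e').1| ≤ 2 * v / N ∧
      |(ln e).2 - (ln e').2| ≤ 2 * v).card : ℝ) := by
  by_contra hcon
  push Not at hcon
  have h1 : (close L N v).card = ∑ e ∈ L, (L.filter fun e' => |(ln e).1 - (ln e').1| ≤ 2 * v / N ∧
      |(ln e).2 - (ln e').2| ≤ 2 * v).card := by
    unfold close
    rw [Finset.card_filter, Finset.sum_product]
    refine Finset.sum_congr rfl fun e _ => ?_
    rw [Finset.card_filter]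
  have hne : L.Nonempty := by
    rw [Finset.nonempty_iff_ne_empty]
    intro h0
    rw [h1, h0] at h
    simp at h
    exact absurd h (not_le.2 (mul_pos hB hD))
  have h2 : ((close L N v).card : ℝ) < ∑ _e ∈ L, D := by
    rw [h1]
    push_cast
    exact Finset.sum_lt_sum_of_nonempty hne fun e he => hcon e he
  rw [Finset.sum_const, nsmul_eq_mul] at h2
  have h3 : (L.card : ℝ) * D ≤ B * D := mul_le_mul_of_nonneg_right hL hD.le
  linarith

/-- square root bookkeeping -/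
private theorem rich_sqrt_le (a b x : ℝ) (ha : 0 ≤ a) (hx : 0 ≤ x) (h : a * b ≤ x ^ 2) : √a * √b ≤ x := by
  rw [← Real.sqrt_mul ha]
  exact Real.sqrt_le_iff.2 ⟨hx, h⟩

private theorem rich_le_of_sqrt (a b x : ℝ) (ha : 0 ≤ a) (hb : 0 ≤ b) (hx : 0 ≤ x) (h : x ≤ √a * √b) : x ^ 2 ≤ a * b := by
  have h1 : x ^ 2 ≤ (√a * √b) ^ 2 := pow_le_pow_left₀ hx h 2
  rwa [mul_pow, Real.sq_sqrt ha, Real.sq_sqrt hb] at h1

/-- the vertical gap forces empty thin tubes -/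
private theorem rich_empty (c G K N w κ : ℝ) (hc : 0 < c) (hG : 1 ≤ G) (hK : 1 ≤ K) (hN : 1 ≤ N) (hκ : 0 < κ)
    (hwc : w < c / (G * K)) (P E F : Finset (ℝ × ℝ)) (hF : Fat (c / N) P) (hEP : E ⊆ P) (hFP : F ⊆ P)
    (hEF : ∀ p ∈ E, ∀ z ∈ F, N / G ≤ z.1 - p.1) (e : (ℝ × ℝ) × (ℝ × ℝ)) (G' : ℝ) (he : e ∈ pairs E κ K G') :
    gs F w (ln e) = 0 := by
  rw [gs_eq]
  have h0 : (F.filter fun z => |sv (ln e) z| ≤ w) = ∅ := by
    rw [Finset.filter_eq_empty_iff]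
    intro z hz
    rw [not_le]
    refine hwc.trans_le ?_
    unfold pairs at he
    rw [Finset.mem_filter, Finset.mem_product] at he
    obtain ⟨⟨he1, he2⟩, h1, h2, h3⟩ := he
    have hκK : 0 < κ * K := by positivity
    have hd : 0 < e.2.1 - e.1.1 := by linarith
    have hNG : 0 < N / G := by positivity
    have hz1 := hEF e.1 he1 z hz
    have hz2 := hEF e.2 he2 z hz
    have n1 : e.1 ≠ e.2 := fun h => by rw [h] at hd; simp at hd
    have n2 : e.2 ≠ z := fun h => by rw [h] at hz2; simp at hz2; linarith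
    have n3 : e.1 ≠ z := fun h => by rw [h] at hz1; simp at hz1; linarith
    have h4 := hF e.1 (hEP he1) e.2 (hEP he2) z (hFP hz) n1 n2 n3
    rw [sv_ln_eq e z hd.ne', abs_div, abs_of_pos hd, le_div_iff₀ hd]
    refine le_trans ?_ h4
    have h5 : N / G ≤ |z.1 - e.1.1| := hz1.trans (le_abs_self _)
    calc c / (G * K) * (e.2.1 - e.1.1) ≤ c / (G * K) * K := mul_le_mul_of_nonneg_left h2 (by positivity)
      _ = c / N * (N / G) := by field_simp
      _ ≤ c / N * |z.1 - e.1.1| := mul_le_mul_of_nonneg_left h5 (by positivity)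
  rw [h0]
  simp

open MeasureTheory in
/-- the two applications of `step` -/
private theorem rich_v (ε c G κ c1 C0 C2 A lam v : ℝ) (hc : 0 < c) (hc1 : c ≤ 1) (hG : 1 ≤ G)
    (hκ : 0 < κ) (hc1' : 0 < c1) (hC0 : 1 ≤ C0) (hC2 : 0 < C2) (hA : 1 ≤ A) (hlam : 0 < lam)
    (hv : 1 ≤ v) (hlv : 1 ≤ lam * v ^ 5) (hlv2 : v ≤ lam * v ^ 5) (hcv : c / v ^ 5 ≤ ε)
    (hcnt : ∀ P : Finset (ℝ × ℝ), Sep ε P → ∀ m a t A B : ℝ, |m| ≤ 2 * G → 0 ≤ A → 0 ≤ B →
      ((P.filter fun z => (a ≤ z.1 ∧ z.1 ≤ a + A) ∧ t ≤ z.2 - m * z.1 ∧ z.2 - m * z.1 ≤ t + B).card : ℝ) ≤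
        C0 * (1 + A) * (1 + B))
    (hL2 : ∀ B : Finset (ℝ × ℝ), Sep ε B → ∀ R v u : ℝ, 0 < v → v ≤ u → 1 ≤ u → 0 ≤ R →
      (∀ z ∈ B, ∀ z' ∈ B, |z.1 - z'.1| ≤ R) →
        ∫ l in lines (2 * G + 1), (gs B v l - gs B u l) ^ 2 ≤
          C2 * (B.card : ℝ) * (1 / v + (1 + v) * (1 + Real.log u) + u * (1 + Real.log (1 + R / u))))
    (P E F : Finset (ℝ × ℝ)) (hP : Sep ε P) (hPN : InBox (v ^ 5) P) (hFat : Fat (c / v ^ 5) P)
    (hEP : E ⊆ P) (hFP : F ⊆ P) (hEF : ∀ p ∈ E, ∀ z ∈ F, v ^ 5 / G ≤ z.1 - p.1)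
    (hctl : (((P ×ˢ P).filter fun e => 0 < e.2.1 - e.1.1 ∧ e.2.1 - e.1.1 ≤ v ^ 2 ∧ |(ln e).1| ≤ 2 * G ∧
        A < ((tube P (v ^ 2) e).card : ℝ)).card : ℝ) ≤ c1 / (6 * C0) * (v ^ 5) ^ 2 * (v ^ 2) ^ 2)
    (hst : c1 * (v ^ 2) ^ 2 * (v ^ 5) ^ 3 ≤ ∑ e ∈ pairs E κ (v ^ 2) (2 * G), gs F (lam * v ^ 5) (ln e))
    (hΦ1 : 34 * A * C0 * C2 * (24 * C0 ^ 2 * (2 * G)) / c * (1 / v + (1 + v) * (1 + Real.log (3 * (lam * v ^ 5))) +
      3 * (lam * v ^ 5) * (1 + Real.log (1 + v ^ 5 / (3 * (lam * v ^ 5))))) ≤ c1 ^ 2 / 144 * v ^ 5)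
    (hΦ0 : (1 + c / (8 * G * v ^ 2)) * (1 + Real.log (3 * (3 * v))) +
      3 * (3 * v) * (1 + Real.log (1 + v ^ 5 / (3 * (3 * v)))) ≤ 8 * G * v ^ 2 / c) :
    ∃ l0 : ℝ × ℝ, ∃ L : Finset ((ℝ × ℝ) × (ℝ × ℝ)), L ⊆ P ×ˢ P ∧
        (∀ e ∈ L, 0 < e.2.1 - e.1.1 ∧ e.2.1 - e.1.1 ≤ v ^ 2 ∧ ((tube P (v ^ 2) e).card : ℝ) ≤ A ∧
          |(ln e).1 - l0.1| ≤ c / (4 * G * v ^ 2 * v ^ 5) ∧ |(ln e).2 - l0.2| ≤ c / (4 * G * v ^ 2)) ∧
        (c1 / 108) ^ 2 * c ^ 3 / (1024 * G ^ 3 * C0 * C2 * (24 * C0 ^ 2 * (2 * G))) * v ^ 5 / v ^ 2 ≤ (L.card : ℝ) := by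
  have hv0 : 0 < v := by linarith
  have hN : 1 ≤ v ^ 5 := one_le_pow₀ hv
  have hK : 1 ≤ v ^ 2 := one_le_pow₀ hv
  have hG0 : 0 < G := by linarith
  have hA0 : 0 < A := by linarith
  have hC00 : 0 < C0 := by linarith
  set LL := (pairs E κ (v ^ 2) (2 * G)).filter fun e => ((tube P (v ^ 2) e).card : ℝ) ≤ A with hLL
  set C3 := 24 * C0 ^ 2 * (2 * G) with hC3
  have hC30 : 0 < C3 := by positivity
  have hgood : c1 / 2 * ((v ^ 2) ^ 2 * (v ^ 5) ^ 3) ≤ ∑ e ∈ LL, gs F (lam * v ^ 5) (ln e) :=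
    rich_good ε (2 * G) C0 c1 (c1 / (6 * C0)) A κ (v ^ 2) (v ^ 5) (lam * v ^ 5) hC0 hN hlv hK hκ hcnt P E F hP hPN
      hEP hFP hctl (le_of_eq (by field_simp; ring)) hst
  have hLLs : LL ⊆ pairs E κ (v ^ 2) (2 * G) := Finset.filter_subset _ _
  have hpm : pairs E κ (v ^ 2) (2 * G) ⊆ pairs P κ (v ^ 2) (2 * G) := by
    unfold pairs
    intro e he
    rw [Finset.mem_filter, Finset.mem_product] at he ⊢
    exact ⟨⟨hEP he.1.1, hEP he.1.2⟩, he.2⟩
  have hLcard : (LL.card : ℝ) ≤ C3 * ((v ^ 5) ^ 2 * (v ^ 2) ^ 2) := by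
    refine le_trans ?_ (rich_pairs C0 (2 * G) ε (v ^ 5) (v ^ 2) κ hC0 (by linarith) hN hK hκ hcnt P hP hPN)
    exact_mod_cast Finset.card_le_card (hLLs.trans hpm)
  have hFcard : (F.card : ℝ) ≤ 4 * C0 * (v ^ 5) ^ 2 :=
    rich_card C0 (2 * G) ε (v ^ 5) hC0 (by linarith) hN hcnt F (hP.mono hFP) (hPN.mono hFP)
  have hFx : ∀ z ∈ F, 0 ≤ z.1 ∧ z.1 ≤ v ^ 5 := fun z hz => ⟨(hPN z (hFP hz)).1, (hPN z (hFP hz)).2.1⟩
  have hFR : ∀ z ∈ F, ∀ z' ∈ F, |z.1 - z'.1| ≤ v ^ 5 := by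
    intro z hz z' hz'
    obtain ⟨a1, a2⟩ := hFx z hz
    obtain ⟨b1, b2⟩ := hFx z' hz'
    rw [abs_le]
    constructor <;> linarith
  have hslope : ∀ e ∈ LL, |(ln e).1| ≤ 2 * G := by
    intro e he
    have h1 := hLLs he
    unfold pairs at h1
    rw [Finset.mem_filter] at h1
    exact h1.2.2.2
  -- first application
  set Φ1 := 1 / v + (1 + v) * (1 + Real.log (3 * (lam * v ^ 5))) +
      3 * (lam * v ^ 5) * (1 + Real.log (1 + v ^ 5 / (3 * (lam * v ^ 5)))) with hΦ1d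
  have hlog1 : 0 ≤ Real.log (3 * (lam * v ^ 5)) := Real.log_nonneg (by linarith)
  have hlog2 : 0 ≤ Real.log (1 + v ^ 5 / (3 * (lam * v ^ 5))) := Real.log_nonneg (by
    have : 0 ≤ v ^ 5 / (3 * (lam * v ^ 5)) := by positivity
    linarith)
  have hΦ10 : 0 ≤ Φ1 := by positivity
  have hD1 : ∫ l in lines (2 * G + 1), (gs F v l - gs F (3 * (lam * v ^ 5)) l) ^ 2 ≤
      C2 * (4 * C0 * (v ^ 5) ^ 2) * Φ1 := by
    refine (hL2 F (hP.mono hFP) (v ^ 5) v (3 * (lam * v ^ 5)) hv0 (by linarith) (by linarith) (by positivity)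
      hFR).trans ?_
    exact mul_le_mul_of_nonneg_right (mul_le_mul_of_nonneg_left hFcard hC2.le) hΦ10
  have hM1 : ((close LL (v ^ 5) v).card : ℝ) ≤ C3 * ((v ^ 5) ^ 2 * (v ^ 2) ^ 2) * (A * (34 * (v * v ^ 5 / c))) := by
    have h1 := close_card ε (c / v ^ 5) κ (v ^ 2) (2 * G) (v ^ 5) v A P hP hFat (by positivity) hcv (by positivity)
      hPN hκ (by positivity) hv0 (le_of_eq (by ring)) (by linarith) LL (hLLs.trans hpm)
      (fun e he => (Finset.mem_filter.1 he).2)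
    refine h1.trans ?_
    have h2 : 32 * v / (c / v ^ 5) + 2 ≤ 34 * (v * v ^ 5 / c) := by
      have h3 : 32 * v / (c / v ^ 5) = 32 * (v * v ^ 5 / c) := by field_simp
      have h4 : 1 ≤ v * v ^ 5 / c := by
        rw [le_div_iff₀ hc]
        have : 1 ≤ v * v ^ 5 := by nlinarith
        linarith
      rw [h3]
      linarith
    have h5 : A * (32 * v / (c / v ^ 5) + 2) ≤ A * (34 * (v * v ^ 5 / c)) := mul_le_mul_of_nonneg_left h2 hA0.le
    exact mul_le_mul hLcard h5 (by positivity) (by positivity)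
  have hstep1 := step F (v ^ 5) (2 * G + 1) (lam * v ^ 5) v (by positivity) hFx hv0 hlv2 LL (fun e he => by
    have h1 := hslope e he
    have h2 : v / v ^ 5 ≤ 1 := by
      rw [div_le_one (by positivity)]
      exact le_self_pow₀ hv (by norm_num)
    linarith)
  have herr1 : √(v ^ 5 / (4 * v ^ 2) * ((close LL (v ^ 5) v).card : ℝ)) *
      √(∫ l in lines (2 * G + 1), (gs F v l - gs F (3 * (lam * v ^ 5)) l) ^ 2) ≤
        c1 / 12 * ((v ^ 2) ^ 2 * (v ^ 5) ^ 3) := by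
    refine rich_sqrt_le _ _ _ (by positivity) (by positivity) ?_
    have h1 : v ^ 5 / (4 * v ^ 2) * ((close LL (v ^ 5) v).card : ℝ) ≤ v ^ 5 / (4 * v ^ 2) *
        (C3 * ((v ^ 5) ^ 2 * (v ^ 2) ^ 2) * (A * (34 * (v * v ^ 5 / c)))) :=
      mul_le_mul_of_nonneg_left hM1 (by positivity)
    refine (mul_le_mul h1 hD1 (setIntegral_nonneg (by unfold lines; measurability) fun _ _ => sq_nonneg _)
      (by positivity)).trans ?_
    have h2 : v ^ 5 / (4 * v ^ 2) * (C3 * ((v ^ 5) ^ 2 * (v ^ 2) ^ 2) * (A * (34 * (v * v ^ 5 / c)))) *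
        (C2 * (4 * C0 * (v ^ 5) ^ 2) * Φ1) = (34 * A * C0 * C2 * C3 / c * Φ1) * v ^ 33 := by
      field_simp
    rw [h2]
    refine (mul_le_mul_of_nonneg_right hΦ1 (by positivity)).trans (le_of_eq ?_)
    ring
  have hX : c1 / 36 * ((v ^ 2) ^ 2 * (v ^ 5) ^ 3) ≤ ∑ e ∈ LL, gs F (3 * v) (ln e) := by
    linarith
  -- second application
  set w := c / (8 * G * v ^ 2) with hw
  have hw0 : 0 < w := by positivity
  have hw1 : w ≤ 1 := by
    rw [hw, div_le_one (by positivity)]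
    nlinarith
  have hstep2 := step F (v ^ 5) (2 * G + 1) (3 * v) w (by positivity) hFx hw0 (by linarith) LL (fun e he => by
    have h1 := hslope e he
    have h2 : w / v ^ 5 ≤ 1 := by
      rw [div_le_one (by positivity)]
      linarith
    linarith)
  have hzero : ∑ e ∈ LL, gs F (3 * w) (ln e) = 0 := by
    refine Finset.sum_eq_zero fun e he => ?_
    refine rich_empty c G (v ^ 2) (v ^ 5) (3 * w) κ hc hG hK hN hκ ?_ P E F hFat hEP hFP hEF e (2 * G)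
      (hLLs he)
    have h3 : c / (G * v ^ 2) = 8 * w := by rw [hw]; field_simp
    rw [h3]
    linarith
  rw [hzero, mul_zero, zero_add] at hstep2
  have hwinv : 1 / w = 8 * G * v ^ 2 / c := by rw [hw]; field_simp
  have hD0 : ∫ l in lines (2 * G + 1), (gs F w l - gs F (3 * (3 * v)) l) ^ 2 ≤
      C2 * (4 * C0 * (v ^ 5) ^ 2) * (2 / w) := by
    refine (hL2 F (hP.mono hFP) (v ^ 5) w (3 * (3 * v)) hw0 (by linarith) (by linarith) (by positivity)
      hFR).trans ?_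
    have h4 : 1 / w + (1 + w) * (1 + Real.log (3 * (3 * v))) + 3 * (3 * v) * (1 + Real.log (1 + v ^ 5 / (3 * (3 * v)))) ≤
        2 / w := by
      have h5 : (2 : ℝ) / w = 1 / w + 1 / w := by ring
      rw [h5, add_assoc]
      nth_rw 3 [hwinv]
      linarith
    refine mul_le_mul (mul_le_mul_of_nonneg_left hFcard hC2.le) h4 ?_ (by positivity)
    have h6 : 0 ≤ Real.log (3 * (3 * v)) := Real.log_nonneg (by linarith)
    have h7 : 0 ≤ Real.log (1 + v ^ 5 / (3 * (3 * v))) := Real.log_nonneg (by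
      have : 0 ≤ v ^ 5 / (3 * (3 * v)) := by positivity
      linarith)
    positivity
  have hsq := rich_le_of_sqrt _ _ (c1 / 108 * ((v ^ 2) ^ 2 * (v ^ 5) ^ 3)) (by positivity)
    (setIntegral_nonneg (by unfold lines; measurability) fun _ _ => sq_nonneg _) (by positivity)
    (le_trans (by linarith) hstep2)
  have hsq2 : (c1 / 108 * ((v ^ 2) ^ 2 * (v ^ 5) ^ 3)) ^ 2 ≤
      v ^ 5 / (4 * w ^ 2) * ((close LL (v ^ 5) w).card : ℝ) * (C2 * (4 * C0 * (v ^ 5) ^ 2) * (2 / w)) :=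
    hsq.trans (mul_le_mul_of_nonneg_left hD0 (by positivity))
  set δ := (c1 / 108) ^ 2 * c ^ 3 / (1024 * G ^ 3 * C0 * C2 * C3) with hδ
  have hδ0 : 0 < δ := by positivity
  have hMlow : C3 * ((v ^ 5) ^ 2 * (v ^ 2) ^ 2) * (δ * v ^ 5 / v ^ 2) ≤ ((close LL (v ^ 5) w).card : ℝ) := by
    have h8 : v ^ 5 / (4 * w ^ 2) * ((close LL (v ^ 5) w).card : ℝ) * (C2 * (4 * C0 * (v ^ 5) ^ 2) * (2 / w)) =
        ((close LL (v ^ 5) w).card : ℝ) * (2 * C0 * C2 * (v ^ 5) ^ 3 / w ^ 3) := by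
      field_simp
    rw [h8] at hsq2
    have h9 : (c1 / 108 * ((v ^ 2) ^ 2 * (v ^ 5) ^ 3)) ^ 2 =
        (C3 * ((v ^ 5) ^ 2 * (v ^ 2) ^ 2) * (δ * v ^ 5 / v ^ 2)) * (2 * C0 * C2 * (v ^ 5) ^ 3 / w ^ 3) := by
      rw [hδ, hw]
      field_simp
      ring
    rw [h9] at hsq2
    exact le_of_mul_le_mul_right hsq2 (by positivity)
  obtain ⟨e0, he0, hcard⟩ := rich_pigeon LL (v ^ 5) w (C3 * ((v ^ 5) ^ 2 * (v ^ 2) ^ 2)) (δ * v ^ 5 / v ^ 2) hLcard
    (by positivity) (by positivity) hMlow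
  refine ⟨ln e0, _, ?_, ?_, hcard⟩
  · refine (Finset.filter_subset _ _).trans ((hLLs.trans hpm).trans ?_)
    unfold pairs
    exact Finset.filter_subset _ _
  · intro e he
    rw [Finset.mem_filter] at he
    obtain ⟨he1, he2, he3⟩ := he
    have h1 := hLLs he1
    unfold pairs at h1
    rw [Finset.mem_filter] at h1
    obtain ⟨-, h2, h3, h4⟩ := h1
    have hκK : 0 < κ * v ^ 2 := by positivity
    refine ⟨by linarith, h3, (Finset.mem_filter.1 he1).2, ?_, ?_⟩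
    · rw [abs_sub_comm]
      refine he2.trans (le_of_eq ?_)
      rw [hw]
      field_simp
      ring
    · rw [abs_sub_comm]
      refine he3.trans (le_of_eq ?_)
      rw [hw]
      field_simp
      ring

private theorem rich_log (x : ℝ) (hx : 1 ≤ x) : Real.log x ≤ 2 * √x := by
  have h0 : 0 < √x := Real.sqrt_pos.2 (by linarith)
  have h1 : Real.log x = 2 * Real.log (√x) := by
    rw [Real.log_sqrt (by linarith)]
    ring
  rw [h1]
  have h2 := Real.log_le_sub_one_of_pos h0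
  linarith

/-- a bound for the logarithm of a power -/
private theorem rich_log5 (v : ℝ) (hv : 1 ≤ v) : Real.log (3 * v ^ 5) ≤ 10 * v := by
  rw [Real.log_mul (by norm_num) (by positivity), Real.log_pow]
  have h1 := Real.log_le_sub_one_of_pos (show (0 : ℝ) < v by linarith)
  have h2 := Real.log_le_sub_one_of_pos (show (0 : ℝ) < 3 by norm_num)
  push_cast
  nlinarith

/-- the second logarithmic condition -/
private theorem rich_large (v : ℝ) (hv : 10 ^ 6 ≤ v) :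
    2 * (1 + Real.log (3 * (3 * v))) + 3 * (3 * v) * (1 + Real.log (1 + v ^ 5 / (3 * (3 * v)))) ≤ 8 * v ^ 2 := by
  have hv0 : 0 < v := by linarith
  have h1 : Real.log (3 * (3 * v)) ≤ 3 * (3 * v) := by
    have := Real.log_le_sub_one_of_pos (show 0 < 3 * (3 * v) by positivity)
    linarith
  have h2 : Real.log (1 + v ^ 5 / (3 * (3 * v))) ≤ 4 * Real.log v := by
    have h3 : (4 : ℝ) * Real.log v = Real.log (v ^ 4) := by rw [Real.log_pow]; norm_num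
    rw [h3]
    refine Real.log_le_log (by positivity) ?_
    have h4 : v ^ 5 / (3 * (3 * v)) = v ^ 4 / 9 := by
      field_simp
      norm_num
    rw [h4]
    have h5 : (1 : ℝ) ≤ v ^ 4 / 9 := by
      rw [le_div_iff₀ (by norm_num)]
      have : (10 ^ 6 : ℝ) ^ 4 ≤ v ^ 4 := pow_le_pow_left₀ (by norm_num) hv 4
      linarith [show (9 : ℝ) ≤ (10 ^ 6) ^ 4 by norm_num]
    linarith [show (0 : ℝ) ≤ v ^ 4 by positivity]
  have h6 : Real.log v ≤ 2 * √v := rich_log v (by linarith)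
  have h7 : √v ≤ v / 1000 := by
    rw [Real.sqrt_le_left (by positivity)]
    nlinarith
  have h8 : 3 * (3 * v) * (1 + Real.log (1 + v ^ 5 / (3 * (3 * v)))) ≤ 3 * (3 * v) * (1 + v / 125) := by
    refine mul_le_mul_of_nonneg_left ?_ (by positivity)
    linarith
  nlinarith

/-- choice of the large scale -/
private theorem rich_lam (M b : ℝ) (hM : 0 < M) (hb : 0 < b) : ∃ lam : ℝ, 0 < lam ∧ lam ≤ 1 ∧
    1 / lam ≤ 1 + (9 * M / b) ^ 2 ∧ M * (3 * lam * (1 + Real.log (1 + 1 / (3 * lam)))) ≤ b := by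
  refine ⟨min 1 ((b / (9 * M)) ^ 2), lt_min one_pos (by positivity), min_le_left _ _, ?_, ?_⟩
  · have h0 : 0 < (9 * M / b) ^ 2 := by positivity
    rcases le_total 1 ((b / (9 * M)) ^ 2) with h | h
    · rw [min_eq_left h]
      linarith
    · rw [min_eq_right h]
      have h1 : 1 / (b / (9 * M)) ^ 2 = (9 * M / b) ^ 2 := by field_simp
      rw [h1]
      linarith
  set lam := min 1 ((b / (9 * M)) ^ 2) with hl
  have hl0 : 0 < lam := lt_min one_pos (by positivity)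
  have hl1 : lam ≤ 1 := min_le_left _ _
  have hs : √lam ≤ b / (9 * M) := by
    rw [Real.sqrt_le_left (by positivity)]
    exact min_le_right _ _
  have hs2 : √lam * √lam = lam := Real.mul_self_sqrt hl0.le
  have hs1 : √lam ≤ 1 := Real.sqrt_le_one.2 hl1
  have hs0 : 0 < √lam := Real.sqrt_pos.2 hl0
  have h1 : Real.log (1 + 1 / (3 * lam)) ≤ 2 * (1 / √lam) := by
    have h2 : 1 + 1 / (3 * lam) ≤ (1 + 1 / √lam) ^ 2 := by
      have h3 : 1 / lam = (1 / √lam) ^ 2 := by rw [div_pow, one_pow, Real.sq_sqrt hl0.le]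
      have h4 : 1 / (3 * lam) ≤ 1 / lam := one_div_le_one_div_of_le hl0 (by linarith)
      have h5 : 0 ≤ 1 / √lam := by positivity
      nlinarith
    have h6 : Real.log (1 + 1 / (3 * lam)) ≤ Real.log ((1 + 1 / √lam) ^ 2) := Real.log_le_log (by positivity) h2
    rw [Real.log_pow] at h6
    have h7 := Real.log_le_sub_one_of_pos (show 0 < 1 + 1 / √lam by positivity)
    push_cast at h6
    linarith
  have h8 : 3 * lam * (1 + Real.log (1 + 1 / (3 * lam))) ≤ 9 * √lam := by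
    have h9 : 3 * lam * (1 + Real.log (1 + 1 / (3 * lam))) ≤ 3 * lam * (1 + 2 * (1 / √lam)) :=
      mul_le_mul_of_nonneg_left (by linarith) (by positivity)
    have h10 : 3 * lam * (1 + 2 * (1 / √lam)) = 3 * lam + 6 * √lam := by
      have h11 : lam * (1 / √lam) = √lam := by
        nth_rw 1 [← hs2]
        field_simp
      linear_combination 6 * h11
    have h12 : lam ≤ √lam := by nlinarith
    linarith
  calc M * (3 * lam * (1 + Real.log (1 + 1 / (3 * lam)))) ≤ M * (9 * √lam) := mul_le_mul_of_nonneg_left h8 hM.le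
    _ ≤ M * (9 * (b / (9 * M))) := by
        refine mul_le_mul_of_nonneg_left ?_ hM.le
        linarith
    _ = b := by field_simp

/-- a tube of half-width about `1 / K` and length `N` containing `δ c ^ 3 N / K` aligned `K`-pairs (`N = v ^ 5`, `K = v ^ 2`) -/
theorem rich (ε : ℝ) (hε : 0 < ε) : ∃ G A δ B : ℝ, 1 ≤ G ∧ 1 ≤ A ∧ 0 < δ ∧ 1 ≤ B ∧
    ∀ c v : ℝ, 0 < c → c ≤ 1 → B / c ^ 2 ≤ v → ∀ P : Finset (ℝ × ℝ), Sep ε P → InBox (v ^ 5) P →
      (v ^ 5) ^ 2 ≤ (P.card : ℝ) → Fat (c / v ^ 5) P →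
        ∃ l0 : ℝ × ℝ, ∃ L : Finset ((ℝ × ℝ) × (ℝ × ℝ)), L ⊆ P ×ˢ P ∧
          (∀ e ∈ L, 0 < e.2.1 - e.1.1 ∧ e.2.1 - e.1.1 ≤ v ^ 2 ∧ ((tube P (v ^ 2) e).card : ℝ) ≤ A ∧
            |(ln e).1 - l0.1| ≤ c / (4 * G * v ^ 2 * v ^ 5) ∧ |(ln e).2 - l0.2| ≤ c / (4 * G * v ^ 2)) ∧
          δ * c ^ 3 * v ^ 5 / v ^ 2 ≤ (L.card : ℝ) := by
  obtain ⟨G, hG, hsplit⟩ := split ε hε
  obtain ⟨κ, c1, B0, hκ, hκ1, hc1', hB0, hstart⟩ := start ε G hε hG
  obtain ⟨C0, hC0, hcnt⟩ := cnt ε (2 * G) hε (by linarith)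
  obtain ⟨C2, hC2, hL2⟩ := L2 ε (2 * G + 1) hε (by linarith)
  have hC00 : 0 < C0 := by linarith
  have hG0 : 0 < G := by linarith
  obtain ⟨A, K1, hA, hK1, hctl⟩ := ctl ε (2 * G) (c1 / (6 * C0)) hε (by linarith) (by positivity)
  have hA0 : 0 < A := by linarith
  set M5 := 34 * A * C0 * C2 * (24 * C0 ^ 2 * (2 * G)) with hM5
  have hM50 : 0 < M5 := by positivity
  set R := 1 + (9 * M5 / (c1 ^ 2 / 288)) ^ 2 with hR
  have hR0 : 0 < R := by positivity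
  refine ⟨G, A, (c1 / 108) ^ 2 / (1024 * G ^ 3 * C0 * C2 * (24 * C0 ^ 2 * (2 * G))),
    10 ^ 6 + K1 + (B0 + 1) * R + G + 1 / ε + 23 * 288 * M5 / c1 ^ 2, hG, hA, by positivity, ?_, ?_⟩
  · have h1 : 0 < (B0 + 1) * R := by positivity
    have h2 : 0 < 1 / ε := by positivity
    have h3 : 0 < 23 * 288 * M5 / c1 ^ 2 := by positivity
    linarith
  intro c v hc hc1 hv P hP hPN hcard hF
  set M4 := M5 / c with hM4
  have hM40 : 0 < M4 := by positivity
  obtain ⟨lam, hlam, hlam1, hlamR, hlamM⟩ := rich_lam M4 (c1 ^ 2 / 288) hM40 (by positivity)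
  have hci : 1 ≤ 1 / c := by
    rw [le_div_iff₀ hc]
    linarith
  have hci2 : 1 ≤ 1 / c ^ 2 := by
    rw [le_div_iff₀ (by positivity)]
    nlinarith
  have hci3 : 1 / c ≤ 1 / c ^ 2 := by
    have : 1 / c ^ 2 = 1 / c * (1 / c) := by field_simp
    rw [this]
    nlinarith
  have hlamR2 : 1 / lam ≤ R * (1 / c ^ 2) := by
    refine hlamR.trans ?_
    have h1 : (9 * M4 / (c1 ^ 2 / 288)) ^ 2 = (9 * M5 / (c1 ^ 2 / 288)) ^ 2 * (1 / c ^ 2) := by
      rw [hM4]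
      field_simp
    rw [h1, hR]
    linarith
  have hsum : (10 ^ 6 + K1 + (B0 + 1) * R + G + 1 / ε + 23 * 288 * M5 / c1 ^ 2) / c ^ 2 =
      10 ^ 6 * (1 / c ^ 2) + K1 * (1 / c ^ 2) + B0 * (R * (1 / c ^ 2)) + R * (1 / c ^ 2) + G * (1 / c ^ 2) +
        1 / ε * (1 / c ^ 2) + 23 * 288 * M5 / c1 ^ 2 * (1 / c ^ 2) := by ring
  rw [hsum] at hv
  have q1 : 10 ^ 6 * 1 ≤ 10 ^ 6 * (1 / c ^ 2) := mul_le_mul_of_nonneg_left hci2 (by norm_num)
  have q2 : K1 * 1 ≤ K1 * (1 / c ^ 2) := mul_le_mul_of_nonneg_left hci2 (by linarith)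
  have q3 : B0 * (1 / lam) ≤ B0 * (R * (1 / c ^ 2)) := mul_le_mul_of_nonneg_left hlamR2 (by linarith)
  have q4 : G * 1 ≤ G * (1 / c ^ 2) := mul_le_mul_of_nonneg_left hci2 hG0.le
  have q5 : 1 / ε * 1 ≤ 1 / ε * (1 / c ^ 2) := mul_le_mul_of_nonneg_left hci2 (by positivity)
  have q6 : 23 * 288 * M5 / c1 ^ 2 * (1 / c) ≤ 23 * 288 * M5 / c1 ^ 2 * (1 / c ^ 2) :=
    mul_le_mul_of_nonneg_left hci3 (by positivity)
  have q7 : 0 < 23 * 288 * M5 / c1 ^ 2 * (1 / c) := by positivity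
  have q8 : 0 < 1 / ε := by positivity
  have q9 : 0 < 1 / lam := by positivity
  have q10 : 0 < B0 * (1 / lam) := by positivity
  have hV1 : 10 ^ 6 ≤ v := by linarith
  have hV2 : K1 ≤ v := by linarith
  have hV3 : B0 / lam ≤ v := by
    have : B0 / lam = B0 * (1 / lam) := by ring
    rw [this]
    linarith
  have hV4 : G ≤ v := by linarith
  have hV5 : 1 / lam ≤ v := by linarith
  have hV6 : c / ε ≤ v := by
    have : c / ε ≤ 1 / ε := div_le_div_of_nonneg_right hc1 hε.le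
    linarith
  have hV7 : 23 * 288 * M4 / c1 ^ 2 ≤ v := by
    have : 23 * 288 * M4 / c1 ^ 2 = 23 * 288 * M5 / c1 ^ 2 * (1 / c) := by
      rw [hM4]
      field_simp
    rw [this]
    linarith
  have hv6 := hV1
  have hv1 : 1 ≤ v := by linarith
  have hv0 : 0 < v := by linarith
  have p2 : v ≤ v ^ 2 := le_self_pow₀ hv1 (by norm_num)
  have p3 : v ≤ v ^ 3 := le_self_pow₀ hv1 (by norm_num)
  have p4 : v ≤ v ^ 4 := le_self_pow₀ hv1 (by norm_num)
  have p5 : v ≤ v ^ 5 := le_self_pow₀ hv1 (by norm_num)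
  have hlv : v ^ 4 ≤ lam * v ^ 5 := by
    have h1 : 1 ≤ lam * v := by
      have h2 := (div_le_iff₀ hlam).1 hV5
      linarith
    calc v ^ 4 = 1 * v ^ 4 := by ring
      _ ≤ (lam * v) * v ^ 4 := mul_le_mul_of_nonneg_right h1 (by positivity)
      _ = lam * v ^ 5 := by ring
  obtain ⟨a, hE, hF'⟩ := hsplit (v ^ 5) (by linarith) P hP hPN hcard
  set E := P.filter fun z => z.1 ≤ a with hEd
  set F := P.filter fun z => a + v ^ 5 / G ≤ z.1 with hFd
  have hEP : E ⊆ P := Finset.filter_subset _ _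
  have hFP : F ⊆ P := Finset.filter_subset _ _
  have hEF : ∀ p ∈ E, ∀ z ∈ F, v ^ 5 / G ≤ z.1 - p.1 := by
    intro p hp z hz
    rw [hEd, Finset.mem_filter] at hp
    rw [hFd, Finset.mem_filter] at hz
    linarith [hp.2, hz.2]
  have hst' := hstart lam hlam hlam1 (v ^ 2) (v ^ 5) (by linarith) (by
    calc B0 / lam * v ^ 2 ≤ v ^ 3 * v ^ 2 := mul_le_mul_of_nonneg_right (by linarith) (by positivity)
      _ = v ^ 5 := by ring) E F (hP.mono hEP) (hPN.mono hEP) (hPN.mono hFP) hEF hE hF'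
  have hctl' := hctl P hP (v ^ 5) (v ^ 2) (by linarith) (by
    calc v ^ 2 = 1 * v ^ 2 := by ring
      _ ≤ v ^ 3 * v ^ 2 := mul_le_mul_of_nonneg_right (by linarith) (by positivity)
      _ = v ^ 5 := by ring) hPN
  have hfin : (c1 / 108) ^ 2 / (1024 * G ^ 3 * C0 * C2 * (24 * C0 ^ 2 * (2 * G))) * c ^ 3 * v ^ 5 / v ^ 2 =
      (c1 / 108) ^ 2 * c ^ 3 / (1024 * G ^ 3 * C0 * C2 * (24 * C0 ^ 2 * (2 * G))) * v ^ 5 / v ^ 2 := by ring
  rw [hfin]
  refine rich_v ε c G κ c1 C0 C2 A lam v hc hc1 hG hκ hc1' hC0 hC2 hA hlam hv1 (by linarith) (by linarith) ?_ hcnt hL2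
    P E F hP hPN hF hEP hFP hEF hctl' hst' ?_ ?_
  · rw [div_le_iff₀ (by positivity)]
    have h1 := (div_le_iff₀ hε).1 hV6
    calc c ≤ v * ε := h1
      _ ≤ v ^ 5 * ε := mul_le_mul_of_nonneg_right p5 hε.le
      _ = ε * v ^ 5 := by ring
  · rw [← hM5, ← hM4]
    have h1 : v ^ 5 / (3 * (lam * v ^ 5)) = 1 / (3 * lam) := by field_simp
    rw [h1]
    have h2 : Real.log (3 * (lam * v ^ 5)) ≤ 10 * v := by
      refine le_trans (Real.log_le_log (by positivity) ?_) (rich_log5 v hv1)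
      have : lam * v ^ 5 ≤ 1 * v ^ 5 := mul_le_mul_of_nonneg_right hlam1 (by positivity)
      linarith
    have h3 : 1 / v ≤ 1 := by
      rw [div_le_one hv0]
      exact hv1
    have h4 : 1 / v + (1 + v) * (1 + Real.log (3 * (lam * v ^ 5))) ≤ 23 * v ^ 2 := by
      have h5 : (1 + v) * (1 + Real.log (3 * (lam * v ^ 5))) ≤ (1 + v) * (1 + 10 * v) :=
        mul_le_mul_of_nonneg_left (by linarith) (by positivity)
      nlinarith
    have h6 : M4 * (23 * v ^ 2) ≤ c1 ^ 2 / 288 * v ^ 5 := by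
      have h7 := (div_le_iff₀ (show 0 < c1 ^ 2 by positivity)).1 hV7
      have h8 : 23 * 288 * M4 ≤ c1 ^ 2 * v ^ 3 := by
        have : v * c1 ^ 2 ≤ v ^ 3 * c1 ^ 2 := mul_le_mul_of_nonneg_right p3 (by positivity)
        linarith
      have h9 : (23 * 288 * M4) * (v ^ 2 / 288) ≤ (c1 ^ 2 * v ^ 3) * (v ^ 2 / 288) :=
        mul_le_mul_of_nonneg_right h8 (by positivity)
      calc M4 * (23 * v ^ 2) = (23 * 288 * M4) * (v ^ 2 / 288) := by ring
        _ ≤ (c1 ^ 2 * v ^ 3) * (v ^ 2 / 288) := h9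
        _ = c1 ^ 2 / 288 * v ^ 5 := by ring
    have h10 : M4 * (3 * (lam * v ^ 5) * (1 + Real.log (1 + 1 / (3 * lam)))) ≤ c1 ^ 2 / 288 * v ^ 5 := by
      calc M4 * (3 * (lam * v ^ 5) * (1 + Real.log (1 + 1 / (3 * lam)))) =
          M4 * (3 * lam * (1 + Real.log (1 + 1 / (3 * lam)))) * v ^ 5 := by ring
        _ ≤ c1 ^ 2 / 288 * v ^ 5 := mul_le_mul_of_nonneg_right hlamM (by positivity)
    calc M4 * (1 / v + (1 + v) * (1 + Real.log (3 * (lam * v ^ 5))) +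
          3 * (lam * v ^ 5) * (1 + Real.log (1 + 1 / (3 * lam)))) =
        M4 * (1 / v + (1 + v) * (1 + Real.log (3 * (lam * v ^ 5)))) +
          M4 * (3 * (lam * v ^ 5) * (1 + Real.log (1 + 1 / (3 * lam)))) := by ring
      _ ≤ M4 * (23 * v ^ 2) + c1 ^ 2 / 288 * v ^ 5 := add_le_add (mul_le_mul_of_nonneg_left h4 hM40.le) h10
      _ ≤ c1 ^ 2 / 288 * v ^ 5 + c1 ^ 2 / 288 * v ^ 5 := by linarith
      _ = c1 ^ 2 / 144 * v ^ 5 := by ring
  · have h1 := rich_large v hv6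
    have h2 : c / (8 * G * v ^ 2) ≤ 1 := by
      rw [div_le_one (by positivity)]
      have : 1 ≤ G * v ^ 2 := by nlinarith
      nlinarith
    have h3 : 0 ≤ Real.log (3 * (3 * v)) := Real.log_nonneg (by linarith)
    have h4 : (1 + c / (8 * G * v ^ 2)) * (1 + Real.log (3 * (3 * v))) ≤ 2 * (1 + Real.log (3 * (3 * v))) :=
      mul_le_mul_of_nonneg_right (by linarith) (by linarith)
    have h5 : 8 * v ^ 2 ≤ 8 * G * v ^ 2 / c := by
      rw [le_div_iff₀ hc]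
      have h6 : v ^ 2 * c ≤ v ^ 2 * 1 := mul_le_mul_of_nonneg_left hc1 (by positivity)
      have h7 : 1 * v ^ 2 ≤ G * v ^ 2 := mul_le_mul_of_nonneg_right hG (by positivity)
      linarith
    linarith

end

end Pool.Agent.Lib.MP_a768d2_coS
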